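import Pool.Agent.ADN.FgeT
import Pool.Agent.AD.FinRing

/-!
# ADA-Acc

Ascending chain condition for the T-ideals above a nilpotent T-ideal.
-/

namespace ADA

open AD ADN

/-- the polynomials all of whose words use the letters `< m` and contain all letters `< k` -/
noncomputable def Full (k m : ℕ) : Submodule ℤ P :=
  Submodule.span ℤ {f | ∃ w : List ℕ, w ≠ [] ∧ (∀ a ∈ w, a < m) ∧ (∀ i < k, i ∈ w) ∧ f = mon w}

/-- the substitution `x_i := 0` -/
noncomputable def kil (i : ℕ) : P →ₐ[ℤ] P :=
  FreeAlgebra.lift ℤ (fun j => if j = i then 0 else X j)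

/-- the renaming interchanging `x_i` and `x_k` -/
noncomputable def ren (i k : ℕ) : P →ₐ[ℤ] P := FreeAlgebra.lift ℤ (fun j => X (Equiv.swap i k j))

theorem mon_cons' (a : ℕ) (w : List ℕ) : mon (a :: w) = X a * mon w := by
  simp [mon]

theorem mon_nil' : mon [] = 1 := by simp [mon]

theorem kil_mon (i : ℕ) (w : List ℕ) : kil i (mon w) = if i ∈ w then 0 else mon w := by
  induction w with
  | nil => simp [mon_nil']
  | cons a w ih =>
    rw [mon_cons', map_mul, ih]
    have h1 : kil i (X a) = if a = i then 0 else X a := by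
      unfold kil
      exact FreeAlgebra.lift_ι_apply _ _
    rw [h1]
    by_cases h : a = i
    · simp [h]
    · have h' : ¬ i = a := fun h'' => h h''.symm
      by_cases hw : i ∈ w
      · simp [hw]
      · simp [hw, h, h']

theorem kil_isSubst (i : ℕ) : IsSubst (kil i) := by
  intro j
  have h1 : kil i (X j) = if j = i then 0 else X j := by
    unfold kil
    exact FreeAlgebra.lift_ι_apply _ _
  rw [h1]
  split_ifs
  · exact map_zero _
  · unfold aug
    exact FreeAlgebra.lift_ι_apply _ _

theorem ren_X (i k j : ℕ) : ren i k (X j) = X (Equiv.swap i k j) := by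
  unfold ren
  exact FreeAlgebra.lift_ι_apply _ _

theorem ren_isSubst (i k : ℕ) : IsSubst (ren i k) := by
  intro j
  rw [ren_X]
  unfold aug
  exact FreeAlgebra.lift_ι_apply _ _

theorem ren_mon (i k : ℕ) (w : List ℕ) : ren i k (mon w) = mon (w.map (Equiv.swap i k)) := by
  induction w with
  | nil => simp [mon_nil']
  | cons a w ih => rw [mon_cons', map_mul, ih, List.map_cons, mon_cons', ren_X]

theorem ren_ren (i k : ℕ) (f : P) : ren i k (ren i k f) = f := by
  have h : (ren i k).comp (ren i k) = AlgHom.id ℤ P := by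
    apply FreeAlgebra.hom_ext
    funext j
    show ren i k (ren i k (X j)) = X j
    rw [ren_X, ren_X, Equiv.swap_apply_self]
  exact DFunLike.congr_fun h f

theorem full_sub {i m : ℕ} {g : P} (hg : g ∈ Full i m) : g - kil i g ∈ Full (i + 1) m := by
  have h : Full i m ≤ (Full (i + 1) m).comap (LinearMap.id - (kil i).toLinearMap) := by
    refine Submodule.span_le.2 ?_
    rintro f ⟨w, hw, h1, h2, rfl⟩
    show mon w - kil i (mon w) ∈ Full (i + 1) m
    rw [kil_mon]
    by_cases hi : i ∈ w
    · rw [if_pos hi, sub_zero]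
      refine Submodule.subset_span ⟨w, hw, h1, fun j hj => ?_, rfl⟩
      rcases Nat.lt_succ_iff_lt_or_eq.1 hj with h | h
      · exact h2 j h
      · rw [h]; exact hi
    · rw [if_neg hi, sub_self]
      exact Submodule.zero_mem _
  exact h hg

theorem full_ren {i k : ℕ} (hi : i < k + 1) {g : P} (hg : g ∈ Full i (k + 1)) :
    ren i k (kil i g) ∈ Pn k := by
  have h : Full i (k + 1) ≤ (Pn k).comap ((ren i k).comp (kil i)).toLinearMap := by
    refine Submodule.span_le.2 ?_
    rintro f ⟨w, hw, h1, h2, rfl⟩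
    show ren i k (kil i (mon w)) ∈ Pn k
    rw [kil_mon]
    by_cases hiw : i ∈ w
    · rw [if_pos hiw, map_zero]
      exact Submodule.zero_mem _
    · rw [if_neg hiw, ren_mon]
      refine Submodule.subset_span ⟨w.map (Equiv.swap i k), by simpa using hw, ?_, rfl⟩
      intro a ha
      obtain ⟨b, hb, rfl⟩ := List.mem_map.1 ha
      have hbi : b ≠ i := fun h => hiw (h ▸ hb)
      have hbk := h1 b hb
      by_cases hbk' : b = k
      · rw [hbk', Equiv.swap_apply_right]
        omega
      · rw [Equiv.swap_apply_of_ne_of_ne hbi hbk']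
        omega
  exact h hg

theorem full_le (k m : ℕ) : Full k m ≤ Fge k := by
  refine Submodule.span_le.2 ?_
  rintro f ⟨w, hw, h1, h2, rfl⟩
  refine nilAt_of_le le_rfl w ?_
  have h3 : Finset.range k ⊆ w.toFinset := fun i hi => List.mem_toFinset.2 (h2 i (Finset.mem_range.1 hi))
  have h4 := Finset.card_le_card h3
  rw [Finset.card_range] at h4
  exact h4.trans (List.toFinset_card_le w)

theorem pn_full (m : ℕ) : Pn m ≤ Full 0 m := by
  refine Submodule.span_le.2 ?_
  rintro f ⟨w, hw, h1, rfl⟩
  exact Submodule.subset_span ⟨w, hw, h1, fun i hi => absurd hi (Nat.not_lt_zero i), rfl⟩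

theorem pn_le (n : ℕ) : Pn n ≤ Pnl n n ⊔ Fge n := by
  refine Submodule.span_le.2 ?_
  rintro f ⟨w, hw, h1, rfl⟩
  by_cases h : w.length < n
  · exact Submodule.mem_sup_left (Submodule.subset_span ⟨w, hw, h1, h, rfl⟩)
  · exact Submodule.mem_sup_right (nilAt_of_le le_rfl w (not_lt.1 h))

/-- a T-ideal above `Fge n` is determined by its polynomials of degree `< n` in `n` variables -/
theorem det {n : ℕ} {E E' : Submodule ℤ P} (hE : IsT E) (hE' : IsT E') (hF : Fge n ≤ E)
    (hF' : Fge n ≤ E') (h : ∀ f ∈ Pnl n n, f ∈ E' → f ∈ E) : E' ≤ E := by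
  have key : ∀ k, ∀ f ∈ Pn k, f ∈ E' → f ∈ E := by
    intro k
    induction k with
    | zero =>
      intro f hf hfE
      obtain ⟨v, hv, u, hu, rfl⟩ := Submodule.mem_sup.1 (pn_le n (Pn_mono (Nat.zero_le n) hf))
      refine E.add_mem (h v hv ?_) (hF hu)
      have : v = (v + u) - u := by abel
      rw [this]
      exact E'.sub_mem hfE (hF' hu)
    | succ k ih =>
      intro f hf hfE
      by_cases hkn : k + 1 ≤ n
      · obtain ⟨v, hv, u, hu, rfl⟩ := Submodule.mem_sup.1 (pn_le n (Pn_mono hkn hf))
        refine E.add_mem (h v hv ?_) (hF hu)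
        have : v = (v + u) - u := by abel
        rw [this]
        exact E'.sub_mem hfE (hF' hu)
      · have step : ∀ i, i ≤ k + 1 → ∃ g ∈ Full i (k + 1), g ∈ E' ∧ f - g ∈ E := by
          intro i
          induction i with
          | zero =>
            intro _
            exact ⟨f, pn_full _ hf, hfE, by rw [sub_self]; exact E.zero_mem⟩
          | succ i ihi =>
            intro hi
            obtain ⟨g, hg, hgE, hfg⟩ := ihi (by omega)
            have h1 : kil i g ∈ E' := hE'.subst _ (kil_isSubst i) g hgE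
            have h2 : kil i g ∈ E := by
              have h3 := ih _ (full_ren (by omega) hg) (hE'.subst _ (ren_isSubst i k) _ h1)
              have h4 := hE.subst _ (ren_isSubst i k) _ h3
              rwa [ren_ren] at h4
            refine ⟨g - kil i g, full_sub hg, E'.sub_mem hgE h1, ?_⟩
            have : f - (g - kil i g) = (f - g) + kil i g := by abel
            rw [this]
            exact E.add_mem hfg h2
        obtain ⟨g, hg, -, hfg⟩ := step (k + 1) le_rfl
        have : f = (f - g) + g := by abel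
        rw [this]
        exact E.add_mem hfg (hF ((Fge_anti (by omega : n ≤ k + 1)) (full_le _ _ hg)))
  intro f hf
  obtain ⟨k, hk⟩ := exists_mem_Pn (hE'.le hf)
  exact key k f hk hf

/-- a nilpotent nondistributive T-ideal is below an almost distributive one -/
theorem exists_almDist {D : Submodule ℤ P} (hD : IsT D) {n : ℕ} (hn : NilAt D n)
    (hnd : ¬ DistOn TI D) : ∃ E, D ≤ E ∧ AlmDist E := by
  have hFD : Fge n ≤ D := Fge_le hn
  have : Module.Finite ℤ (Pnl n n) := Module.Finite.iff_fg.2 (finring_Pnl_fg n n)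
  have hN : IsNoetherian ℤ (Pnl n n) := inferInstance
  let S : Set (Submodule ℤ (Pnl n n)) :=
    {M | ∃ E, IsT E ∧ D ≤ E ∧ ¬ DistOn TI E ∧ M = E.comap (Pnl n n).subtype}
  obtain ⟨M, ⟨E, hE, hDE, hE2, rfl⟩, hmax⟩ :=
    WellFounded.has_min (wellFounded_gt (α := Submodule ℤ (Pnl n n))) S ⟨_, D, hD, le_rfl, hnd, rfl⟩
  refine ⟨E, hDE, hE, hE2, fun E2 hE2T hlt => ?_⟩
  by_contra hnd2
  have h1 := hmax _ ⟨E2, hE2T, hDE.trans hlt.le, hnd2, rfl⟩
  have h2 : E.comap (Pnl n n).subtype ≤ E2.comap (Pnl n n).subtype :=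
    Submodule.comap_mono hlt.le
  have h3 : E2.comap (Pnl n n).subtype ≤ E.comap (Pnl n n).subtype := by
    by_contra h4
    exact h1 (lt_of_le_not_ge h2 h4)
  refine hlt.not_ge (det hE hE2T (hFD.trans hDE) (hFD.trans (hDE.trans hlt.le)) ?_)
  intro f hf hfE
  exact h3 (x := ⟨f, hf⟩) hfE

end ADA
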