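import Pool.Agent.ADM.Cub2
import Pool.Agent.ADM.TypesL
import Pool.Agent.ADM.RowN
import Pool.Agent.ADM.OpN
import Pool.Agent.ADM.OpE
import Pool.Agent.ADM.OpER
import Pool.Agent.ADM.TuE
import Pool.Agent.ADM.AllT
import Pool.Agent.AD.NilU2
import Pool.Agent.ADN.CubDst

/-!
# ADA-CubDst (copy of ADM-CubDst2 with weaker hypotheses)
-/

namespace ADA

open AD ADN ADM

private theorem ce_mon {U : Type} [Ring U] (r : ℕ → U) (w : List ℕ) :
    ev r (mon w) = (w.map r).prod := by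
  unfold mon
  rw [map_list_prod, List.map_map]
  congr 1
  refine List.map_congr_left fun i _ => ?_
  show FreeAlgebra.lift ℤ r (X i) = r i
  rw [FreeAlgebra.lift_ι_apply]

private theorem ce_eval {U : Type} [Ring U] (a : Fin 3 → U) (G : List (Fin 3) →₀ ℤ) :
    ev (fun i => if h : i < 3 then a ⟨i, h⟩ else 0) (G.sum fun w c => c • mon (w.map Fin.val)) =
      G.sum fun w c => c • w3 a w := by
  rw [Finsupp.sum, Finsupp.sum, map_sum]
  refine Finset.sum_congr rfl fun w _ => ?_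
  rw [map_smul, ce_mon, List.map_map]
  unfold w3
  congr 2
  refine List.map_congr_left fun i _ => ?_
  show (if h : i.val < 3 then a ⟨i.val, h⟩ else 0) = a i
  rw [dif_pos i.2]

private theorem ce_comp {U : Type} [Ring U] (r : ℕ → U) (φ : P →ₐ[ℤ] P) (f : P) :
    ev r (φ f) = ev (fun i => ev r (φ (X i))) f := by
  have h : (ev r).comp φ = ev (fun i => ev r (φ (X i))) := by
    apply FreeAlgebra.hom_ext
    funext i
    show ev r (φ (X i)) = FreeAlgebra.lift ℤ (fun i => ev r (φ (X i))) (X i)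
    rw [FreeAlgebra.lift_ι_apply]
  exact DFunLike.congr_fun h f

/-- polynomials without constant term map ideals into themselves -/
private theorem ce_ideal {U : Type} [Ring U] {Q : Type} [Fintype Q] (C : Base U Q) (r : ℕ → U) (hr : ∀ i, r i ∈ C.J)
    {h : P} (hh : h ∈ Pp) : ev r h ∈ C.J := by
  obtain ⟨s, -, hs⟩ := eq_sum_cf h
  rw [hs, map_sum]
  refine AddSubgroup.sum_mem _ fun w _ => ?_
  rw [map_smul, ce_mon]
  cases w with
  | nil =>
    have h0 : cf [] h = 0 := by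
      rw [cf_nil]
      exact hh
    rw [h0, zero_smul]
    exact AddSubgroup.zero_mem _
  | cons b w =>
    refine AddSubgroup.zsmul_mem _ ?_ _
    rw [List.map_cons, List.prod_cons]
    exact C.J_right _ _ (hr b)

private theorem ce_hull {U : Type} [Ring U] {Q : Type} [Fintype Q] (C : Base U Q) {I T : Submodule ℤ P} (hI : IsT I)
    (hT : IsNilHull I T)
    (hev : ∀ f ∈ I, ∀ r : ℕ → U, (∀ i, r i ∈ C.A) → ev r f = 0) (g : P) (hg : g ∈ T)
    (r : ℕ → U) (hr : ∀ i, r i ∈ C.J) : ev r g = 0 := by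
  let D : Submodule ℤ P :=
    { carrier := {g | g ∈ Pp ∧ ∀ r : ℕ → U, (∀ i, r i ∈ C.J) → ev r g = 0}
      zero_mem' := ⟨Pp.zero_mem, fun r _ => map_zero _⟩
      add_mem' := by
        rintro f g ⟨hf, hf'⟩ ⟨hg, hg'⟩
        exact ⟨Pp.add_mem hf hg, fun r hr => by rw [map_add, hf' r hr, hg' r hr, add_zero]⟩
      smul_mem' := by
        rintro c f ⟨hf, hf'⟩
        exact ⟨Pp.smul_mem c hf, fun r hr => by rw [map_smul, hf' r hr, smul_zero]⟩ }
  have hD : ∀ g, g ∈ D ↔ g ∈ Pp ∧ ∀ r : ℕ → U, (∀ i, r i ∈ C.J) → ev r g = 0 :=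
    fun g => Iff.rfl
  have hDT : IsT D := by
    refine ⟨fun f hf => ((hD f).1 hf).1, ?_, ?_, ?_⟩
    · intro f hf g
      exact (hD _).2 ⟨isT_Pp.mul_right f ((hD f).1 hf).1 g, fun r hr => by
        rw [map_mul, ((hD f).1 hf).2 r hr, zero_mul]⟩
    · intro f hf g
      exact (hD _).2 ⟨isT_Pp.mul_left f ((hD f).1 hf).1 g, fun r hr => by
        rw [map_mul, ((hD f).1 hf).2 r hr, mul_zero]⟩
    · intro φ hφ f hf
      refine (hD _).2 ⟨isT_Pp.subst φ hφ f ((hD f).1 hf).1, fun r hr => ?_⟩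
      rw [ce_comp]
      exact ((hD f).1 hf).2 _ fun i => ce_ideal C r hr (hφ i)
  have hID : I ≤ D := fun f hf =>
    (hD f).2 ⟨hI.le hf, fun r hr => hev f hf r fun i => C.J_le (hr i)⟩
  have hnil : NilAt D (C.N + 1) := by
    intro w hw
    have hne : w ≠ [] := by
      rintro rfl
      simp at hw
    refine (hD _).2 ⟨mon_mem_Pp hne, fun r hr => ?_⟩
    rw [ce_mon]
    refine C.nil _ (by rw [List.length_map]; omega) fun x hx => ?_
    obtain ⟨i, _, rfl⟩ := List.mem_map.1 hx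
    exact hr i
  exact ((hD g).1 (hT.2.2.1 D hDT hID ⟨_, hnil⟩ hg)).2 r hr

private theorem ce_eval2 {U : Type} [Ring U] (a : Fin 2 → U) (G : List (Fin 2) →₀ ℤ) :
    ev (fun i => if h : i < 2 then a ⟨i, h⟩ else 0) (G.sum fun w c => c • mon (w.map Fin.val)) =
      G.sum fun w c => c • (w.map a).prod := by
  rw [Finsupp.sum, Finsupp.sum, map_sum]
  refine Finset.sum_congr rfl fun w _ => ?_
  rw [map_smul, ce_mon, List.map_map]
  congr 2
  refine List.map_congr_left fun i _ => ?_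
  show (if h : i.val < 2 then a ⟨i.val, h⟩ else 0) = a i
  rw [dif_pos i.2]

private theorem ce_eval1 {U : Type} [Ring U] (a : U) (c : ℕ →₀ ℤ) :
    ev (fun _ => a) (c.sum fun k z => z • mon (List.replicate k 0)) = c.sum fun k z => z • a ^ k := by
  rw [Finsupp.sum, Finsupp.sum, map_sum]
  refine Finset.sum_congr rfl fun w _ => ?_
  rw [map_smul, ce_mon, List.map_replicate, List.prod_replicate]

private theorem ce_pow {A : Type} [CommRing A] (I : Ideal A) : ∀ l : List A, (∀ x ∈ l, x ∈ I) →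
    l.prod ∈ I ^ l.length := by
  intro l
  induction l with
  | nil =>
    intro _
    simp
  | cons x l ih =>
    intro h
    rw [List.prod_cons, List.length_cons, pow_succ']
    exact Ideal.mul_mem_mul (h x (by simp)) (ih fun y hy => h y (by simp [hy]))

private theorem ce_TU : NilAt TU 3 := by
  intro w hw
  have hne : w ≠ [] := by
    rintro rfl
    simp at hw
  rw [nilU_mem_TU]
  refine ⟨mon_mem_Pp hne, ?_⟩
  have h1 : com (mon w) = (w.map (MvPolynomial.X : ℕ → MvPolynomial ℕ ℤ)).prod := by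
    unfold mon
    rw [map_list_prod, List.map_map]
    congr 1
    refine List.map_congr_left fun i _ => ?_
    show com (X i) = MvPolynomial.X i
    unfold com
    rw [FreeAlgebra.lift_ι_apply]
  have h2 : com (mon w) ∈ (mm ℤ) ^ w.length := by
    rw [h1]
    have h3 := ce_pow (mm ℤ) (w.map (MvPolynomial.X : ℕ → MvPolynomial ℕ ℤ)) (by
      intro x hx
      obtain ⟨i, _, rfl⟩ := List.mem_map.1 hx
      exact Ideal.subset_span ⟨i, rfl⟩)
    rwa [List.length_map] at h3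
  have h4 : com (mon w) ∈ (mm ℤ) ^ 3 := Ideal.pow_le_pow_right hw h2
  unfold KU
  exact Ideal.mem_sup_right h4

private theorem ce_add {U : Type} [Ring U] {Q : Type} [Fintype Q] (C : Base U Q)
    (G G' : List (Fin 3) →₀ ℤ) (h : C.Rl G) (h' : C.Rl G') : C.Rl (G + G') := by
  classical
  refine ⟨fun w hw => ?_, fun a ha => ?_⟩
  · rcases Finset.mem_union.1 (Finsupp.support_add hw) with h1 | h1
    · exact h.1 w h1
    · exact h'.1 w h1
  · rw [Finsupp.sum_add_index' (h := fun w c => c • w3 a w) (fun w => zero_smul ℤ (w3 a w))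
      (fun w n m => add_smul n m (w3 a w)), h.2 a ha, h'.2 a ha, add_zero]

private theorem ce_smul {U : Type} [Ring U] {Q : Type} [Fintype Q] (C : Base U Q) (z : ℤ)
    (G : List (Fin 3) →₀ ℤ) (h : C.Rl G) : C.Rl (z • G) := by
  classical
  refine ⟨fun w hw => h.1 w (Finsupp.support_smul hw), fun a ha => ?_⟩
  rw [Finsupp.sum_smul_index' (h := fun w c => c • w3 a w) (fun w => zero_smul ℤ (w3 a w))]
  have h1 : (G.sum fun w c => (z • c) • w3 a w) = z • G.sum fun w c => c • w3 a w := by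
    rw [Finsupp.sum, Finsupp.sum, Finset.smul_sum]
    exact Finset.sum_congr rfl fun w _ => by rw [smul_assoc]
  rw [h1, h.2 a ha, smul_zero]

private theorem ce_perm {U : Type} [Ring U] {Q : Type} [Fintype Q] (C : Base U Q)
    (ρ : Equiv.Perm (Fin 3)) (G : List (Fin 3) →₀ ℤ) (h : C.Rl G) :
    C.Rl (G.mapDomain (List.map ρ)) := by
  classical
  refine ⟨fun w hw i => ?_, fun a ha => ?_⟩
  · obtain ⟨v, hv, rfl⟩ := Finset.mem_image.1 (Finsupp.mapDomain_support hw)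
    exact List.mem_map.2 ⟨ρ.symm i, h.1 v hv _, ρ.apply_symm_apply i⟩
  · rw [Finsupp.sum_mapDomain_index (h := fun w c => c • w3 a w) (fun w => zero_smul ℤ (w3 a w))
      (fun w n m => add_smul n m (w3 a w))]
    have h1 := h.2 (a ∘ ρ) fun i => ha (ρ i)
    rw [← h1]
    refine Finsupp.sum_congr fun w _ => ?_
    unfold w3
    rw [List.map_map]

private theorem ce_one {U : Type} [Ring U] {Q : Type} [Fintype Q] (C : Base U Q)
    {I : Submodule ℤ P} (hev : ∀ f ∈ I, ∀ r : ℕ → U, (∀ i, r i ∈ C.A) → ev r f = 0) (c : ℕ →₀ ℤ)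
    (hc : (c.sum fun k z => z • mon (List.replicate k 0)) ∈ I) :
    ∀ a ∈ C.A, (c.sum fun k z => z • a ^ k) = 0 := by
  intro a ha
  rw [← ce_eval1]
  exact hev _ hc _ fun _ => ha

theorem cubDst {I T : Submodule ℤ P} (hI : IsT I) (hT : IsNilHull I T) (hDist : DistOn TI T)
    (R : Type) [NonUnitalRing R] (hR : ∀ f ∈ I, Sat R f) {Q : Type} [Fintype Q]
    (C : Base (Unitization ℤ R) Q) (hA : ∀ x, x ∈ C.A ↔ ∃ y : R, x = (y : Unitization ℤ R)) :
    C.Cub ∧ C.Dst T ∧ Types C.Rl C.p ∧ C.OpL ∧ C.OpR ∧ (C.p = 2 → C.TuP) := by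
  have hev : ∀ f ∈ I, ∀ r : ℕ → Unitization ℤ R, (∀ i, r i ∈ C.A) → ev r f = 0 := by
    intro f hf r hr
    choose a ha using fun i => (hA (r i)).1 (hr i)
    have h1 : r = fun i => ((a i : R) : Unitization ℤ R) := funext ha
    rw [h1]
    exact (ev_eq_lift _ f).trans (hR f hf a)
  have key : ∀ (D : Submodule ℤ P) (n : ℕ), IsT D → NilAt D n → ¬ DistOn TI D →
      ∃ f ∈ I, f ∉ D := by
    intro D n hD hn hnd
    by_contra hc
    push Not at hc
    have h3 : T ≤ D := hT.2.2.1 D hD hc ⟨n, hn⟩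
    exact hnd fun x hx y hy z hz hdx hdy hdz =>
      hDist x hx y hy z hz (h3.trans hdx) (h3.trans hdy) (h3.trans hdz)
  have hrel3 : ∀ G : List (Fin 3) →₀ ℤ, (∀ w ∈ G.support, ∀ i, i ∈ w) →
      (G.sum fun w c => c • mon (w.map Fin.val)) ∈ I → C.Rl G := by
    intro G h1 h2
    refine ⟨h1, fun a ha => ?_⟩
    rw [← ce_eval]
    refine hev _ h2 _ fun i => ?_
    by_cases h : i < 3
    · rw [dif_pos h]
      exact ha _
    · rw [dif_neg h]
      exact AddSubgroup.zero_mem _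
  have hrel2 : ∀ G : List (Fin 2) →₀ ℤ, (∀ w ∈ G.support, ∀ i, i ∈ w) →
      (G.sum fun w c => c • mon (w.map Fin.val)) ∈ I → C.Rl2 G := by
    intro G h1 h2
    refine ⟨h1, fun a ha => ?_⟩
    rw [← ce_eval2]
    refine hev _ h2 _ fun i => ?_
    by_cases h : i < 2
    · rw [dif_pos h]
      exact ha _
    · rw [dif_neg h]
      exact AddSubgroup.zero_mem _
  have hp0 : C.p ≠ 0 := C.hp.ne_zero
  refine ⟨?_, ⟨hT.1, hDist, fun g hg r hr => ce_hull C hI hT hev g hg r hr⟩, ?_, ?_, ?_, ?_⟩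
  · obtain ⟨T3, hT3, hn3⟩ := exists_T3 C.p
    obtain ⟨F, hF, hFn⟩ := key T3 4 hT3.1 hn3 (not_dist_T3 C.p C.hp T3 hT3)
    have hFn' : F ∉ T3set C.p := by
      intro h
      apply hFn
      have h2 : F ∈ (T3 : Set P) := by
        rw [hT3.2]
        exact h
      exact h2
    obtain ⟨G, hG1, hG2, hG3⟩ := cubic hI C.hp hF hFn'
    exact ⟨G, hG1, hG2, (hrel3 G hG1 hG3).2⟩
  · obtain ⟨f, hf, hfn⟩ := key (RowT C.p) 4 (rowT_isT C.p) (rowT_nil C.p) (rowT_not_dist C.p C.hp)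
    obtain ⟨t₁, t₂, t₃, G, hG1, hG2, h1, h2, h3, h4, h5, h6, h7⟩ := cub2 hI hf hfn
    exact typesL C.hp (ce_add C) (ce_smul C) (ce_perm C) t₁ t₂ t₃ G (hrel3 G hG1 hG2) h1 h2 h3 h4 h5
      h6 h7
  · obtain ⟨f, hf, hfn⟩ := key (OT C.p) _ (oT_isT C.p) (oT_nil C.hp) (oT_not_dist C.hp)
    obtain ⟨g, hg, hgn⟩ := opE hI C.hp hf hfn
    obtain ⟨G, hG1, hG2, hG3⟩ := allT hI hg
    refine ⟨G, hrel2 G hG1 hG2, ?_⟩
    rw [hG3]
    · simpa using hgn
    · intro i
      fin_cases i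
      · simp [hp0]
      · simp
  · obtain ⟨f, hf, hfn⟩ := key (OT C.p) _ (oT_isT C.p) (oT_nil C.hp) (oT_not_dist C.hp)
    obtain ⟨g, hg, hgn⟩ := opER hI C.hp hf hfn
    obtain ⟨G, hG1, hG2, hG3⟩ := allT hI hg
    refine ⟨G, hrel2 G hG1 hG2, ?_⟩
    rw [hG3]
    · simpa using hgn
    · intro i
      fin_cases i
      · simp [hp0]
      · simp
  · intro _
    obtain ⟨f, hf, hfn⟩ := key TU 3 isT_TU ce_TU not_dist_TU
    rcases tuE hI hf hfn with ⟨g, hg, h⟩ | ⟨g, hg, h⟩ | ⟨g, hg, h⟩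
    · obtain ⟨c, hc0, hcI, hc⟩ := allO hI hg
      refine Or.inl ⟨c, hc0, Or.inl ?_, ce_one C hev c hcI⟩
      rw [hc 1 le_rfl]
      exact h
    · obtain ⟨c, hc0, hcI, hc⟩ := allO hI hg
      refine Or.inl ⟨c, hc0, Or.inr ?_, ce_one C hev c hcI⟩
      rw [hc 2 (by norm_num)]
      exact h
    · obtain ⟨G, hG1, hG2, hG3⟩ := allT hI hg
      refine Or.inr ⟨G, hrel2 G hG1 hG2, ?_⟩
      rw [hG3 [0, 1] (by decide), hG3 [1, 0] (by decide)]
      exact h

end ADA
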