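import Pool.Agent.ADA.Fg
import Pool.Agent.ADN.Model2
import Pool.Agent.ADN.FgeT
import Pool.Agent.AD.FinRing

/-!
# ADA-Hull

The nilpotent hull of `I` is distributive.
-/

namespace ADA

open AD ADN

theorem stab {I T : Submodule ℤ P} (hI : IsT I) (hT : IsNilHull I T) {p K n N : ℕ} (hp : p.Prime)
    (hpa : mulI ((p ^ K : ℕ) : ℤ) Pp ≤ I) (hN : Pn n ≤ I ⊔ Pnl n N) :
    ∃ M, ∀ g ∈ Pn n, g ∈ I ⊔ Fge (M + 1) → g ∈ T := by
  obtain ⟨R, inst, π, hπ, hker, hsat, hmul, hev⟩ := model2 hI (Pn n) (Pn_le_Pp n)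
    (fun a ha b hb => Pn_mul ha hb)
  have hexp : ∀ x : R, (p ^ K) • x = 0 := by
    intro x
    obtain ⟨w, rfl⟩ := hπ x
    rw [← map_nsmul, hker]
    apply hpa
    refine ⟨(w : P), Pn_le_Pp n w.2, ?_⟩
    simp [LinearMap.lsmul_apply]
  have hmodfin : Module.Finite ℤ R := by
    have : Module.Finite ℤ (Pnl n N) := Module.Finite.iff_fg.2 (finring_Pnl_fg n N)
    apply Module.Finite.of_surjective
      (π.toIntLinearMap ∘ₗ Submodule.inclusion (finring_Pnl_le n N))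
    intro x
    obtain ⟨w, rfl⟩ := hπ x
    obtain ⟨i, hi, v, hv, hiv⟩ := Submodule.mem_sup.1 (hN w.2)
    refine ⟨⟨v, hv⟩, ?_⟩
    simp only [LinearMap.comp_apply, AddMonoidHom.coe_toIntLinearMap]
    have h0 : π (w - Submodule.inclusion (finring_Pnl_le n N) ⟨v, hv⟩) = 0 := by
      rw [hker]
      have : ((w - Submodule.inclusion (finring_Pnl_le n N) ⟨v, hv⟩ : Pn n) : P) = i := by
        simp only [Submodule.coe_sub, Submodule.coe_inclusion]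
        rw [← hiv]
        simp
      rw [this]
      exact hi
    rw [map_sub, sub_eq_zero] at h0
    exact h0.symm
  have hfin : Finite R := by
    apply Module.finite_of_fg_torsion
    intro x
    refine ⟨⟨((p ^ K : ℕ) : ℤ), ?_⟩, ?_⟩
    · rw [mem_nonZeroDivisors_iff_ne_zero]
      exact_mod_cast pow_ne_zero K hp.ne_zero
    · show ((p ^ K : ℕ) : ℤ) • x = 0
      rw [natCast_zsmul]
      exact hexp x
  -- the images of the members of the descending chain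
  let E : ℕ → Set R := fun m => {x | ∃ w : Pn n, (w : P) ∈ I ⊔ Fge (m + 1) ∧ π w = x}
  have hanti : Antitone E := by
    rintro m m' hm x ⟨w, hw, rfl⟩
    exact ⟨w, (sup_le_sup_left (Fge_anti (Nat.add_le_add_right hm 1)) I) hw, rfl⟩
  obtain ⟨M, hM⟩ : ∃ M, ∀ m, M ≤ m → E M = E m := by
    let F : ℕ →o (Set R)ᵒᵈ := ⟨fun m => OrderDual.toDual (E m), fun m m' h => hanti h⟩
    obtain ⟨M, hM⟩ := WellFoundedGT.monotone_chain_condition F
    exact ⟨M, fun m hm => congrArg OrderDual.ofDual (hM m hm)⟩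
  refine ⟨M, fun g hg hgM => hT.2.2.2 g (Pn_le_Pp n hg) fun D hD hID hn => ?_⟩
  obtain ⟨m, hm⟩ := hn
  have h1 : π ⟨g, hg⟩ ∈ E (max M m) := by
    rw [← hM _ (le_max_left M m)]
    exact ⟨⟨g, hg⟩, hgM, rfl⟩
  obtain ⟨w, hw, hwg⟩ := h1
  have h2 : π (⟨g, hg⟩ - w) = 0 := by rw [map_sub, hwg, sub_self]
  have h3 : g - (w : P) ∈ I := (hker _).1 h2
  have h4 : I ⊔ Fge (max M m + 1) ≤ D :=
    sup_le hID ((Fge_anti (by omega)).trans (Fge_le hm))
  have h5 : g = (g - (w : P)) + (w : P) := by abel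
  rw [h5]
  exact D.add_mem (hID h3) (h4 hw)

/-- the nilpotent hull is distributive -/
theorem dist_hull {I a b c j T : Submodule ℤ P} (hI : Pre I a b c j) (hT : IsNilHull I T) :
    DistOn TI T := by
  obtain ⟨p, K, hp, hpa, hN⟩ := fg hI
  intro x hx y hy z hz hTx hTy hTz
  refine le_antisymm ?_ (sup_le (inf_le_inf_left _ le_sup_left) (inf_le_inf_left _ le_sup_right))
  intro f hf
  have hfP : f ∈ Pp := IsT.le hx (Submodule.mem_inf.1 hf).1
  obtain ⟨n, hn⟩ := exists_mem_Pn hfP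
  obtain ⟨N, hN⟩ := hN n
  obtain ⟨M, hM⟩ := stab hI.isT hT hp hpa hN
  obtain ⟨ψ, hψ, -, -, hψ1, hψ2⟩ := exists_retract n
  have hD : IsT (I ⊔ Fge (M + 1)) := isT_sup hI.isT (isT_Fge (M + 1) (Nat.le_add_left 1 M))
  have hF : IsT (Fge (M + 1)) := isT_Fge (M + 1) (Nat.le_add_left 1 M)
  have hDd : DistOn TI (I ⊔ Fge (M + 1)) :=
    hI.nd _ hD le_sup_left ⟨M + 1, nilAt_of_le le_sup_right⟩
  have hup : ∀ u ∈ TI, T ≤ u → I ⊔ Fge (M + 1) ≤ u ⊔ Fge (M + 1) := fun u _ hTu =>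
    sup_le_sup_right (hT.2.1.trans hTu) _
  have hdist := hDd _ (isT_sup hx hF) _ (isT_sup hy hF) _ (isT_sup hz hF) (hup x hx hTx)
    (hup y hy hTy) (hup z hz hTz)
  have hf1 : f ∈ (x ⊔ Fge (M + 1)) ⊓ ((y ⊔ Fge (M + 1)) ⊔ (z ⊔ Fge (M + 1))) :=
    (inf_le_inf le_sup_left (sup_le_sup le_sup_left le_sup_left) :
      x ⊓ (y ⊔ z) ≤ (x ⊔ Fge (M + 1)) ⊓ ((y ⊔ Fge (M + 1)) ⊔ (z ⊔ Fge (M + 1)))) hf
  rw [hdist] at hf1
  obtain ⟨g, hg, h, hh, hgh⟩ := Submodule.mem_sup.1 hf1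
  have down : ∀ u ∈ TI, T ≤ u → ∀ v ∈ u ⊔ Fge (M + 1), ψ v ∈ u := by
    intro u hu hTu v hv
    obtain ⟨s, hs, t, ht, rfl⟩ := Submodule.mem_sup.1 hv
    rw [map_add]
    refine u.add_mem (IsT.subst hu ψ hψ s hs) (hTu (hM _ (hψ2 t (hF.le ht)) ?_))
    exact Submodule.mem_sup_right (hF.subst ψ hψ t ht)
  have h1 : f = ψ g + ψ h := by rw [← map_add, hgh, hψ1 f hn]
  rw [h1]
  refine Submodule.add_mem_sup (Submodule.mem_inf.2 ⟨?_, ?_⟩) (Submodule.mem_inf.2 ⟨?_, ?_⟩)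
  · exact down x hx hTx g (Submodule.mem_inf.1 hg).1
  · exact down y hy hTy g (Submodule.mem_inf.1 hg).2
  · exact down x hx hTx h (Submodule.mem_inf.1 hh).1
  · exact down z hz hTz h (Submodule.mem_inf.1 hh).2

end ADA
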