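import Pool.Agent.ADA.Tors
import Pool.Agent.AD.Div
import Pool.Agent.AD.Expo

/-!
# ADA-Expo
-/

namespace ADA

open AD ADN

/-- AD-9 (a): bounded exponent. -/
theorem exists_exponent {I a b c j : Submodule ℤ P} (hI : Pre I a b c j) :
    ∃ N : ℕ, 1 ≤ N ∧ mulI N Pp ≤ I := by
  have hD := hI.dia
  let D : ℕ → Submodule ℤ P := fun k => I ⊔ mulI ((k.factorial : ℕ) : ℤ) Pp
  have hDT : ∀ k, D k ∈ TI := fun k => isT_sup hI.isT (isT_mulI isT_Pp _)
  have hanti : Antitone D := by
    intro k l hkl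
    apply sup_le_sup_left
    apply expo_mulI_dvd
    exact_mod_cast Nat.factorial_dvd_factorial hkl
  have hoD : ∀ k, I ≤ D k := fun k => le_sup_left
  by_cases hne : ∀ k, D k ⊓ j ≠ I
  · exfalso
    obtain ⟨e, he, hlt, hle⟩ := chain expo_TI_inf expo_TI_sup hI.atmA hI.atmB hD D hDT hanti hoD hne
    obtain ⟨f, hfe, hfI⟩ := Set.exists_of_ssubset hlt
    obtain ⟨m, hm, hmx⟩ := exists_mul_xyz hI
    apply hfI
    refine div_free hI.isT m hm hmx f (IsT.le he hfe) ?_
    intro k hk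
    have h1 : f ∈ D k := hle k hfe
    have h2 : D k ≤ I ⊔ mulI k Pp := by
      apply sup_le_sup_left
      apply expo_mulI_dvd
      exact_mod_cast Nat.dvd_factorial hk le_rfl
    exact h2 h1
  · push Not at hne
    obtain ⟨k, hk⟩ := hne
    have h := hI.ess (D k) (hDT k) (hoD k) hk
    refine ⟨k.factorial, Nat.factorial_pos k, ?_⟩
    calc mulI ((k.factorial : ℕ) : ℤ) Pp ≤ D k := le_sup_right
      _ = I := h

/-- AD-9 (b): prime power exponent. -/
theorem exists_prime_power {I a b c j : Submodule ℤ P} (hI : Pre I a b c j) :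
    ∃ p a : ℕ, p.Prime ∧ mulI ((p ^ a : ℕ) : ℤ) Pp ≤ I := by
  obtain ⟨N, hN, hNI⟩ := exists_exponent hI
  have hD := hI.dia
  have hatA := hI.atmA
  have hatB := hI.atmB
  -- a prime killing `a`
  have key : ∃ p : ℕ, p.Prime ∧ p ∣ N ∧ mulI (p : ℤ) a ≤ I := by
    by_contra hcon
    push Not at hcon
    have h1 : ∀ q : ℕ, q.Prime → q ∣ N → a ≤ I ⊔ mulI (q : ℤ) a := by
      intro q hq hqN
      have hlt : I < I ⊔ mulI (q : ℤ) a := by
        apply lt_of_le_of_ne le_sup_left
        intro heq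
        apply hcon q hq hqN
        calc mulI (q : ℤ) a ≤ I ⊔ mulI (q : ℤ) a := le_sup_right
          _ = I := heq.symm
      have := hatA (I ⊔ mulI (q : ℤ) a) (isT_sup hI.isT (isT_mulI hD.ha _)) hlt
        (sup_le hD.oa.le (expo_mulI_self_le _ _))
      exact this.symm.le
    have h2 : ∀ n : ℕ, n ∣ N → a ≤ I ⊔ mulI (n : ℤ) a := by
      intro n
      induction n using Nat.recOnMul with
      | zero =>
        intro h0
        have : N = 0 := by simpa using h0
        omega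
      | one =>
        intro _
        refine le_trans ?_ le_sup_right
        intro f hf
        exact expo_mem_mulI.mpr ⟨f, hf, by simp⟩
      | prime q hq =>
        intro hqN
        exact h1 q hq hqN
      | mul m n ihm ihn =>
        intro hmn
        have hm := ihm (dvd_trans (dvd_mul_right m n) hmn)
        have hn := ihn (dvd_trans (dvd_mul_left n m) hmn)
        calc a ≤ I ⊔ mulI (m : ℤ) a := hm
          _ ≤ I ⊔ mulI (m : ℤ) (I ⊔ mulI (n : ℤ) a) := sup_le_sup_left (expo_mulI_mono _ hn) _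
          _ = I ⊔ (mulI (m : ℤ) I ⊔ mulI ((m : ℤ) * (n : ℤ)) a) := by
              rw [expo_mulI_sup, expo_mulI_mulI]
          _ ≤ I ⊔ mulI ((m * n : ℕ) : ℤ) a := by
              refine sup_le le_sup_left (sup_le (le_trans (expo_mulI_self_le _ _) le_sup_left) ?_)
              rw [Nat.cast_mul]
              exact le_sup_right
    have h3 := h2 N dvd_rfl
    have h4 : a ≤ I := le_trans h3 (sup_le le_rfl (le_trans (expo_mulI_mono _ hD.ha.le) hNI))
    exact absurd hD.oa (not_lt_of_ge h4)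
  obtain ⟨p, hp, hpN, hpa⟩ := key
  have hpb : mulI (p : ℤ) b ≤ I := by
    by_contra hcon
    have hlt : I < I ⊔ mulI (p : ℤ) b := by
      apply lt_of_le_of_ne le_sup_left
      intro heq
      apply hcon
      calc mulI (p : ℤ) b ≤ I ⊔ mulI (p : ℤ) b := le_sup_right
        _ = I := heq.symm
    have hb := hatB (I ⊔ mulI (p : ℤ) b) (isT_sup hI.isT (isT_mulI hD.hb _)) hlt
      (sup_le hD.ob.le (expo_mulI_self_le _ _))
    have hbj : b ≤ j := by rw [← hD.jab]; exact le_sup_right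
    have hpj : mulI (p : ℤ) j ≤ c := by
      rw [← hD.jac, expo_mulI_sup]
      exact sup_le (le_trans hpa hD.oc.le) (expo_mulI_self_le _ _)
    have hbc : b ≤ c := by
      rw [← hb]
      exact sup_le hD.oc.le (le_trans (expo_mulI_mono _ hbj) hpj)
    have : b ⊓ c = b := inf_eq_left.mpr hbc
    rw [hD.bc] at this
    exact absurd this hD.ob.ne
  have hpj : mulI (p : ℤ) j ≤ I := by
    rw [← hD.jab, expo_mulI_sup]
    exact sup_le hpa hpb
  obtain ⟨s, n', hn', hNs⟩ := Nat.exists_eq_pow_mul_and_not_dvd (Nat.one_le_iff_ne_zero.mp hN) p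
    hp.ne_one
  have hcop : Nat.Coprime p n' := (Nat.Prime.coprime_iff_not_dvd hp).mpr hn'
  refine ⟨p, s, hp, ?_⟩
  have hDI : (I ⊔ mulI ((p ^ s : ℕ) : ℤ) Pp) ⊓ j = I := by
    apply le_antisymm
    · rintro z ⟨hz1, hz2⟩
      obtain ⟨i, hi, y, hy, rfl⟩ := Submodule.mem_sup.mp hz1
      obtain ⟨r, hr, rfl⟩ := expo_mem_mulI.mp hy
      have e1 : (n' : ℤ) • (i + ((p ^ s : ℕ) : ℤ) • r) ∈ I := by
        rw [smul_add, ← mul_smul]
        apply I.add_mem (I.smul_mem _ hi)
        apply hNI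
        refine expo_mem_mulI.mpr ⟨r, hr, ?_⟩
        congr 1
        rw [hNs]
        push_cast
        ring
      have e2 : (p : ℤ) • (i + ((p ^ s : ℕ) : ℤ) • r) ∈ I :=
        hpj (expo_mem_mulI.mpr ⟨_, hz2, rfl⟩)
      have hbez : IsCoprime (p : ℤ) (n' : ℤ) := Nat.isCoprime_iff_coprime.mpr hcop
      obtain ⟨u, v, huv⟩ := hbez
      have : (i + ((p ^ s : ℕ) : ℤ) • r) = u • ((p : ℤ) • (i + ((p ^ s : ℕ) : ℤ) • r))
          + v • ((n' : ℤ) • (i + ((p ^ s : ℕ) : ℤ) • r)) := by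
        rw [← mul_smul, ← mul_smul, ← add_smul, huv, one_smul]
      rw [this]
      exact I.add_mem (I.smul_mem _ e2) (I.smul_mem _ e1)
    · refine le_inf le_sup_left ?_
      rw [← hD.jab]
      exact le_trans hD.oa.le le_sup_left
  have h := hI.ess _ (isT_sup hI.isT (isT_mulI isT_Pp _)) le_sup_left hDI
  calc mulI ((p ^ s : ℕ) : ℤ) Pp ≤ I ⊔ mulI ((p ^ s : ℕ) : ℤ) Pp := le_sup_right
    _ = I := h

end ADA
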