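import Pool.Agent.AD.Red
import Pool.Agent.ADA.OneVar
import Pool.Agent.ADA.Expo

namespace ADA

open AD ADN

/-- AD-18: the relatively free rings of finite rank are finitely generated as groups. -/
theorem fg {I a b c j : Submodule ℤ P} (hI : Pre I a b c j) : ∃ p a : ℕ, p.Prime ∧
    mulI ((p ^ a : ℕ) : ℤ) Pp ≤ I ∧ ∀ n, ∃ N : ℕ, Pn n ≤ I ⊔ Pnl n N := by
  obtain ⟨p, a, hp, hpa⟩ := exists_prime_power hI
  refine ⟨p, a, hp, hpa, fun n => ?_⟩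
  have : Fact p.Prime := ⟨hp⟩
  obtain ⟨g, hg0, hgp, hg⟩ := one_var hI p
  obtain ⟨D, b, hD, h1, h2⟩ := lin hI.isT p g hg0 hgp hg
  obtain ⟨N, hN⟩ := reduce hI.isT p D b hD h1 h2 n
  refine ⟨N, ?_⟩
  obtain ⟨ψ, hψ, -, -, hψ1, hψ2⟩ := exists_retract n
  have hPnl : Pnl n N ≤ Pn n := by
    refine Submodule.span_mono ?_
    rintro f ⟨w, hw, hwn, -, rfl⟩
    exact ⟨w, hw, hwn, rfl⟩
  have step : ∀ f ∈ Pn n, ∃ i ∈ I, ∃ s ∈ Pnl n N, ∃ r ∈ Pn n, f = i + s + (p : ℤ) • r := by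
    intro f hf
    obtain ⟨x, hx, s, hs, hxs⟩ := Submodule.mem_sup.1 (hN hf)
    obtain ⟨i, hi, y, hy, hiy⟩ := Submodule.mem_sup.1 hx
    obtain ⟨r, hr, hry⟩ := hy
    refine ⟨ψ i, hI.isT.subst ψ hψ i hi, s, hs, ψ r, hψ2 r hr, ?_⟩
    have h3 : y = (p : ℤ) • r := hry.symm
    have h4 : f = i + (p : ℤ) • r + s := by rw [← hxs, ← hiy, h3]
    have h5 : ψ f = ψ i + (p : ℤ) • ψ r + s := by
      rw [h4, map_add, map_add, map_zsmul, hψ1 s (hPnl hs)]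
    rw [hψ1 f hf] at h5
    rw [h5]
    abel
  have iter : ∀ k : ℕ, ∀ f ∈ Pn n, ∃ i ∈ I, ∃ s ∈ Pnl n N, ∃ r ∈ Pn n,
      f = i + s + ((p ^ k : ℕ) : ℤ) • r := by
    intro k
    induction k with
    | zero =>
      intro f hf
      exact ⟨0, I.zero_mem, 0, (Pnl n N).zero_mem, f, hf, by simp⟩
    | succ k ih =>
      intro f hf
      obtain ⟨i, hi, s, hs, r, hr, hf1⟩ := ih f hf
      obtain ⟨i', hi', s', hs', r', hr', hf2⟩ := step r hr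
      refine ⟨i + ((p ^ k : ℕ) : ℤ) • i', I.add_mem hi (I.smul_mem _ hi'),
        s + ((p ^ k : ℕ) : ℤ) • s', (Pnl n N).add_mem hs ((Pnl n N).smul_mem _ hs'), r', hr', ?_⟩
      rw [hf1, hf2, smul_add, smul_add, smul_smul]
      have h6 : ((p ^ k : ℕ) : ℤ) * (p : ℤ) = ((p ^ (k + 1) : ℕ) : ℤ) := by
        push_cast
        ring
      rw [h6]
      abel
  intro f hf
  obtain ⟨i, hi, s, hs, r, hr, hf1⟩ := iter a f hf
  rw [hf1]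
  have h7 : ((p ^ a : ℕ) : ℤ) • r ∈ I := hpa ⟨r, Pn_le_Pp n hr, rfl⟩
  have h8 : i + s + ((p ^ a : ℕ) : ℤ) • r = (i + ((p ^ a : ℕ) : ℤ) • r) + s := by abel
  rw [h8]
  exact Submodule.add_mem_sup (I.add_mem hi h7) hs

end ADA
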