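import Pool.Agent.ADN.Defs
import Pool.Agent.ADN.Model2
import Pool.Agent.ADA.Fg
import Pool.Agent.AD.FinRing

/-!
# ADA-Rel (copy of ADN-Rel with the weaker hypothesis `Pre`)

The finite relatively free ring of rank `n` and the three ideals of values.

`R = Pn n / I` (`model2`); it is finite as in `AD.exists_finite`; `V i` is the image of `S i ⊓ Pn n`, where
`S 0 = a`, `S 1 = b`, `S 2 = c`.  The values are computed by the evaluation property of `model2`.
-/

namespace ADA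

open AD ADN

private theorem rel_fin {I : Submodule ℤ P} {p K : ℕ} (hp : p.Prime)
    (hpa : mulI ((p ^ K : ℕ) : ℤ) Pp ≤ I) {n N : ℕ} (hN : Pn n ≤ I ⊔ Pnl n N) {R : Type}
    [NonUnitalRing R] (π : Pn n →+ R) (hπ : Function.Surjective π)
    (hker : ∀ w : Pn n, π w = 0 ↔ (w : P) ∈ I) : Finite R ∧ ∀ x : R, (p ^ K) • x = 0 := by
  have hexp : ∀ x : R, (p ^ K) • x = 0 := by
    intro x
    obtain ⟨w, rfl⟩ := hπ x
    rw [← map_nsmul, hker]
    apply hpa
    refine ⟨(w : P), Pn_le_Pp n w.2, ?_⟩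
    simp [LinearMap.lsmul_apply]
  have hmodfin : Module.Finite ℤ R := by
    have : Module.Finite ℤ (Pnl n N) := Module.Finite.iff_fg.2 (finring_Pnl_fg n N)
    apply Module.Finite.of_surjective
      (π.toIntLinearMap ∘ₗ Submodule.inclusion (finring_Pnl_le n N))
    intro x
    obtain ⟨w, rfl⟩ := hπ x
    obtain ⟨i, hi, v, hv, hiv⟩ := Submodule.mem_sup.1 (hN w.2)
    refine ⟨⟨v, hv⟩, ?_⟩
    simp only [LinearMap.comp_apply, AddMonoidHom.coe_toIntLinearMap]
    have h0 : π (w - Submodule.inclusion (finring_Pnl_le n N) ⟨v, hv⟩) = 0 := by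
      rw [hker]
      have : ((w - Submodule.inclusion (finring_Pnl_le n N) ⟨v, hv⟩ : Pn n) : P) = i := by
        simp only [Submodule.coe_sub, Submodule.coe_inclusion]
        rw [← hiv]
        simp
      rw [this]
      exact hi
    rw [map_sub, sub_eq_zero] at h0
    exact h0.symm
  refine ⟨?_, hexp⟩
  apply Module.finite_of_fg_torsion
  intro x
  refine ⟨⟨((p ^ K : ℕ) : ℤ), ?_⟩, ?_⟩
  · rw [mem_nonZeroDivisors_iff_ne_zero]
    exact_mod_cast pow_ne_zero K hp.ne_zero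
  · show ((p ^ K : ℕ) : ℤ) • x = 0
    rw [natCast_zsmul]
    exact hexp x

private def relV {n : ℕ} {R : Type} [NonUnitalRing R] (π : Pn n →+ R) (S : Submodule ℤ P) :
    AddSubgroup (Unitization ℤ R) where
  carrier := {x | ∃ w : Pn n, (w : P) ∈ S ∧ x = ((π w : R) : Unitization ℤ R)}
  zero_mem' := ⟨0, S.zero_mem, by rw [map_zero, Unitization.inr_zero]⟩
  add_mem' := by
    rintro x y ⟨w, hw, rfl⟩ ⟨w', hw', rfl⟩
    exact ⟨w + w', S.add_mem hw hw', by rw [map_add, Unitization.inr_add]⟩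
  neg_mem' := by
    rintro x ⟨w, hw, rfl⟩
    exact ⟨-w, S.neg_mem hw, by rw [map_neg, Unitization.inr_neg]⟩

private theorem mem_relV {n : ℕ} {R : Type} [NonUnitalRing R] (π : Pn n →+ R)
    (S : Submodule ℤ P) (x : Unitization ℤ R) : x ∈ relV π S ↔
      ∃ w : Pn n, (w : P) ∈ S ∧ x = ((π w : R) : Unitization ℤ R) := Iff.rfl

private theorem relV_left {n : ℕ} {R : Type} [NonUnitalRing R] (π : Pn n →+ R)
    (hπ : Function.Surjective π) (hmul : ∀ a b c : Pn n, (c : P) = a * b → π c = π a * π b)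
    {S : Submodule ℤ P} (hS : IsT S) (u x : Unitization ℤ R) (hx : x ∈ relV π S) :
    u * x ∈ relV π S := by
  obtain ⟨w, hw, rfl⟩ := (mem_relV π S x).1 hx
  obtain ⟨w', hw'⟩ := hπ u.snd
  refine (mem_relV π S _).2 ⟨u.fst • w + ⟨(w' : P) * (w : P), Pn_mul w'.2 w.2⟩, ?_, ?_⟩
  · exact S.add_mem (S.smul_mem _ hw) (hS.mul_left _ hw _)
  · rw [map_add, map_zsmul, hmul w' w ⟨(w' : P) * (w : P), Pn_mul w'.2 w.2⟩ rfl, hw']
    ext
    · simp
    · rw [Unitization.snd_mul, Unitization.snd_inr, Unitization.fst_inr, Unitization.snd_inr,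
        zero_smul, add_zero]

private theorem relV_right {n : ℕ} {R : Type} [NonUnitalRing R] (π : Pn n →+ R)
    (hπ : Function.Surjective π) (hmul : ∀ a b c : Pn n, (c : P) = a * b → π c = π a * π b)
    {S : Submodule ℤ P} (hS : IsT S) (u x : Unitization ℤ R) (hx : x ∈ relV π S) :
    x * u ∈ relV π S := by
  obtain ⟨w, hw, rfl⟩ := (mem_relV π S x).1 hx
  obtain ⟨w', hw'⟩ := hπ u.snd
  refine (mem_relV π S _).2 ⟨u.fst • w + ⟨(w : P) * (w' : P), Pn_mul w.2 w'.2⟩, ?_, ?_⟩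
  · exact S.add_mem (S.smul_mem _ hw) (hS.mul_right _ hw _)
  · rw [map_add, map_zsmul, hmul w w' ⟨(w : P) * (w' : P), Pn_mul w.2 w'.2⟩ rfl, hw']
    ext
    · simp
    · rw [Unitization.snd_mul, Unitization.snd_inr, Unitization.fst_inr, Unitization.snd_inr,
        zero_smul, zero_add]

private theorem relV_disj {I : Submodule ℤ P} {n : ℕ} {R : Type} [NonUnitalRing R]
    (π : Pn n →+ R) (hker : ∀ w : Pn n, π w = 0 ↔ (w : P) ∈ I) {S S' : Submodule ℤ P}
    (h' : I ≤ S') (hi : S ⊓ S' = I) (x : Unitization ℤ R) (hx : x ∈ relV π S)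
    (hx' : x ∈ relV π S') : x = 0 := by
  obtain ⟨w, hw, rfl⟩ := (mem_relV π S x).1 hx
  obtain ⟨w', hw', h1⟩ := (mem_relV π S' _).1 hx'
  have h2 : π w = π w' := Unitization.inr_injective h1
  have h3 : π (w - w') = 0 := by rw [map_sub, h2, sub_self]
  have h4 : ((w - w' : Pn n) : P) ∈ I := (hker _).1 h3
  have h5 : (w : P) ∈ S' := by
    have h6 : (w : P) = ((w - w' : Pn n) : P) + (w' : P) := by
      rw [Submodule.coe_sub]
      abel
    rw [h6]
    exact S'.add_mem (h' h4) hw'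
  have h7 : (w : P) ∈ I := by
    rw [← hi]
    exact ⟨hw, h5⟩
  rw [(hker w).2 h7, Unitization.inr_zero]

private theorem relV_val {n : ℕ} {R : Type} [NonUnitalRing R]
    (π : Pn n →+ R) (hπ : Function.Surjective π)
    (hev : ∀ f ∈ Pp, ∀ w : ℕ → Pn n, ∃ u : Pn n,
      (u : P) = FreeAlgebra.lift ℤ (fun i => (w i : P)) f ∧
        FreeAlgebra.lift ℤ (fun i => ((π (w i) : R) : Unitization ℤ R)) f =
          ((π u : R) : Unitization ℤ R))
    {S : Submodule ℤ P} (hS : IsT S) (y : ℕ → R) (g : P) (hg : g ∈ S) :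
    FreeAlgebra.lift ℤ (fun i => ((y i : R) : Unitization ℤ R)) g ∈ relV π S := by
  choose w hw using fun i => hπ (y i)
  obtain ⟨u, hu, hu'⟩ := hev g (hS.le hg) w
  have h1 : (fun i => ((y i : R) : Unitization ℤ R)) =
      fun i => ((π (w i) : R) : Unitization ℤ R) := by
    funext i
    rw [hw]
  rw [h1]
  refine (mem_relV π S _).2 ⟨u, ?_, hu'⟩
  rw [hu]
  refine hS.subst _ (fun i => ?_) g hg
  have h2 : (FreeAlgebra.lift ℤ (fun i => (w i : P))) (X i) = (w i : P) :=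
    FreeAlgebra.lift_ι_apply _ _
  rw [h2]
  exact Pn_le_Pp n (w i).2

private theorem rel_X_mem (k : ℕ) : X k ∈ Pp := by
  show aug (X k) = 0
  unfold aug
  exact FreeAlgebra.lift_ι_apply _ _

theorem rel {I a b c j : Submodule ℤ P} (hI : Pre I a b c j) (n : ℕ) :
    ∃ (p K : ℕ) (R : Type) (_ : NonUnitalRing R) (V : Fin 3 → AddSubgroup (Unitization ℤ R)),
      p.Prime ∧ Finite R ∧ (∀ x : R, (p ^ K) • x = 0) ∧ (∀ g ∈ I, Sat R g) ∧
      (∀ i u x, x ∈ V i → u * x ∈ V i) ∧ (∀ i u x, x ∈ V i → x * u ∈ V i) ∧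
      (∀ i, ∀ x ∈ V i, ∃ y : R, x = (y : Unitization ℤ R)) ∧
      (∀ i j, i ≠ j → ∀ x, x ∈ V i → x ∈ V j → x = 0) ∧
      (∀ y : ℕ → R, (∀ g ∈ a, FreeAlgebra.lift ℤ (fun i => ((y i : R) : Unitization ℤ R)) g ∈ V 0) ∧
        (∀ g ∈ b, FreeAlgebra.lift ℤ (fun i => ((y i : R) : Unitization ℤ R)) g ∈ V 1) ∧
        (∀ g ∈ c, FreeAlgebra.lift ℤ (fun i => ((y i : R) : Unitization ℤ R)) g ∈ V 2)) ∧
      ∀ f ∈ Pn n, f ∉ I → ∃ y : ℕ → R, (∀ i, n ≤ i → y i = 0) ∧
        FreeAlgebra.lift ℤ (fun i => ((y i : R) : Unitization ℤ R)) f ≠ 0 := by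
  have hd := hI.dia
  obtain ⟨p, K, hp, hpa, hN⟩ := fg hI
  obtain ⟨N, hN⟩ := hN n
  obtain ⟨R, inst, π, hπ, hker, hsat, hmul, hev⟩ := model2 hI.isT (Pn n) (Pn_le_Pp n)
    (fun a ha b hb => Pn_mul ha hb)
  obtain ⟨hfin, hexp⟩ := rel_fin hp hpa hN π hπ hker
  obtain ⟨S, hSd⟩ : ∃ S : Fin 3 → Submodule ℤ P, S = ![a, b, c] := ⟨_, rfl⟩
  have hS0 : S 0 = a := by rw [hSd]; rfl
  have hS1 : S 1 = b := by rw [hSd]; rfl
  have hS2 : S 2 = c := by rw [hSd]; rfl
  have hST : ∀ i, IsT (S i) := by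
    intro i
    fin_cases i
    · show IsT (S 0)
      rw [hS0]
      exact hd.ha
    · show IsT (S 1)
      rw [hS1]
      exact hd.hb
    · show IsT (S 2)
      rw [hS2]
      exact hd.hc
  have hIS : ∀ i, I ≤ S i := by
    intro i
    fin_cases i
    · show I ≤ S 0
      rw [hS0]
      exact hd.oa.le
    · show I ≤ S 1
      rw [hS1]
      exact hd.ob.le
    · show I ≤ S 2
      rw [hS2]
      exact hd.oc.le
  have hSS : ∀ i j, i ≠ j → S i ⊓ S j = I := by
    intro i j hij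
    have h01 : S 0 ⊓ S 1 = I := by rw [hS0, hS1]; exact hd.ab
    have h12 : S 1 ⊓ S 2 = I := by rw [hS1, hS2]; exact hd.bc
    have h02 : S 0 ⊓ S 2 = I := by rw [hS0, hS2]; exact hd.ac
    fin_cases i <;> fin_cases j
    · exact absurd rfl hij
    · exact h01
    · exact h02
    · exact (inf_comm _ _).trans h01
    · exact absurd rfl hij
    · exact h12
    · exact (inf_comm _ _).trans h02
    · exact (inf_comm _ _).trans h12
    · exact absurd rfl hij
  refine ⟨p, K, R, inst, fun i => relV π (S i), hp, hfin, hexp, ?_, ?_, ?_, ?_, ?_, ?_, ?_⟩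
  · intro g hg
    refine (hsat g (hI.isT.le hg)).2 fun φ hφ => hI.isT.subst φ (fun i => ?_) g hg
    exact Pn_le_Pp n (hφ i)
  · intro i u x hx
    exact relV_left π hπ hmul (hST i) u x hx
  · intro i u x hx
    exact relV_right π hπ hmul (hST i) u x hx
  · intro i x hx
    obtain ⟨w, -, hw⟩ := (mem_relV π (S i) x).1 hx
    exact ⟨π w, hw⟩
  · intro i j hij x hx hx'
    exact relV_disj π hker (hIS j) (hSS i j hij) x hx hx'
  · intro y
    refine ⟨fun g hg => ?_, fun g hg => ?_, fun g hg => ?_⟩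
    · exact relV_val π hπ hev (hST 0) y g (by rw [hS0]; exact hg)
    · exact relV_val π hπ hev (hST 1) y g (by rw [hS1]; exact hg)
    · exact relV_val π hπ hev (hST 2) y g (by rw [hS2]; exact hg)
  · intro f hf hfI
    obtain ⟨ψ, hψ, hψ0, hψ1, hψ2, hψ3⟩ := exists_retract n
    obtain ⟨w, hw⟩ : ∃ w : ℕ → Pn n, ∀ k, (w k : P) = ψ (X k) :=
      ⟨fun k => ⟨ψ (X k), hψ3 _ (rel_X_mem k)⟩, fun k => rfl⟩
    refine ⟨fun k => π (w k), fun k hk => ?_, ?_⟩
    · have h1 : w k = 0 := Subtype.ext (by rw [hw, hψ1 k hk]; rfl)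
      show π (w k) = 0
      rw [h1, map_zero]
    · obtain ⟨u, hu, hu'⟩ := hev f (Pn_le_Pp n hf) w
      have h2 : FreeAlgebra.lift ℤ (fun i => (w i : P)) = ψ := by
        refine FreeAlgebra.hom_ext ?_
        funext i
        show FreeAlgebra.lift ℤ (fun i => (w i : P)) (FreeAlgebra.ι ℤ i) = ψ (FreeAlgebra.ι ℤ i)
        rw [FreeAlgebra.lift_ι_apply]
        exact hw i
      rw [h2, hψ2 f hf] at hu
      rw [hu']
      intro h3
      apply hfI
      rw [← hu]
      apply (hker u).1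
      have h4 : ((π u : R) : Unitization ℤ R) = ((0 : R) : Unitization ℤ R) := by
        rw [h3, Unitization.inr_zero]
      exact Unitization.inr_injective h4

end ADA
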