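import Pool.Agent.ADM.Core2
import Pool.Agent.ADM.ExCtx
import Pool.Agent.ADA.CubDst
import Pool.Agent.ADA.Rel
import Pool.Agent.ADA.Hull
import Pool.Agent.ADN.NilHull
import Pool.Agent.ADN.Bridge

/-!
# ADA-Core

A T-ideal is distributive if all nilpotent T-ideals above it are.
-/

namespace ADA

open AD ADN ADN.Ctx ADM

theorem not_pre {I a b c j : Submodule ℤ P} (hI : Pre I a b c j) : False := by
  obtain ⟨T, hT⟩ := exists_nilHull hI.isT
  have hDistT : DistOn TI T := dist_hull hI hT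
  have hd := hI.dia
  obtain ⟨f, hfa, hfI⟩ := SetLike.exists_of_lt hd.oa
  have haT : IsT a := hd.ha
  have hbT : IsT b := hd.hb
  have hf : f ∈ Pp := haT.le hfa
  obtain ⟨n, hn⟩ := exists_mem_Pn hf
  have hj : f ∈ b ⊔ c := by
    rw [hd.jbc, ← hd.jab]
    exact Submodule.mem_sup_left hfa
  obtain ⟨fb, hfb, fc, hfc, hbc⟩ := Submodule.mem_sup.1 hj
  obtain ⟨p, K, R, iR, V, hp, hfin, htor, hsat, hVl, hVr, hVle, hVd, hval, hne⟩ := rel hI n
  obtain ⟨Q, iQ, C, hCp, hCA⟩ := exCtx p K hp R htor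
  obtain ⟨hC, hDst, hTy, hOL, hOR, hTu⟩ := cubDst hI.isT hT hDistT R hsat C.toBase hCA
  have hV : C.Vals V := ⟨hVl, hVr, fun i x hx => (hCA x).2 (hVle i x hx), hVd⟩
  obtain ⟨y, hy0, hyne⟩ := hne f hn hfI
  apply hyne
  rw [← ev_eq_lift]
  refine C.core2 hC hTy hOL hOR hTu hDst hV f (-fb) hf (neg_mem (hbT.le hfb)) ?_ n
    (fun i => ((y i : R) : Unitization ℤ R)) (fun i => (hCA _).2 ⟨y i, rfl⟩)
    (fun i hi => by rw [hy0 i hi]; simp)
  intro z hz
  choose y' hy' using fun i => (hCA (z i)).1 (hz i)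
  have hz' : z = fun i => ((y' i : R) : Unitization ℤ R) := funext hy'
  obtain ⟨h1, h2, h3⟩ := hval y'
  rw [hz']
  have h1' := h1 f hfa
  have h2' := h2 _ (neg_mem hfb)
  have h3' := h3 fc hfc
  rw [← ev_eq_lift] at h1' h2' h3'
  refine ⟨h1', h2', ?_⟩
  rw [← map_add]
  have : f + -fb = fc := by rw [← hbc]; abel
  rw [this]
  exact h3'

/-- distributivity is decided by the nilpotent T-ideals -/
theorem dist_of_nil {I : Submodule ℤ P}
    (hN : ∀ D, IsT D → I ≤ D → (∃ n, NilAt D n) → DistOn TI D) : DistOn TI I := by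
  by_contra hn
  obtain ⟨o, a, b, c, j, -, h⟩ := exists_pre hn hN
  exact not_pre h

end ADA
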