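import Pool.Agent.AD.Defs

/-!
# ADA-CpA

Ideals of `𝔽_p[x_0, x_1, ...]` closed under substitutions: a polynomial with a monomial of degree `k` all of whose
exponents are `< p` generates all monomials of degree `≥ k`, modulo a power of the ideal of polynomials without constant term.
-/

namespace ADA

open MvPolynomial

/-- polynomials over `𝔽_p` -/
abbrev Ap (p : ℕ) := MvPolynomial ℕ (ZMod p)

/-- closed under substitutions -/
def SubC {p : ℕ} (J : Ideal (Ap p)) : Prop :=
  ∀ v : ℕ → Ap p, (∀ i, v i ∈ AD.mm (ZMod p)) → ∀ g ∈ J, (aeval v : Ap p →ₐ[ZMod p] Ap p) g ∈ J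

theorem mem_mm {R : Type} [CommRing R] (g : MvPolynomial ℕ R) :
    g ∈ AD.mm R ↔ coeff 0 g = 0 := by
  have h := mem_pow_idealOfVars_iff' (σ := ℕ) (R := R) 1 g
  rw [pow_one] at h
  refine Iff.trans h ?_
  constructor
  · intro h1
    exact h1 0 (by simp)
  · intro h1 x hx
    have hx0 : x = 0 := by
      have : Finsupp.degree x = 0 := by omega
      exact (Finsupp.degree_eq_zero_iff x).1 this
    rw [hx0]
    exact h1

theorem mem_mm_pow {R : Type} [CommRing R] (e : ℕ) (g : MvPolynomial ℕ R) :
    g ∈ (AD.mm R) ^ e ↔ ∀ x : ℕ →₀ ℕ, Finsupp.degree x < e → coeff x g = 0 :=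
  mem_pow_idealOfVars_iff' (σ := ℕ) (R := R) e g

theorem monomial_mem {R : Type} [CommRing R] {e : ℕ} {m : ℕ →₀ ℕ} (h : e ≤ m.degree) (a : R) :
    monomial m a ∈ (AD.mm R) ^ e := by
  classical
  rw [mem_mm_pow]
  intro x hx
  rw [coeff_monomial, if_neg]
  rintro rfl
  omega

theorem X_mem {R : Type} [CommRing R] (i : ℕ) : (X i : MvPolynomial ℕ R) ∈ AD.mm R :=
  Ideal.subset_span ⟨i, rfl⟩

variable {p : ℕ}

/-- iterated partial derivatives -/
noncomputable def Dl (l : List ℕ) (g : Ap p) : Ap p := l.foldr (fun i h => pderiv i h) g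

theorem Dl_cons (i : ℕ) (l : List ℕ) (g : Ap p) : Dl (i :: l) g = pderiv i (Dl l g) := rfl

/-- the exponent of a list of variables -/
noncomputable def cnt (l : List ℕ) : ℕ →₀ ℕ := (l.map (fun i => Finsupp.single i 1)).sum

theorem cnt_cons (i : ℕ) (l : List ℕ) : cnt (i :: l) = Finsupp.single i 1 + cnt l := by
  simp [cnt]

theorem coeff_Dl [Fact p.Prime] (l : List ℕ) : ∀ m : ℕ →₀ ℕ, (∀ i, (m + cnt l) i < p) →
    ∃ u : ZMod p, u ≠ 0 ∧ ∀ g : Ap p, coeff m (Dl l g) = u * coeff (m + cnt l) g := by
  induction l with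
  | nil =>
    intro m _
    exact ⟨1, one_ne_zero, fun g => by simp [Dl, cnt]⟩
  | cons i l ih =>
    intro m hm
    rw [cnt_cons, ← add_assoc] at hm
    obtain ⟨u, hu, h⟩ := ih (m + Finsupp.single i 1) hm
    refine ⟨u * (m i + 1), mul_ne_zero hu ?_, fun g => ?_⟩
    · have h1 := hm i
      simp only [Finsupp.add_apply, Finsupp.single_eq_same] at h1
      have h2 : ((m i + 1 : ℕ) : ZMod p) ≠ 0 := by
        intro h0
        rw [ZMod.natCast_eq_zero_iff] at h0
        have := Nat.le_of_dvd (by omega) h0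
        omega
      simpa using h2
    · rw [Dl_cons, coeff_pderiv, h, cnt_cons, ← add_assoc]
      ring

theorem coeff_Dl_sqf (l : List ℕ) (hl : l.Nodup) : ∀ m : ℕ →₀ ℕ, (∀ i ∈ l, m i = 0) →
    ∀ g : Ap p, coeff m (Dl l g) = coeff (m + cnt l) g := by
  induction l with
  | nil =>
    intro m _ g
    simp [Dl, cnt]
  | cons i l ih =>
    intro m hm g
    have hi : i ∉ l := (List.nodup_cons.1 hl).1
    rw [Dl_cons, coeff_pderiv, ih (List.nodup_cons.1 hl).2, cnt_cons, ← add_assoc,
      hm i List.mem_cons_self]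
    · simp
    · intro k hk
      have : i ≠ k := fun h => hi (h ▸ hk)
      simp [hm k (List.mem_cons_of_mem _ hk), this]

/-- the substitution replacing each occurrence of a variable by a new one -/
noncomputable def sv (p : ℕ) (l : List ℕ) (i : ℕ) : Ap p :=
  ∑ t ∈ (Finset.range l.length).filter (fun t => l.getD t 0 = i), X t

theorem sv_mem (l : List ℕ) (i : ℕ) : sv p l i ∈ AD.mm (ZMod p) := by
  unfold sv
  exact Ideal.sum_mem _ fun t _ => X_mem t

theorem pderiv_sv (l : List ℕ) (i t : ℕ) (ht : t < l.length) :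
    pderiv t (sv p l i) = if l.getD t 0 = i then 1 else 0 := by
  classical
  unfold sv
  rw [map_sum]
  have h1 : ∀ s ∈ (Finset.range l.length).filter (fun t => l.getD t 0 = i),
      pderiv t (X s : Ap p) = if s = t then 1 else 0 := by
    intro s _
    rw [pderiv_X]
    simp [Pi.single_apply]
  rw [Finset.sum_congr rfl h1, Finset.sum_ite_eq']
  simp [ht]

theorem chain_rule (l : List ℕ) (t : ℕ) (ht : t < l.length) (g : Ap p) :
    pderiv t ((aeval (sv p l) : Ap p →ₐ[ZMod p] Ap p) g) =
      (aeval (sv p l) : Ap p →ₐ[ZMod p] Ap p) (pderiv (l.getD t 0) g) := by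
  classical
  induction g using MvPolynomial.induction_on with
  | C a =>
    rw [pderiv_C, map_zero]
    have : (aeval (sv p l) : Ap p →ₐ[ZMod p] Ap p) (C a) = C a := by
      rw [← algebraMap_eq, AlgHom.commutes, algebraMap_eq]
    rw [this, pderiv_C]
  | add f g hf hg => rw [map_add, map_add, hf, hg, map_add, map_add]
  | mul_X f n hf =>
    rw [map_mul, Derivation.leibniz, hf, aeval_X, pderiv_sv l n t ht, Derivation.leibniz,
      pderiv_X, map_add]
    simp only [smul_eq_mul, map_mul, aeval_X, Pi.single_apply]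
    congr 1
    by_cases h : l.getD t 0 = n
    · rw [if_pos h, if_pos h.symm, map_one]
    · rw [if_neg h, if_neg (Ne.symm h), map_zero]

theorem Dl_sv (l : List ℕ) (s : List ℕ) (hs : ∀ t ∈ s, t < l.length) (g : Ap p) :
    Dl s ((aeval (sv p l) : Ap p →ₐ[ZMod p] Ap p) g) =
      (aeval (sv p l) : Ap p →ₐ[ZMod p] Ap p) (Dl (s.map (fun t => l.getD t 0)) g) := by
  induction s with
  | nil => rfl
  | cons t s ih =>
    rw [Dl_cons, ih (fun t ht => hs t (List.mem_cons_of_mem _ ht)), chain_rule l t
      (hs t List.mem_cons_self), List.map_cons, Dl_cons]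

theorem coeff_zero_aeval {v : ℕ → Ap p} (hv : ∀ i, v i ∈ AD.mm (ZMod p)) (g : Ap p) :
    coeff 0 ((aeval v : Ap p →ₐ[ZMod p] Ap p) g) = coeff 0 g := by
  have h : (constantCoeff : Ap p →+* ZMod p).comp (aeval v : Ap p →ₐ[ZMod p] Ap p).toRingHom =
      constantCoeff := by
    apply MvPolynomial.ringHom_ext
    · intro r
      simp
    · intro i
      have := (mem_mm (v i)).1 (hv i)
      simpa [constantCoeff_eq] using this
  exact congrArg (fun F => F g) h

/-- the exponent `e_0 + ... + e_{k-1}` -/
noncomputable def sq (k : ℕ) : ℕ →₀ ℕ := cnt (List.range k)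

/-- polarisation -/
theorem polar [Fact p.Prime] {g : Ap p} {l : List ℕ} (hl : ∀ i, cnt l i < p) (hg : coeff (cnt l) g ≠ 0) :
    coeff (sq l.length) ((aeval (sv p l) : Ap p →ₐ[ZMod p] Ap p) g) ≠ 0 := by
  have h1 := coeff_Dl_sqf (p := p) (List.range l.length) List.nodup_range 0 (by simp)
    ((aeval (sv p l) : Ap p →ₐ[ZMod p] Ap p) g)
  rw [zero_add] at h1
  unfold sq
  rw [← h1, Dl_sv l _ (fun t ht => List.mem_range.1 ht), coeff_zero_aeval (sv_mem l)]
  have h2 : (List.range l.length).map (fun t => l.getD t 0) = l := by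
    apply List.ext_getElem
    · simp
    · intro n h3 h4
      simp [h4]
  rw [h2]
  obtain ⟨u, hu, h⟩ := coeff_Dl (p := p) l 0 (by simpa using hl)
  rw [h, zero_add]
  exact mul_ne_zero hu hg

/-- the substitution `x_s := 0` -/
noncomputable def sg (p s : ℕ) : ℕ → Ap p := fun j => if j = s then 0 else X j

theorem sg_mem (s i : ℕ) : sg p s i ∈ AD.mm (ZMod p) := by
  unfold sg
  split_ifs
  · exact Ideal.zero_mem _
  · exact X_mem i

theorem coeff_sg (s : ℕ) (m : ℕ →₀ ℕ) (g : Ap p) :
    coeff m ((aeval (sg p s) : Ap p →ₐ[ZMod p] Ap p) g) = if m s = 0 then coeff m g else 0 := by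
  classical
  induction g using MvPolynomial.induction_on' with
  | monomial n a =>
    rw [aeval_monomial]
    by_cases hn : n s = 0
    · have h1 : (n.prod fun i k => sg p s i ^ k) = monomial n 1 := by
        rw [monomial_eq]
        simp only [C_1, one_mul]
        refine Finsupp.prod_congr fun i hi => ?_
        have : i ≠ s := by
          rintro rfl
          exact Finsupp.mem_support_iff.1 hi hn
        simp [sg, this]
      rw [h1, algebraMap_eq, C_mul_monomial, mul_one, coeff_monomial]
      split_ifs with h2 h3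
      · rfl
      · rw [← h2] at h3
        exact absurd hn h3
      · rfl
      · rfl
    · have h1 : (n.prod fun i k => sg p s i ^ k) = 0 := by
        refine Finset.prod_eq_zero (Finsupp.mem_support_iff.2 hn) ?_
        simp [sg, hn]
      rw [h1, mul_zero, coeff_zero, coeff_monomial]
      split_ifs with h2 h3
      · rw [h3] at hn
        exact absurd h2 hn
      · rfl
      · rfl
  | add f g hf hg =>
    rw [map_add, coeff_add, hf, hg, coeff_add]
    split_ifs <;> simp

/-- an element all of whose monomials contain the first `k` variables -/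
theorem full_elt {J : Ideal (Ap p)} (hJ : SubC J) {g : Ap p} (hg : g ∈ J) {k : ℕ}
    (hc : coeff (sq k) g ≠ 0) (hsq : ∀ t < k, sq k t ≠ 0) : ∀ s ≤ k, ∃ h ∈ J, coeff (sq k) h ≠ 0 ∧
      ∀ m, (∃ t < s, m t = 0) → coeff m h = 0 := by
  intro s
  induction s with
  | zero =>
    intro _
    exact ⟨g, hg, hc, fun m ⟨t, ht, _⟩ => absurd ht (Nat.not_lt_zero t)⟩
  | succ s ih =>
    intro hs
    obtain ⟨h, hh, h1, h2⟩ := ih (by omega)
    refine ⟨h - (aeval (sg p s) : Ap p →ₐ[ZMod p] Ap p) h, J.sub_mem hh (hJ _ (sg_mem s) h hh), ?_, ?_⟩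
    · rw [coeff_sub, coeff_sg, if_neg (hsq s (by omega)), sub_zero]
      exact h1
    · rintro m ⟨t, ht, hmt⟩
      rw [coeff_sub, coeff_sg]
      by_cases hms : m s = 0
      · rw [if_pos hms, sub_self]
      · rw [if_neg hms, sub_zero]
        refine h2 m ⟨t, ?_, hmt⟩
        rcases Nat.lt_succ_iff_lt_or_eq.1 ht with h | h
        · exact h
        · rw [h] at hmt
          exact absurd hmt hms

theorem sq_apply (k t : ℕ) : sq k t = if t < k then 1 else 0 := by
  unfold sq cnt
  induction k with
  | zero => simp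
  | succ k ih =>
    rw [List.range_succ, List.map_append, List.sum_append, Finsupp.add_apply, ih]
    by_cases h : t = k
    · subst h
      simp
    · have h' : k ≠ t := fun h2 => h h2.symm
      simp only [List.map_cons, List.map_nil, List.sum_cons, List.sum_nil, add_zero]
      rw [Finsupp.single_eq_of_ne (by simpa using h)]
      by_cases h3 : t < k
      · simp [h3, Nat.lt_succ_of_lt h3]
      · have : ¬ t < k + 1 := by omega
        simp [h3, this]

theorem sq_monomial (k : ℕ) : (monomial (sq k) (1 : ZMod p)) = ∏ t ∈ Finset.range k, X t := by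
  induction k with
  | zero => simp [sq, cnt]
  | succ k ih =>
    rw [Finset.prod_range_succ, ← ih]
    have : sq (k + 1) = sq k + Finsupp.single k 1 := by
      unfold sq cnt
      rw [List.range_succ, List.map_append, List.sum_append]
      simp
    rw [this, X, monomial_mul, mul_one]

/-- the product of the first `k` variables -/
theorem prod_mem [Fact p.Prime] {J : Ideal (Ap p)} (hJ : SubC J) {N : ℕ} (hN : (AD.mm (ZMod p)) ^ N ≤ J)
    {g : Ap p} (hg : g ∈ J) {k : ℕ} (hc : coeff (sq k) g ≠ 0) :
    ∏ t ∈ Finset.range k, (X t : Ap p) ∈ J := by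
  classical
  obtain ⟨h, hh, h1, h2⟩ := full_elt hJ hg hc (fun t ht => by rw [sq_apply]; simp [ht]) k le_rfl
  have h3 : monomial (sq k) (1 : ZMod p) ∣ h := by
    rw [monomial_one_dvd_iff_modMonomial_eq_zero]
    ext m
    rw [coeff_zero]
    by_cases hm : sq k ≤ m
    · exact coeff_modMonomial_of_le _ hm
    · rw [coeff_modMonomial_of_not_le _ hm]
      apply h2
      by_contra hcon
      push Not at hcon
      apply hm
      intro t
      rw [sq_apply]
      split_ifs with ht
      · have := hcon t ht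
        omega
      · exact Nat.zero_le _
  obtain ⟨q, hq⟩ := h3
  have hc0 : coeff 0 q ≠ 0 := by
    intro h0
    apply h1
    rw [hq, coeff_monomial_mul', if_pos le_rfl, tsub_self, h0, mul_zero]
  set c := coeff 0 q with hcdef
  -- `q = c (1 - s)`
  obtain ⟨s, hs⟩ : ∃ s, s = 1 - C c⁻¹ * q := ⟨_, rfl⟩
  have hsm : s ∈ AD.mm (ZMod p) := by
    rw [mem_mm, hs, coeff_sub, coeff_C_mul, ← hcdef, inv_mul_cancel₀ hc0]
    simp
  have hq' : C c⁻¹ * q = 1 - s := by rw [hs]; ring
  have hgeo : (1 - s) * ∑ i ∈ Finset.range N, s ^ i = 1 - s ^ N := mul_neg_geom_sum s N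
  have key : monomial (sq k) (1 : ZMod p) = h * (C c⁻¹ * ∑ i ∈ Finset.range N, s ^ i) +
      monomial (sq k) (1 : ZMod p) * s ^ N := by
    have h4 : h * (C c⁻¹ * ∑ i ∈ Finset.range N, s ^ i) =
        monomial (sq k) (1 : ZMod p) * ((C c⁻¹ * q) * ∑ i ∈ Finset.range N, s ^ i) := by
      rw [hq]; ring
    rw [h4, hq', hgeo]
    ring
  rw [← sq_monomial, key]
  exact J.add_mem (J.mul_mem_right _ hh) (J.mul_mem_left _ (hN (Ideal.pow_mem_pow hsm N)))

theorem pow_le_of_prod {J : Ideal (Ap p)} (hJ : SubC J) {k : ℕ}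
    (h : ∏ t ∈ Finset.range k, (X t : Ap p) ∈ J) : (AD.mm (ZMod p)) ^ k ≤ J := by
  have key : ∀ j ≤ k, ∀ v : ℕ → Ap p, (∀ i, v i ∈ AD.mm (ZMod p)) → ∀ g ∈ (AD.mm (ZMod p)) ^ j,
      (∏ t ∈ Finset.range (k - j), v t) * g ∈ J := by
    intro j
    induction j with
    | zero =>
      intro _ v hv g _
      apply J.mul_mem_right
      have h1 := hJ v hv _ h
      rw [map_prod] at h1
      simpa using h1
    | succ j ih =>
      intro hj v hv g hg
      rw [pow_succ] at hg
      refine Submodule.mul_induction_on hg ?_ ?_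
      · intro a ha b hb
        have h2 := ih (by omega) (fun t => if t = k - (j + 1) then b else v t) (by
          intro i
          split_ifs
          · exact hb
          · exact hv i) a ha
        have h3 : k - j = (k - (j + 1)) + 1 := by omega
        rw [h3, Finset.prod_range_succ, if_pos rfl] at h2
        have h4 : ∏ t ∈ Finset.range (k - (j + 1)), (if t = k - (j + 1) then b else v t) =
            ∏ t ∈ Finset.range (k - (j + 1)), v t := by
          refine Finset.prod_congr rfl fun t ht => ?_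
          rw [if_neg]
          have := Finset.mem_range.1 ht
          omega
        rw [h4] at h2
        have : (∏ t ∈ Finset.range (k - (j + 1)), v t) * (a * b) =
            (∏ t ∈ Finset.range (k - (j + 1)), v t) * b * a := by ring
        rw [this]
        exact h2
      · intro a b ha hb
        rw [mul_add]
        exact J.add_mem ha hb
  intro g hg
  have := key k le_rfl (fun t => X t) (fun i => X_mem i) g hg
  simpa using this

theorem cnt_toList (m : ℕ →₀ ℕ) : cnt (Finsupp.toMultiset m).toList = m := by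
  have h : (cnt (Finsupp.toMultiset m).toList) = Multiset.sum
      ((Finsupp.toMultiset m).map (fun i => (Finsupp.single i 1 : ℕ →₀ ℕ))) := by
    unfold cnt
    conv_rhs => rw [← Multiset.coe_toList (Finsupp.toMultiset m)]
    rw [Multiset.map_coe, Multiset.sum_coe]
  rw [h]
  have h2 : ∀ s : Multiset ℕ, (s.map (fun i => (Finsupp.single i 1 : ℕ →₀ ℕ))).sum =
      Multiset.toFinsupp s := by
    intro s
    induction s using Multiset.induction_on with
    | empty => simp
    | cons a s ih =>
      rw [Multiset.map_cons, Multiset.sum_cons, ih, ← Multiset.singleton_add a s, map_add,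
        Multiset.toFinsupp_singleton]
  rw [h2, Finsupp.toMultiset_toFinsupp]

/-- the key lemma -/
theorem gen_pow [Fact p.Prime] {J : Ideal (Ap p)} (hJ : SubC J) {N : ℕ} (hN : (AD.mm (ZMod p)) ^ N ≤ J)
    {g : Ap p} (hg : g ∈ J) {m : ℕ →₀ ℕ} (hm : ∀ i, m i < p) (hc : coeff m g ≠ 0) :
    (AD.mm (ZMod p)) ^ m.degree ≤ J := by
  have h1 : (Finsupp.toMultiset m).toList.length = m.degree := by
    rw [Multiset.length_toList, Finsupp.card_toMultiset]
    rfl
  rw [← h1]
  have h2 := polar (p := p) (g := g) (l := (Finsupp.toMultiset m).toList)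
    (by rw [cnt_toList]; exact hm) (by rw [cnt_toList]; exact hc)
  exact pow_le_of_prod hJ (prod_mem hJ hN (hJ _ (sv_mem _) g hg) h2)

end ADA
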