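import Pool.Agent.ADA.CpA
import Pool.Agent.AD.Tlat

/-!
# ADA-CpB

The T-ideals containing `CP p` (commutative algebras over `𝔽_p` with `x_1 ⋯ x_{p+1} = 0`) form a chain.
-/

namespace ADA

open MvPolynomial

variable {p : ℕ}

theorem aeval_pow_mem {v : ℕ → Ap p} (hv : ∀ i, v i ∈ AD.mm (ZMod p)) (n : ℕ) {x : Ap p}
    (hx : x ∈ (AD.mm (ZMod p)) ^ n) :
    (aeval v : Ap p →ₐ[ZMod p] Ap p) x ∈ (AD.mm (ZMod p)) ^ n := by
  have h1 : Ideal.map (aeval v : Ap p →ₐ[ZMod p] Ap p).toRingHom (AD.mm (ZMod p)) ≤ AD.mm (ZMod p) := by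
    rw [AD.mm, Ideal.map_span, Ideal.span_le]
    rintro _ ⟨_, ⟨i, rfl⟩, rfl⟩
    change (aeval v : Ap p →ₐ[ZMod p] Ap p) (MvPolynomial.X i) ∈ AD.mm (ZMod p)
    rw [aeval_X]
    exact hv i
  have h2 := Ideal.pow_right_mono h1 n
  rw [← Ideal.map_pow] at h2
  exact h2 (Ideal.mem_map_of_mem (aeval v : Ap p →ₐ[ZMod p] Ap p).toRingHom hx)

theorem eq_single {m : ℕ →₀ ℕ} (hd : m.degree ≤ p) {i : ℕ} (hi : p ≤ m i) : m = Finsupp.single i p := by
  have h1 : m.degree = m i + (m.erase i).degree := by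
    conv_lhs => rw [← Finsupp.single_add_erase i m]
    rw [map_add, Finsupp.degree_single]
  have h2 : (m.erase i).degree = 0 := by omega
  have h3 := (Finsupp.degree_eq_zero_iff _).1 h2
  rw [← Finsupp.single_add_erase i m, h3, add_zero]
  congr 1
  omega

/-- substitution-closed ideals containing `𝔪 ^ (p + 1)` form a chain -/
theorem subc_chain [Fact p.Prime] {J₁ J₂ : Ideal (Ap p)} (h₁ : SubC J₁) (h₂ : SubC J₂)
    (hN₁ : (AD.mm (ZMod p)) ^ (p + 1) ≤ J₁) (hN₂ : (AD.mm (ZMod p)) ^ (p + 1) ≤ J₂) :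
    J₁ ≤ J₂ ∨ J₂ ≤ J₁ := by
  classical
  by_cases hle : J₁ ≤ J₂
  · exact Or.inl hle
  refine Or.inr ?_
  obtain ⟨f, hf, hf2⟩ := SetLike.not_le_iff_exists.1 hle
  obtain ⟨m, hm, hm2⟩ : ∃ m ∈ f.support, monomial m (coeff m f) ∉ J₂ := by
    by_contra hcon
    push Not at hcon
    apply hf2
    rw [as_sum f]
    exact Ideal.sum_mem _ hcon
  have hmc : coeff m f ≠ 0 := mem_support_iff.1 hm
  have hdeg : m.degree ≤ p := by
    by_contra hcon
    exact hm2 (hN₂ (monomial_mem (by omega) _))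
  -- small monomials of `J₂`
  have hsm : ∀ g ∈ J₂, ∀ n : ℕ →₀ ℕ, coeff n g ≠ 0 → (∀ i, n i < p) → m.degree < n.degree := by
    intro g hg n hn hnp
    by_contra hcon
    exact hm2 ((gen_pow h₂ hN₂ hg hnp hn) (monomial_mem (by omega) _))
  by_cases hcase : ∀ i, m i < p
  · intro g hg
    apply gen_pow h₁ hN₁ hf hcase hmc
    rw [mem_mm_pow]
    intro n hn
    by_contra hne
    by_cases hnp : ∀ i, n i < p
    · have := hsm g hg n hne hnp
      omega
    · push Not at hnp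
      obtain ⟨i, hi⟩ := hnp
      have := Finsupp.le_degree i n
      omega
  · push Not at hcase
    obtain ⟨i, hi⟩ := hcase
    have hmi := eq_single hdeg hi
    have hmd : m.degree = p := by rw [hmi, Finsupp.degree_single]
    intro g hg
    apply hN₁
    rw [mem_mm_pow]
    intro n hn
    by_contra hne
    have hn' : ¬ ∀ k, n k < p := by
      intro hnp
      have := hsm g hg n hne hnp
      omega
    push Not at hn'
    obtain ⟨k, hk⟩ := hn'
    have hnk := eq_single (by omega : n.degree ≤ p) hk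
    -- substitute `x_k := x_i` and `x_j := 0` for `j ≠ k`
    obtain ⟨v, hv⟩ : ∃ v : ℕ → Ap p, v = fun j => if j = k then X i else 0 := ⟨_, rfl⟩
    have hvm : ∀ j, v j ∈ AD.mm (ZMod p) := by
      intro j
      rw [hv]
      dsimp only
      split_ifs
      · exact X_mem i
      · exact Ideal.zero_mem _
    have h3 := h₂ v hvm g hg
    obtain ⟨r, hr⟩ : ∃ r, r = g - monomial n (coeff n g) := ⟨_, rfl⟩
    have hr2 : (aeval v : Ap p →ₐ[ZMod p] Ap p) r ∈ J₂ := by
      rw [as_sum r, map_sum]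
      refine Ideal.sum_mem _ fun s hs => ?_
      have hs' : coeff s r ≠ 0 := mem_support_iff.1 hs
      by_cases hsd : p + 1 ≤ s.degree
      · exact hN₂ (aeval_pow_mem hvm _ (monomial_mem hsd _))
      · have hsn : s ≠ n := by
          rintro rfl
          apply hs'
          rw [hr, coeff_sub, coeff_monomial, if_pos rfl, sub_self]
        have hsg : coeff s g ≠ 0 := by
          intro h0
          apply hs'
          rw [hr, coeff_sub, coeff_monomial, if_neg (Ne.symm hsn), h0, sub_zero]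
        have hsp : ¬ ∀ j, s j < p := by
          intro hsp
          have := hsm g hg s hsg hsp
          omega
        push Not at hsp
        obtain ⟨j, hj⟩ := hsp
        have hsj := eq_single (by omega : s.degree ≤ p) hj
        have hjk : j ≠ k := by
          rintro rfl
          exact hsn (hsj.trans hnk.symm)
        have hz : (aeval v : Ap p →ₐ[ZMod p] Ap p) (monomial s (coeff s r)) = 0 := by
          rw [aeval_monomial, hsj, Finsupp.prod_single_index (by simp)]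
          have hp0 : p ≠ 0 := (Fact.out : p.Prime).ne_zero
          have hvj : v j = 0 := by rw [hv]; simp [hjk]
          rw [hvj, zero_pow hp0, mul_zero]
        rw [hz]
        exact Ideal.zero_mem _
    have h4 : (aeval v : Ap p →ₐ[ZMod p] Ap p) g = (aeval v : Ap p →ₐ[ZMod p] Ap p) r +
        monomial m (coeff n g) := by
      have h5 : (aeval v : Ap p →ₐ[ZMod p] Ap p) (monomial n (coeff n g)) = monomial m (coeff n g) := by
        rw [aeval_monomial, hnk, Finsupp.prod_single_index (by simp)]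
        have hvk : v k = X i := by rw [hv]; simp
        rw [hvk, algebraMap_eq, X_pow_eq_monomial, C_mul_monomial, mul_one, hmi]
      rw [← h5, ← map_add, hr, sub_add_cancel]
    have h6 : monomial m (coeff n g) ∈ J₂ := by
      have : monomial m (coeff n g) = (aeval v : Ap p →ₐ[ZMod p] Ap p) g -
          (aeval v : Ap p →ₐ[ZMod p] Ap p) r := by rw [h4]; ring
      rw [this]
      exact J₂.sub_mem h3 hr2
    apply hm2
    have h7 : monomial m (coeff m f) = C (coeff m f * (coeff n g)⁻¹) * monomial m (coeff n g) := by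
      rw [C_mul_monomial, mul_assoc, inv_mul_cancel₀ hne, mul_one]
    rw [h7]
    exact J₂.mul_mem_left _ h6

/-- the commutative algebras over `𝔽_p` with `x_1 ⋯ x_{p+1} = 0` -/
noncomputable def CP (p : ℕ) : Submodule ℤ AD.P :=
  AD.Pp ⊓ (((AD.mm (ZMod p)) ^ (p + 1)).restrictScalars ℤ).comap (AD.comp p).toLinearMap

theorem mem_CP {f : AD.P} : f ∈ CP p ↔ f ∈ AD.Pp ∧ AD.comp p f ∈ (AD.mm (ZMod p)) ^ (p + 1) := Iff.rfl

theorem comp_X (i : ℕ) : AD.comp p (AD.X i) = X i := by simp [AD.comp]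

theorem comp_surj (g : Ap p) : ∃ f, AD.comp p f = g := by
  induction g using MvPolynomial.induction_on with
  | C a =>
    obtain ⟨z, rfl⟩ := ZMod.intCast_surjective a
    refine ⟨algebraMap ℤ AD.P z, ?_⟩
    rw [AlgHom.commutes]
    simp
  | add f g hf hg =>
    obtain ⟨a, rfl⟩ := hf
    obtain ⟨b, rfl⟩ := hg
    exact ⟨a + b, map_add _ _ _⟩
  | mul_X f n hf =>
    obtain ⟨a, rfl⟩ := hf
    exact ⟨a * AD.X n, by rw [map_mul, comp_X]⟩

theorem coeff_comp (f : AD.P) : coeff 0 (AD.comp p f) = ((AD.aug f : ℤ) : ZMod p) := by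
  have h : ((constantCoeff : MvPolynomial ℕ (ZMod p) →+* ZMod p).toIntAlgHom.comp (AD.comp p)) =
      (Int.castRingHom (ZMod p)).toIntAlgHom.comp AD.aug := by
    apply FreeAlgebra.hom_ext
    funext i
    change constantCoeff (AD.comp p (FreeAlgebra.ι ℤ i)) = ((AD.aug (FreeAlgebra.ι ℤ i) : ℤ) : ZMod p)
    simp [AD.comp, AD.aug]
  exact congrArg (fun g => g f) h

theorem comp_lift {v : Ap p} (hv : v ∈ AD.mm (ZMod p)) : ∃ f, AD.aug f = 0 ∧ AD.comp p f = v := by
  obtain ⟨f, hf⟩ := comp_surj v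
  refine ⟨f - algebraMap ℤ AD.P (AD.aug f), ?_, ?_⟩
  · rw [map_sub, AlgHom.commutes]
    simp
  · have h1 : ((AD.aug f : ℤ) : ZMod p) = 0 := by
      rw [← coeff_comp, hf]
      exact (mem_mm v).1 hv
    rw [map_sub, hf, AlgHom.commutes]
    have h2 : algebraMap ℤ (Ap p) (AD.aug f) = C (((AD.aug f : ℤ) : ZMod p)) := by simp
    rw [h2, h1, C_0, sub_zero]

theorem comp_subst (φ : AD.P →ₐ[ℤ] AD.P) (f : AD.P) :
    AD.comp p (φ f) = (aeval (fun i => AD.comp p (φ (AD.X i))) : Ap p →ₐ[ZMod p] Ap p) (AD.comp p f) := by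
  have h : (AD.comp p).comp φ = ((aeval (fun i => AD.comp p (φ (AD.X i))) :
      MvPolynomial ℕ (ZMod p) →ₐ[ZMod p] MvPolynomial ℕ (ZMod p)).restrictScalars ℤ).comp (AD.comp p) := by
    apply FreeAlgebra.hom_ext
    funext i
    simp [AD.comp]
  exact congrArg (fun F => F f) h

/-- the image of a T-ideal -/
noncomputable def bar (p : ℕ) {E : Submodule ℤ AD.P} (hE : AD.IsT E) : Ideal (Ap p) where
  carrier := {g | ∃ f ∈ E, AD.comp p f = g}
  zero_mem' := ⟨0, E.zero_mem, map_zero _⟩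
  add_mem' := by
    rintro _ _ ⟨a, ha, rfl⟩ ⟨b, hb, rfl⟩
    exact ⟨a + b, E.add_mem ha hb, map_add _ _ _⟩
  smul_mem' := by
    rintro c _ ⟨a, ha, rfl⟩
    obtain ⟨b, rfl⟩ := comp_surj c
    exact ⟨b * a, hE.mul_left a ha b, map_mul _ _ _⟩

theorem mem_bar {E : Submodule ℤ AD.P} (hE : AD.IsT E) {g : Ap p} :
    g ∈ bar p hE ↔ ∃ f ∈ E, AD.comp p f = g := Iff.rfl

theorem bar_subC {E : Submodule ℤ AD.P} (hE : AD.IsT E) : SubC (bar p hE) := by
  rintro v hv g ⟨f, hf, rfl⟩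
  choose u hu1 hu2 using fun i => comp_lift (hv i)
  let φ : AD.P →ₐ[ℤ] AD.P := FreeAlgebra.lift ℤ u
  have hφ : ∀ i, φ (AD.X i) = u i := fun i => FreeAlgebra.lift_ι_apply _ _
  refine ⟨φ f, hE.subst φ (fun i => by rw [hφ]; exact hu1 i) f hf, ?_⟩
  rw [comp_subst]
  have : (fun i => AD.comp p (φ (AD.X i))) = v := by
    funext i
    rw [hφ, hu2]
  rw [this]

theorem bar_pow {E : Submodule ℤ AD.P} (hE : AD.IsT E) (h : CP p ≤ E) :
    (AD.mm (ZMod p)) ^ (p + 1) ≤ bar p hE := by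
  intro g hg
  have hg1 : g ∈ AD.mm (ZMod p) := by
    have := Ideal.pow_le_pow_right (I := AD.mm (ZMod p)) (Nat.le_add_left 1 p) hg
    rwa [pow_one] at this
  obtain ⟨f, hf1, hf2⟩ := comp_lift hg1
  exact ⟨f, h (mem_CP.2 ⟨hf1, by rw [hf2]; exact hg⟩), hf2⟩

theorem le_of_bar {E E' : Submodule ℤ AD.P} (hE : AD.IsT E) (hE' : AD.IsT E') (h' : CP p ≤ E')
    (h : bar p hE ≤ bar p hE') : E ≤ E' := by
  intro f hf
  obtain ⟨f', hf', heq⟩ := h ((mem_bar hE).2 ⟨f, hf, rfl⟩)
  have h1 : f - f' ∈ CP p := by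
    refine mem_CP.2 ⟨AD.Pp.sub_mem (hE.le hf) (hE'.le hf'), ?_⟩
    rw [map_sub, heq, sub_self]
    exact Ideal.zero_mem _
  have : f = (f - f') + f' := by abel
  rw [this]
  exact E'.add_mem (h' h1) hf'

/-- the T-ideals containing `CP p` form a chain -/
theorem CP_chain [Fact p.Prime] {x y : Submodule ℤ AD.P} (hx : AD.IsT x) (hy : AD.IsT y)
    (h1 : CP p ≤ x) (h2 : CP p ≤ y) : x ≤ y ∨ y ≤ x := by
  rcases subc_chain (bar_subC (p := p) hx) (bar_subC hy) (bar_pow hx h1) (bar_pow hy h2) with h | h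
  · exact Or.inl (le_of_bar hx hy h2 h)
  · exact Or.inr (le_of_bar hy hx h1 h)

/-- in particular the lattice is distributive -/
theorem dist_CP [Fact p.Prime] : AD.DistOn AD.TI (CP p) := by
  intro x hx y hy z hz h1 h2 h3
  rcases CP_chain hy hz h2 h3 with h | h
  · rw [sup_eq_right.2 h, sup_eq_right.2 (inf_le_inf_left x h)]
  · rw [sup_eq_left.2 h, sup_eq_left.2 (inf_le_inf_left x h)]

end ADA
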