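import Pool.Agent.ADA.Lat
import Pool.Agent.AD.Tlat
import Pool.Agent.AD.Expo
import Pool.Agent.AD.Trans2

/-!
# ADA-Exp2

Almost distributive T-ideals contain `p ^ 2 x` for a prime `p`.
-/

namespace ADA

open AD

/-- the polynomials `f` with `k f` in `D` -/
noncomputable def col (k : ℤ) (D : Submodule ℤ P) : Submodule ℤ P :=
  Pp ⊓ D.comap (LinearMap.lsmul ℤ P k)

theorem mem_col {k : ℤ} {D : Submodule ℤ P} {f : P} : f ∈ col k D ↔ f ∈ Pp ∧ k • f ∈ D := Iff.rfl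

theorem isT_col {D : Submodule ℤ P} (hD : IsT D) (k : ℤ) : IsT (col k D) := by
  refine ⟨inf_le_left, ?_, ?_, ?_⟩
  · rintro f hf g
    obtain ⟨h1, h2⟩ := mem_col.1 hf
    refine mem_col.2 ⟨isT_Pp.mul_right f h1 g, ?_⟩
    rw [← smul_mul_assoc]
    exact hD.mul_right _ h2 g
  · rintro f hf g
    obtain ⟨h1, h2⟩ := mem_col.1 hf
    refine mem_col.2 ⟨isT_Pp.mul_left f h1 g, ?_⟩
    rw [← mul_smul_comm]
    exact hD.mul_left _ h2 g
  · rintro φ hφ f hf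
    obtain ⟨h1, h2⟩ := mem_col.1 hf
    refine mem_col.2 ⟨isT_Pp.subst φ hφ f h1, ?_⟩
    rw [← map_smul]
    exact hD.subst φ hφ _ h2

variable {I a b c j : Submodule ℤ P} {p K : ℕ}

theorem lt_col (hI : IsT I) (hK : mulI ((p ^ K : ℕ) : ℤ) Pp ≤ I) (hlt : I < Pp) : I < col p I := by
  refine lt_of_le_of_ne (fun f hf => mem_col.2 ⟨hI.le hf, I.smul_mem _ hf⟩) fun heq => ?_
  have h1 : ∀ k : ℕ, ∀ f ∈ Pp, ((p ^ k : ℕ) : ℤ) • f ∈ I → f ∈ I := by
    intro k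
    induction k with
    | zero =>
      intro f _ h
      simpa using h
    | succ k ih =>
      intro f hf h
      have h2 : ((p : ℕ) : ℤ) • f ∈ I := by
        apply ih _ (Pp.smul_mem _ hf)
        rw [smul_smul]
        have : ((p ^ k : ℕ) : ℤ) * (p : ℤ) = ((p ^ (k + 1) : ℕ) : ℤ) := by push_cast; ring
        rw [this]
        exact h
      rw [heq]
      exact mem_col.2 ⟨hf, h2⟩
  refine hlt.not_ge fun f hf => h1 K f hf (hK ?_)
  exact expo_mem_mulI.2 ⟨f, hf, rfl⟩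

/-- the top of a diamond is not contained in `p P` -/
theorem not_le_p (hI : AlmDist I) (hK : mulI ((p ^ K : ℕ) : ℤ) Pp ≤ I) (h : Dia TI I a b c j) :
    ¬ j ≤ I ⊔ mulI (p : ℤ) Pp := by
  intro hj
  have haT : IsT a := h.ha
  have hbT : IsT b := h.hb
  have hcT : IsT c := h.hc
  have haj : a ≤ j := by rw [← h.jab]; exact le_sup_left
  have hbj : b ≤ j := by rw [← h.jab]; exact le_sup_right
  have hcj : c ≤ j := by rw [← h.jac]; exact le_sup_right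
  have hlt : I < col p I := lt_col hI.1 hK (lt_of_lt_of_le h.oa haT.le)
  have hd := hI.2.2 _ (isT_col hI.1 p) hlt
  have mono : ∀ {x y : Submodule ℤ P}, x ≤ y → col (p : ℤ) x ≤ col (p : ℤ) y :=
    fun hxy f hf => mem_col.2 ⟨(mem_col.1 hf).1, hxy (mem_col.1 hf).2⟩
  have hdist := hd _ (isT_col haT p) _ (isT_col hbT p) _ (isT_col hcT p) (mono h.oa.le)
    (mono h.ob.le) (mono h.oc.le)
  obtain ⟨u, hua, huI⟩ := Set.exists_of_ssubset h.oa
  have dec : ∀ v ∈ j, ∃ i ∈ I, ∃ g ∈ Pp, v = i + (p : ℤ) • g := by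
    intro v hv
    obtain ⟨i, hi, y, hy, rfl⟩ := Submodule.mem_sup.1 (hj hv)
    obtain ⟨g, hg, rfl⟩ := expo_mem_mulI.1 hy
    exact ⟨i, hi, g, hg, rfl⟩
  have hubc : u ∈ b ⊔ c := by rw [h.jbc]; exact haj hua
  obtain ⟨v, hv, w, hw, hvw⟩ := Submodule.mem_sup.1 hubc
  obtain ⟨i, hi, g, hg, hig⟩ := dec u (haj hua)
  obtain ⟨i1, hi1, g1, hg1, hig1⟩ := dec v (hbj hv)
  obtain ⟨i2, hi2, g2, hg2, hig2⟩ := dec w (hcj hw)
  have e0 : (p : ℤ) • g = u - i := by rw [hig]; abel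
  have e1 : (p : ℤ) • g1 = v - i1 := by rw [hig1]; abel
  have e2 : (p : ℤ) • g2 = w - i2 := by rw [hig2]; abel
  have hgA : g ∈ col (p : ℤ) a :=
    mem_col.2 ⟨hg, by rw [e0]; exact a.sub_mem hua (h.oa.le hi)⟩
  have hgB : g1 ∈ col (p : ℤ) b :=
    mem_col.2 ⟨hg1, by rw [e1]; exact b.sub_mem hv (h.ob.le hi1)⟩
  have hgC : g2 ∈ col (p : ℤ) c :=
    mem_col.2 ⟨hg2, by rw [e2]; exact c.sub_mem hw (h.oc.le hi2)⟩
  have hr : g - g1 - g2 ∈ col (p : ℤ) b := by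
    refine mem_col.2 ⟨Pp.sub_mem (Pp.sub_mem hg hg1) hg2, h.ob.le ?_⟩
    have : (p : ℤ) • (g - g1 - g2) = i1 + i2 - i := by
      rw [smul_sub, smul_sub, e0, e1, e2, ← hvw]
      abel
    rw [this]
    exact I.sub_mem (I.add_mem hi1 hi2) hi
  have hgm : g ∈ col (p : ℤ) a ⊓ (col (p : ℤ) b ⊔ col (p : ℤ) c) := by
    refine ⟨hgA, ?_⟩
    have : g = (g1 + (g - g1 - g2)) + g2 := by abel
    rw [this]
    exact Submodule.add_mem_sup (Submodule.add_mem _ hgB hr) hgC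
  rw [hdist] at hgm
  have hle : col (p : ℤ) a ⊓ col (p : ℤ) b ⊔ col (p : ℤ) a ⊓ col (p : ℤ) c ≤ col (p : ℤ) I := by
    refine sup_le ?_ ?_
    · rintro f ⟨h1, h2⟩
      refine mem_col.2 ⟨(mem_col.1 h1).1, ?_⟩
      rw [← h.ab]
      exact ⟨(mem_col.1 h1).2, (mem_col.1 h2).2⟩
    · rintro f ⟨h1, h2⟩
      refine mem_col.2 ⟨(mem_col.1 h1).1, ?_⟩
      rw [← h.ac]
      exact ⟨(mem_col.1 h1).2, (mem_col.1 h2).2⟩
  have hgI := (mem_col.1 (hle hgm)).2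
  apply huI
  have : u = i + (p : ℤ) • g := hig
  rw [SetLike.mem_coe, this]
  exact I.add_mem hi hgI

/-- no atom of a diamond is contained in `p ^ 2 P` -/
theorem not_le_p2 (hI : AlmDist I) (hK : mulI ((p ^ K : ℕ) : ℤ) Pp ≤ I) (h : Dia TI I a b c j) :
    ¬ a ≤ I ⊔ mulI ((p : ℤ) ^ 2) Pp := by
  intro ha2
  have haT : IsT a := h.ha
  have hbT : IsT b := h.hb
  have hcT : IsT c := h.hc
  obtain ⟨atA, atB, -⟩ := h.atom expo_TI_inf expo_TI_sup hI.expo_dist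
  -- `p a ≤ I`
  have hpa : mulI (p : ℤ) a ≤ I := by
    by_contra hcon
    have h1 : I ⊔ mulI (p : ℤ) a = a := atA _ (isT_sup hI.1 (isT_mulI haT _))
      (lt_of_le_of_ne le_sup_left fun h => hcon (h.symm ▸ le_sup_right))
      (sup_le h.oa.le (expo_mulI_self_le _ _))
    have h2 : ∀ k : ℕ, a ≤ I ⊔ mulI ((p ^ k : ℕ) : ℤ) a := by
      intro k
      induction k with
      | zero =>
        intro f hf
        exact Submodule.mem_sup_right (expo_mem_mulI.2 ⟨f, hf, by simp⟩)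
      | succ k ih =>
        intro f hf
        obtain ⟨i, hi, y, hy, rfl⟩ := Submodule.mem_sup.1 (ih hf)
        obtain ⟨g, hg, rfl⟩ := expo_mem_mulI.1 hy
        obtain ⟨i', hi', y', hy', rfl⟩ := Submodule.mem_sup.1 (h1.symm.le hg)
        obtain ⟨g', hg', rfl⟩ := expo_mem_mulI.1 hy'
        have : i + ((p ^ k : ℕ) : ℤ) • (i' + (p : ℤ) • g') =
            (i + ((p ^ k : ℕ) : ℤ) • i') + ((p ^ (k + 1) : ℕ) : ℤ) • g' := by
          rw [smul_add, smul_smul, ← add_assoc]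
          congr 2
        rw [this]
        exact Submodule.add_mem_sup (I.add_mem hi (I.smul_mem _ hi'))
          (expo_mem_mulI.2 ⟨g', hg', rfl⟩)
    have h3 : a ≤ I := (h2 K).trans (sup_le le_rfl ((expo_mulI_mono _ haT.le).trans hK))
    exact h.oa.not_ge h3
  have hple : mulI ((p : ℤ) ^ 2) Pp ≤ mulI (p : ℤ) Pp :=
    expo_mulI_dvd (Dvd.intro_left _ (by ring : (p : ℤ) * p = (p : ℤ) ^ 2)) _
  let B : Submodule ℤ P := col (p : ℤ) a ⊓ (I ⊔ mulI (p : ℤ) Pp)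
  have hBT : IsT B := isT_inf (isT_col haT _) (isT_sup hI.1 (isT_mulI isT_Pp _))
  have haB : a ≤ B := le_inf (fun f hf => mem_col.2 ⟨haT.le hf, a.smul_mem _ hf⟩)
    (ha2.trans (sup_le_sup_left hple I))
  have hBa : ∀ z ∈ B, (p : ℤ) • z ∈ a := fun z hz => (mem_col.1 hz.1).2
  obtain ⟨u, hua, huI⟩ := Set.exists_of_ssubset h.oa
  -- `a = I + p B`
  have hapB : a ≤ I ⊔ mulI (p : ℤ) B := by
    obtain ⟨i, hi, y, hy, hiy⟩ := Submodule.mem_sup.1 (ha2 hua)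
    obtain ⟨w, hw, rfl⟩ := expo_mem_mulI.1 hy
    have hg : (p : ℤ) • w ∈ B := by
      refine ⟨mem_col.2 ⟨Pp.smul_mem _ hw, ?_⟩, Submodule.mem_sup_right (expo_mem_mulI.2 ⟨w, hw, rfl⟩)⟩
      have : (p : ℤ) • (p : ℤ) • w = u - i := by rw [smul_smul, ← pow_two, ← hiy]; abel
      rw [this]
      exact a.sub_mem hua (h.oa.le hi)
    have h1 : u ∈ I ⊔ mulI (p : ℤ) B := by
      rw [← hiy]
      refine Submodule.add_mem_sup hi (expo_mem_mulI.2 ⟨_, hg, ?_⟩)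
      rw [smul_smul, ← pow_two]
    refine (atA _ (isT_sup hI.1 (isT_mulI hBT _)) (lt_of_le_of_ne le_sup_left fun h2 => huI ?_)
      (sup_le h.oa.le ?_)).symm.le
    · rw [SetLike.mem_coe, h2]
      exact h1
    · intro f hf
      obtain ⟨z, hz, rfl⟩ := expo_mem_mulI.1 hf
      exact hBa z hz
  let C : Submodule ℤ P :=
    { carrier := {w | ∃ z ∈ B, ∃ y ∈ b, (p : ℤ) • z + y ∈ c ∧ w = z + y}
      zero_mem' := ⟨0, B.zero_mem, 0, b.zero_mem, by simp, by simp⟩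
      add_mem' := by
        rintro _ _ ⟨z, hz, y, hy, h1, rfl⟩ ⟨z', hz', y', hy', h1', rfl⟩
        refine ⟨z + z', B.add_mem hz hz', y + y', b.add_mem hy hy', ?_, by abel⟩
        have : (p : ℤ) • (z + z') + (y + y') = ((p : ℤ) • z + y) + ((p : ℤ) • z' + y') := by
          rw [smul_add]; abel
        rw [this]
        exact c.add_mem h1 h1'
      smul_mem' := by
        rintro r _ ⟨z, hz, y, hy, h1, rfl⟩
        refine ⟨r • z, B.smul_mem _ hz, r • y, b.smul_mem _ hy, ?_, by rw [smul_add]⟩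
        rw [smul_comm, ← smul_add]
        exact c.smul_mem _ h1 }
  have hCmem : ∀ w, w ∈ C ↔ ∃ z ∈ B, ∃ y ∈ b, (p : ℤ) • z + y ∈ c ∧ w = z + y := fun w => Iff.rfl
  have hCT : IsT C := by
    refine ⟨?_, ?_, ?_, ?_⟩
    · rintro w ⟨z, hz, y, hy, -, rfl⟩
      exact Pp.add_mem (hBT.le hz) (hbT.le hy)
    · rintro w ⟨z, hz, y, hy, h1, rfl⟩ g
      refine (hCmem _).2 ⟨z * g, hBT.mul_right z hz g, y * g, hbT.mul_right y hy g, ?_, add_mul _ _ _⟩
      rw [← smul_mul_assoc, ← add_mul]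
      exact hcT.mul_right _ h1 g
    · rintro w ⟨z, hz, y, hy, h1, rfl⟩ g
      refine (hCmem _).2 ⟨g * z, hBT.mul_left z hz g, g * y, hbT.mul_left y hy g, ?_, mul_add _ _ _⟩
      rw [← mul_smul_comm, ← mul_add]
      exact hcT.mul_left _ h1 g
    · rintro φ hφ w ⟨z, hz, y, hy, h1, rfl⟩
      refine (hCmem _).2 ⟨φ z, hBT.subst φ hφ z hz, φ y, hbT.subst φ hφ y hy, ?_, map_add _ _ _⟩
      rw [← map_smul, ← map_add]
      exact hcT.subst φ hφ _ h1
  have haC : a ≤ C := by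
    intro z hz
    refine (hCmem _).2 ⟨z, haB hz, 0, b.zero_mem, ?_, (add_zero z).symm⟩
    rw [add_zero]
    exact h.oc.le (hpa (expo_mem_mulI.2 ⟨z, hz, rfl⟩))
  have haj : a ≤ j := by rw [← h.jab]; exact le_sup_left
  have hbj : b ≤ j := by rw [← h.jab]; exact le_sup_right
  have hjBC : j ≤ B ⊔ C := by
    rw [← h.jab]
    refine sup_le (haB.trans le_sup_left) ?_
    intro y hy
    have hy' : y ∈ a ⊔ c := by rw [h.jac]; exact hbj hy
    obtain ⟨a1, ha1, c1, hc1, hac⟩ := Submodule.mem_sup.1 hy'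
    obtain ⟨i, hi, q, hq, hiq⟩ := Submodule.mem_sup.1 (hapB ha1)
    obtain ⟨z, hz, rfl⟩ := expo_mem_mulI.1 hq
    have : y = z + (-z + y) := by abel
    rw [this]
    refine Submodule.add_mem_sup hz ((hCmem _).2 ⟨-z, B.neg_mem hz, y, hy, ?_, rfl⟩)
    have : (p : ℤ) • (-z) + y = i + c1 := by
      rw [smul_neg, ← hac, ← hiq]
      abel
    rw [this]
    exact c.add_mem (h.oc.le hi) hc1
  have hBb : B ⊓ b = I := by
    by_contra hne
    have h1 : B ⊓ b = b := atB _ (isT_inf hBT hbT)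
      (lt_of_le_of_ne (le_inf (h.oa.le.trans haB) h.ob.le) (Ne.symm hne)) inf_le_right
    have h2 : b ≤ B := inf_eq_right.1 h1
    apply not_le_p hI hK h
    rw [← h.jab]
    exact (sup_le haB h2).trans inf_le_right
  have hjB : j ⊓ B = a := by
    rw [← h.jab, sup_inf_assoc_of_le b haB, inf_comm b, hBb]
    exact sup_eq_left.2 h.oa.le
  have hd := hI.2.2 a haT h.oa j h.hj B hBT C hCT haj haB haC
  rw [inf_eq_left.2 hjBC, hjB] at hd
  have hjC : j ≤ C := by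
    rw [hd]
    exact sup_le haC inf_le_right
  obtain ⟨y0, hy0, hy0I⟩ := Set.exists_of_ssubset h.ob
  obtain ⟨z, hz, y, hy, h1, hzy⟩ := (hCmem _).1 (hjC (hbj hy0))
  have hzI : z ∈ I := by
    rw [← hBb]
    refine ⟨hz, ?_⟩
    have : z = y0 - y := by rw [hzy]; abel
    rw [this]
    exact b.sub_mem hy0 hy
  have hyI : y ∈ I := by
    rw [← h.bc]
    refine ⟨hy, ?_⟩
    have : y = ((p : ℤ) • z + y) - (p : ℤ) • z := by abel
    rw [this]
    exact c.sub_mem h1 (h.oc.le (I.smul_mem _ hzI))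
  apply hy0I
  rw [SetLike.mem_coe, hzy]
  exact I.add_mem hzI hyI

/-- almost distributive T-ideals contain `p ^ 2 x` -/
theorem exp2 (hI : AlmDist I) : ∃ p : ℕ, p.Prime ∧ mulI ((p : ℤ) ^ 2) Pp ≤ I := by
  obtain ⟨p, K, hp, hK⟩ := exists_prime_power hI
  refine ⟨p, hp, ?_⟩
  by_contra hcon
  obtain ⟨a, b, c, j, h⟩ := hI.expo_dia
  obtain ⟨atA, atB, atC⟩ := h.atom expo_TI_inf expo_TI_sup hI.expo_dist
  have hDT : IsT (I ⊔ mulI ((p : ℤ) ^ 2) Pp) := isT_sup hI.1 (isT_mulI isT_Pp _)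
  have hple : mulI ((p : ℤ) ^ 2) Pp ≤ mulI (p : ℤ) Pp :=
    expo_mulI_dvd (Dvd.intro_left _ (by ring : (p : ℤ) * p = (p : ℤ) ^ 2)) _
  obtain ⟨e, he⟩ : ∃ e, e = (I ⊔ mulI ((p : ℤ) ^ 2) Pp) ⊓ j := ⟨_, rfl⟩
  have heT : IsT e := by rw [he]; exact isT_inf hDT h.hj
  have hej : e ≤ j := by rw [he]; exact inf_le_right
  have heD : e ≤ I ⊔ mulI ((p : ℤ) ^ 2) Pp := by rw [he]; exact inf_le_left
  have hIj : I ≤ j := by rw [← h.jab]; exact h.oa.le.trans le_sup_left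
  have hIe : I ≤ e := by rw [he]; exact le_inf le_sup_left hIj
  have hlt : I < e := by
    refine lt_of_le_of_ne hIe fun h1 => hcon ?_
    have h2 := h.ess expo_TI_inf expo_TI_sup hI.expo_dist _ hDT le_sup_left (by rw [← he]; exact h1.symm)
    rw [← h2]
    exact le_sup_right
  have hje : ¬ j ≤ e := fun h1 => not_le_p hI hK h (h1.trans (heD.trans (sup_le_sup_left hple I)))
  -- an atom not below `e` meets `e` in `I`
  have mt : ∀ x ∈ TI, I < x → (∀ y ∈ TI, I < y → y ≤ x → y = x) → ¬ x ≤ e → e ⊓ x = I := by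
    intro x hx hIx hat hxe
    by_contra hne
    exact hxe (inf_eq_right.1 (hat _ (isT_inf heT hx) (lt_of_le_of_ne (le_inf hIe hIx.le)
      (Ne.symm hne)) inf_le_right))
  have fin : ∀ x ∈ TI, ∀ y ∈ TI, I < x → I < y → x ⊓ y = I → x ⊔ y = j → e ⊓ x = I → e ⊓ y = I →
      False := by
    intro x hx y hy hIx hIy hxy hxyj hex hey
    have hdia := dia_of expo_TI_inf expo_TI_sup hI.1 heT hx hy hlt hIx.le hIy.le hex hey hxy
      (by rw [hxyj]; exact hej)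
    exact not_le_p2 hI hK hdia heD
  by_cases hae : a ≤ e
  · have hbe : ¬ b ≤ e := fun h1 => hje (by rw [← h.jab]; exact sup_le hae h1)
    have hce : ¬ c ≤ e := fun h1 => hje (by rw [← h.jac]; exact sup_le hae h1)
    exact fin b h.hb c h.hc h.ob h.oc h.bc h.jbc (mt b h.hb h.ob atB hbe) (mt c h.hc h.oc atC hce)
  · by_cases hbe : b ≤ e
    · have hce : ¬ c ≤ e := fun h1 => hje (by rw [← h.jbc]; exact sup_le hbe h1)
      exact fin a h.ha c h.hc h.oa h.oc h.ac h.jac (mt a h.ha h.oa atA hae) (mt c h.hc h.oc atC hce)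
    · exact fin a h.ha b h.hb h.oa h.ob h.ab h.jab (mt a h.ha h.oa atA hae) (mt b h.hb h.ob atB hbe)

/-- exponents of almost distributive varieties -/
theorem exp2_var (V : Set RingObj) (hV : AlmostDistributive V) :
    ∃ p : ℕ, p.Prime ∧ ∀ R ∈ V, @Sat R.1 R.2 (((p ^ 2 : ℕ) : ℤ) • X 0) := by
  obtain ⟨I, hI, rfl⟩ := almDist_of hV
  obtain ⟨p, hp, h⟩ := exp2 hI
  refine ⟨p, hp, fun R hR => hR _ (h (expo_mem_mulI.2 ⟨X 0, ?_, ?_⟩))⟩
  · show aug (X 0) = 0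
    exact aug_X 0
  · push_cast
    rfl

end ADA
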