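import Pool.Agent.ADA.UpA
import Pool.Agent.ADA.Exp2
import Pool.Agent.ADA.Acc
import Pool.Agent.AD.ComC2

/-!
# ADA-ExpMain

The exponents of the almost distributive varieties of rings are the primes and the squares of primes.
-/

namespace ADA

theorem mod_anti' {S T : Set AD.P} (h : S ⊆ T) : AD.Mod T ⊆ AD.Mod S :=
  fun _ hR f hf => hR f (h hf)

theorem le_of_mod' {A B : Submodule ℤ AD.P} (hA : AD.IsT A) (hB : AD.IsT B)
    (h : AD.Mod (B : Set AD.P) ⊆ AD.Mod (A : Set AD.P)) : A ≤ B := by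
  intro f hf
  have : f ∈ AD.Th (AD.Mod (B : Set AD.P)) := ⟨hA.le hf, fun R hR => h hR f hf⟩
  rwa [AD.Th_Mod hB] at this

/-- the variety of an almost distributive T-ideal -/
theorem almDist_mod' {E : Submodule ℤ AD.P} (hE : AD.AlmDist E) :
    AD.AlmostDistributive (AD.Mod (E : Set AD.P)) := by
  obtain ⟨hT, hnd, hup⟩ := hE
  refine ⟨⟨E, fun _ hf => hT.le hf, rfl⟩, fun h => hnd ((AD.distributive_iff hT).1 h), ?_⟩
  intro W hW hlt
  obtain ⟨x, hx, hxW⟩ : ∃ x : Submodule ℤ AD.P, AD.IsT x ∧ W = AD.Mod (x : Set AD.P) := by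
    obtain ⟨x, hx, hx2⟩ := AD.exists_Th W
    refine ⟨x, hx, ?_⟩
    obtain ⟨S, hS, rfl⟩ := hW
    rw [hx2]
    apply Set.Subset.antisymm
    · intro R hR f hf
      exact hf.2 R hR
    · exact mod_anti' (fun f hf => ⟨hS hf, fun R hR => hR f hf⟩)
  subst hxW
  rw [AD.distributive_iff hx]
  refine hup x hx (lt_of_le_of_ne (le_of_mod' hT hx hlt.subset) ?_)
  rintro rfl
  exact hlt.ne rfl

/-- the exponent of a variety -/
def HasExp (V : Set AD.RingObj) (m : ℕ) : Prop :=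
  ∀ n : ℕ, (∀ R ∈ V, @AD.Sat R.1 R.2 ((n : ℤ) • AD.X 0)) ↔ m ∣ n

theorem X_Pp (i : ℕ) : AD.X i ∈ AD.Pp := AD.aug_X i

theorem sat_iff {I : Submodule ℤ AD.P} (hI : AD.IsT I) (n : ℕ) :
    (∀ R ∈ AD.Mod (I : Set AD.P), @AD.Sat R.1 R.2 ((n : ℤ) • AD.X 0)) ↔ (n : ℤ) • AD.X 0 ∈ I := by
  constructor
  · intro h
    have : (n : ℤ) • AD.X 0 ∈ AD.Th (AD.Mod (I : Set AD.P)) :=
      ⟨AD.Pp.smul_mem _ (X_Pp 0), h⟩
    rwa [AD.Th_Mod hI] at this
  · intro h R hR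
    exact hR _ h

theorem mulI_le {I : Submodule ℤ AD.P} (hI : AD.IsT I) {n : ℤ} (h : n • AD.X 0 ∈ I) :
    AD.mulI n AD.Pp ≤ I := by
  intro f hf
  obtain ⟨g, hg, rfl⟩ := AD.expo_mem_mulI.1 hf
  have hg' : AD.aug g = 0 := hg
  have h1 := hI.subst (AD.subAll g) (AD.subAll_isSubst hg') _ h
  rw [map_smul, AD.subAll_X] at h1
  exact h1

theorem not_mem {I : Submodule ℤ AD.P} (hI : AD.AlmDist I) : AD.X 0 ∉ I := by
  intro h
  obtain ⟨a, b, c, j, hd⟩ := hI.expo_dia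
  have h1 : AD.Pp ≤ I := by
    intro f hf
    apply mulI_le hI.1 (n := 1) (by rwa [one_smul])
    exact AD.expo_mem_mulI.2 ⟨f, hf, one_smul _ _⟩
  have haT : AD.IsT a := hd.ha
  exact hd.oa.not_ge (haT.le.trans h1)

theorem gcd_mem {I : Submodule ℤ AD.P} {m n : ℕ} (hm : (m : ℤ) • AD.X 0 ∈ I)
    (hn : (n : ℤ) • AD.X 0 ∈ I) : ((Nat.gcd m n : ℕ) : ℤ) • AD.X 0 ∈ I := by
  rw [Nat.gcd_eq_gcd_ab, add_smul, mul_comm (m : ℤ), mul_comm (n : ℤ), mul_smul, mul_smul]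
  exact I.add_mem (I.smul_mem _ hm) (I.smul_mem _ hn)

theorem mon_com (w : List ℕ) : AD.com (AD.mon w) ∈ (AD.mm ℤ) ^ w.length := by
  induction w with
  | nil => simp [AD.mon]
  | cons a w ih =>
    have : AD.mon (a :: w) = AD.X a * AD.mon w := by simp [AD.mon]
    rw [this, map_mul, com_X, List.length_cons, pow_succ']
    exact Ideal.mul_mem_mul (X_mem a) ih

theorem mon_comp (p : ℕ) (w : List ℕ) : AD.comp p (AD.mon w) ∈ (AD.mm (ZMod p)) ^ w.length := by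
  induction w with
  | nil => simp [AD.mon]
  | cons a w ih =>
    have : AD.mon (a :: w) = AD.X a * AD.mon w := by simp [AD.mon]
    rw [this, map_mul, comp_X, List.length_cons, pow_succ']
    exact Ideal.mul_mem_mul (X_mem a) ih

theorem mon_Pp {w : List ℕ} (h : 1 ≤ w.length) : AD.mon w ∈ AD.Pp := by
  cases w with
  | nil => simp at h
  | cons a w =>
    have : AD.mon (a :: w) = AD.X a * AD.mon w := by simp [AD.mon]
    rw [this]
    exact AD.isT_Pp.mul_right _ (X_Pp a) _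

theorem nil_UP (p : ℕ) : ADN.NilAt (UP p) (p + 1) := by
  intro w hw
  exact mem_UP.2 ⟨mon_Pp (by omega), kp_top (Ideal.pow_le_pow_right hw (mon_com w))⟩

theorem nil_TC (p : ℕ) : ADN.NilAt (AD.TC p) (p ^ 2 + p + 2) := by
  intro w hw
  exact ⟨mon_Pp (by omega), Ideal.pow_le_pow_right hw (mon_comp p w)⟩

/-- exponent `p` -/
theorem exists_p {p : ℕ} (hp : p.Prime) : ∃ V, AD.AlmostDistributive V ∧ HasExp V p := by
  have : Fact p.Prime := ⟨hp⟩
  obtain ⟨E, hE, hA⟩ := exists_almDist (AD.isT_TC p) (nil_TC p) (AD.not_dist_TC p)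
  have hpE : (p : ℤ) • AD.X 0 ∈ E := by
    refine hE ⟨AD.Pp.smul_mem _ (X_Pp 0), ?_⟩
    show AD.comp p ((p : ℤ) • AD.X 0) ∈ (AD.mm (ZMod p)) ^ (p ^ 2 + p + 2)
    have : AD.comp p ((p : ℤ) • AD.X 0) = 0 := by
      rw [map_smul, comp_X]
      have h0 : ((p : ℤ) : ZMod p) = 0 := by simp
      ext m
      rw [MvPolynomial.coeff_smul, MvPolynomial.coeff_zero, zsmul_eq_mul, h0, zero_mul]
    rw [this]
    exact Ideal.zero_mem _
  refine ⟨AD.Mod (E : Set AD.P), almDist_mod' hA, fun n => ?_⟩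
  rw [sat_iff hA.1]
  constructor
  · intro h
    have h1 := gcd_mem hpE h
    rcases (Nat.dvd_prime hp).1 (Nat.gcd_dvd_left p n) with h2 | h2
    · rw [h2] at h1
      exact absurd (by simpa using h1) (not_mem hA)
    · exact Nat.gcd_eq_left_iff_dvd.1 h2
  · rintro ⟨k, rfl⟩
    rw [Nat.cast_mul, mul_comm, mul_smul]
    exact E.smul_mem _ hpE

/-- exponent `p ^ 2` -/
theorem exists_p2 {p : ℕ} (hp : p.Prime) : ∃ V, AD.AlmostDistributive V ∧ HasExp V (p ^ 2) := by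
  have : Fact p.Prime := ⟨hp⟩
  obtain ⟨E, hE, hA⟩ := exists_almDist (isT_UP (p := p)) (nil_UP p) (not_dist_UP hp)
  have hpE : ((p ^ 2 : ℕ) : ℤ) • AD.X 0 ∈ E := by
    refine hE (mem_UP.2 ⟨AD.Pp.smul_mem _ (X_Pp 0), ?_⟩)
    rw [map_smul, com_X, zsmul_eq_mul]
    have := kp_sq (p := p) (X_mem (R := ℤ) 0)
    push_cast
    exact this
  have hne : (p : ℤ) • AD.X 0 ∉ E := by
    intro h
    apply hA.2.1
    have h1 : CP p ≤ E := CP_le.trans (sup_le hE (mulI_le hA.1 h))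
    intro x hx y hy z hz h2 h3 h4
    exact dist_CP x hx y hy z hz (h1.trans h2) (h1.trans h3) (h1.trans h4)
  refine ⟨AD.Mod (E : Set AD.P), almDist_mod' hA, fun n => ?_⟩
  rw [sat_iff hA.1]
  constructor
  · intro h
    have h1 := gcd_mem hpE h
    obtain ⟨k, hk, h2⟩ := (Nat.dvd_prime_pow hp).1 (Nat.gcd_dvd_left (p ^ 2) n)
    rw [h2] at h1
    have hk2 : k = 2 := by
      by_contra hk2
      have hk1 : k = 0 ∨ k = 1 := by omega
      rcases hk1 with rfl | rfl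
      · exact not_mem hA (by simpa using h1)
      · exact hne (by simpa using h1)
    rw [hk2] at h2
    exact Nat.gcd_eq_left_iff_dvd.1 h2
  · rintro ⟨k, rfl⟩
    rw [Nat.cast_mul, mul_comm, mul_smul]
    exact E.smul_mem _ hpE

/-- the exponents of the almost distributive varieties -/
theorem exponents (m : ℕ) : (∃ V, AD.AlmostDistributive V ∧ HasExp V m) ↔
    ∃ p : ℕ, p.Prime ∧ (m = p ∨ m = p ^ 2) := by
  constructor
  · rintro ⟨V, hV, hm⟩
    obtain ⟨I, hI, rfl⟩ := AD.almDist_of hV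
    obtain ⟨p, hp, h⟩ := exp2 hI
    refine ⟨p, hp, ?_⟩
    have h1 : ((p ^ 2 : ℕ) : ℤ) • AD.X 0 ∈ I := by
      apply h
      refine AD.expo_mem_mulI.2 ⟨AD.X 0, X_Pp 0, ?_⟩
      push_cast
      rfl
    have h2 : m ∣ p ^ 2 := (hm _).1 ((sat_iff hI.1 _).2 h1)
    obtain ⟨k, hk, rfl⟩ := (Nat.dvd_prime_pow hp).1 h2
    have h3 : k ≠ 0 := by
      rintro rfl
      have h4 := (sat_iff hI.1 1).1 ((hm 1).2 (by simp))
      exact not_mem hI (by simpa using h4)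
    have h5 : k = 1 ∨ k = 2 := by omega
    rcases h5 with rfl | rfl
    · exact Or.inl (pow_one p)
    · exact Or.inr rfl
  · rintro ⟨p, hp, rfl | rfl⟩
    · exact exists_p hp
    · exact exists_p2 hp

end ADA
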