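import Pool.Agent.AD.Ess
import Pool.Agent.AD.Lat

/-!
# ADA-Lat

Diamonds of atoms in modular lattices (no minimality assumption).
-/

namespace ADA

open AD

variable {L : Type*} [Lattice L] [IsModularLattice L] {S : Set L} {o a b c j k : L}

/-- atoms over `o`, among the elements of `S` -/
def Atm (S : Set L) (o a : L) : Prop := ∀ x ∈ S, o < x → x ≤ a → x = a

theorem ml {u v w : L} (h : w ≤ u) : u ⊓ (v ⊔ w) = (u ⊓ v) ⊔ w := by
  rw [inf_comm u (v ⊔ w), sup_comm v w, sup_inf_assoc_of_le v h, inf_comm v u, sup_comm]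

/-- pushing an atom -/
theorem atm_push (hi : ∀ x ∈ S, ∀ y ∈ S, x ⊓ y ∈ S) (ha : a ∈ S) (hA : Atm S o a) (hak : a ⊓ k = o) :
    Atm S k (a ⊔ k) := by
  intro x hx hkx hxa
  have h1 : x = (x ⊓ a) ⊔ k := by
    rw [← ml hkx.le]
    exact (inf_eq_left.2 hxa).symm
  have hok : o ≤ k := by rw [← hak]; exact inf_le_right
  have hoa : o ≤ a := by rw [← hak]; exact inf_le_left
  by_cases h2 : x ⊓ a = o
  · rw [h2, sup_eq_right.2 hok] at h1
    exact absurd hkx (by rw [h1]; exact lt_irrefl _)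
  · have h3 : x ⊓ a = a := hA _ (hi _ hx _ ha)
      (lt_of_le_of_ne (le_inf (hok.trans hkx.le) hoa) (Ne.symm h2)) inf_le_right
    rw [h3] at h1
    exact h1

/-- perspective elements of a diamond are atoms -/
theorem atm_persp (hi : ∀ x ∈ S, ∀ y ∈ S, x ⊓ y ∈ S) (hs : ∀ x ∈ S, ∀ y ∈ S, x ⊔ y ∈ S)
    (h : Dia S o a b c j) (hA : Atm S o a) : Atm S o b := by
  intro k hk hok hkb
  by_cases h1 : (k ⊔ c) ⊓ a = o
  · exfalso
    have hkj : k ⊔ c ≤ a ⊔ c := by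
      rw [h.jac, ← h.jbc]
      exact sup_le_sup_right hkb c
    have h2 : (k ⊔ c) ⊓ (a ⊔ c) = ((k ⊔ c) ⊓ a) ⊔ c := ml le_sup_right
    rw [inf_eq_left.2 hkj, h1, sup_eq_right.2 h.oc.le] at h2
    have h3 : k ≤ c := by rw [← h2]; exact le_sup_left
    have h4 : k ≤ o := by rw [← h.bc]; exact le_inf hkb h3
    exact absurd hok (not_lt_of_ge h4)
  · have h2 : (k ⊔ c) ⊓ a = a := hA _ (hi _ (hs _ hk _ h.hc) _ h.ha)
      (lt_of_le_of_ne (le_inf (hok.le.trans le_sup_left) h.oa.le) (Ne.symm h1)) inf_le_right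
    have h3 : a ≤ k ⊔ c := inf_eq_right.1 h2
    have h4 : b ≤ k ⊔ c := by
      have : a ⊔ c ≤ k ⊔ c := sup_le h3 le_sup_right
      rw [h.jac, ← h.jbc] at this
      exact le_sup_left.trans this
    have h5 : b ⊓ (c ⊔ k) = (b ⊓ c) ⊔ k := ml hkb
    rw [sup_comm c k, inf_eq_left.2 h4, h.bc, sup_eq_right.2 hok.le] at h5
    exact h5.symm

theorem dia_swapBC (h : Dia S o a b c j) : Dia S o a c b j := h.swapAB.swapAC.swapAB

theorem atm_persp' (hi : ∀ x ∈ S, ∀ y ∈ S, x ⊓ y ∈ S) (hs : ∀ x ∈ S, ∀ y ∈ S, x ⊔ y ∈ S)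
    (h : Dia S o a b c j) (hA : Atm S o a) : Atm S o c :=
  atm_persp hi hs (dia_swapBC h) hA

/-- a diamond can be pushed along an element meeting its top in its bottom -/
theorem dia_push (hs : ∀ x ∈ S, ∀ y ∈ S, x ⊔ y ∈ S) (h : Dia S o a b c j) (hk : k ∈ S)
    (hkj : k ⊓ j = o) : Dia S k (a ⊔ k) (b ⊔ k) (c ⊔ k) (j ⊔ k) := by
  have haj : a ≤ j := by rw [← h.jab]; exact le_sup_left
  have hbj : b ≤ j := by rw [← h.jab]; exact le_sup_right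
  have hcj : c ≤ j := by rw [← h.jac]; exact le_sup_right
  have hok : o ≤ k := by rw [← hkj]; exact inf_le_left
  have lt : ∀ x, o < x → x ≤ j → k < x ⊔ k := by
    intro x hox hxj
    refine lt_of_le_of_ne le_sup_right fun h1 => ?_
    have h2 : x ≤ k := by rw [h1]; exact le_sup_left
    have h3 : x ≤ o := by rw [← hkj]; exact le_inf h2 hxj
    exact absurd hox (not_lt_of_ge h3)
  have sup2 : ∀ x y, x ⊔ y = j → (x ⊔ k) ⊔ (y ⊔ k) = j ⊔ k := by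
    intro x y hxy
    rw [← sup_sup_distrib_right, hxy]
  exact
    { ho := hk
      ha := hs _ h.ha _ hk
      hb := hs _ h.hb _ hk
      hc := hs _ h.hc _ hk
      hj := hs _ h.hj _ hk
      oa := lt a h.oa haj
      ob := lt b h.ob hbj
      oc := lt c h.oc hcj
      ab := Dia.essAux h k hkj
      ac := Dia.essAux (dia_swapBC h) k hkj
      bc := by
        have h1 : Dia S o b c a j := h.swapAB |> dia_swapBC
        exact Dia.essAux h1 k hkj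
      jab := sup2 a b h.jab
      jbc := sup2 b c h.jbc
      jac := sup2 a c h.jac }

/-- the last step of the construction of a diamond -/
theorem dia_of (hi : ∀ x ∈ S, ∀ y ∈ S, x ⊓ y ∈ S) (hs : ∀ x ∈ S, ∀ y ∈ S, x ⊔ y ∈ S)
    (ho : o ∈ S) (ha : a ∈ S) (hb : b ∈ S) (hc : c ∈ S) (oa : o < a) (ob : o ≤ b) (oc : o ≤ c)
    (hab : a ⊓ b = o) (hac : a ⊓ c = o) (hbc : b ⊓ c = o) (abc : a ≤ b ⊔ c) :
    Dia S o a (b ⊓ (a ⊔ c)) (c ⊓ (a ⊔ b)) ((a ⊔ b) ⊓ (a ⊔ c)) := by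
  have hoa : o ≤ a := oa.le
  have hjb : a ⊔ b ⊓ (a ⊔ c) = (a ⊔ b) ⊓ (a ⊔ c) := (sup_inf_assoc_of_le b le_sup_left).symm
  have hjc : a ⊔ c ⊓ (a ⊔ b) = (a ⊔ b) ⊓ (a ⊔ c) := by
    rw [inf_comm (a ⊔ b)]
    exact (sup_inf_assoc_of_le c le_sup_left).symm
  have hjbc : b ⊓ (a ⊔ c) ⊔ c ⊓ (a ⊔ b) = (a ⊔ b) ⊓ (a ⊔ c) := by
    have e1 : b ⊓ (a ⊔ c) ⊔ c ⊓ (a ⊔ b) = (a ⊔ c) ⊓ (b ⊔ c ⊓ (a ⊔ b)) := by
      rw [ml (inf_le_left.trans le_sup_right : c ⊓ (a ⊔ b) ≤ a ⊔ c), inf_comm b]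
    have e2 : b ⊔ c ⊓ (a ⊔ b) = a ⊔ b := by
      rw [← sup_inf_assoc_of_le c (le_sup_right : b ≤ a ⊔ b)]
      exact inf_eq_right.2 (sup_le abc le_sup_left)
    rw [e1, e2, inf_comm]
  have ob' : o ≤ b ⊓ (a ⊔ c) := le_inf ob (le_sup_of_le_left hoa)
  have oc' : o ≤ c ⊓ (a ⊔ b) := le_inf oc (le_sup_of_le_left hoa)
  have hab' : a ⊓ (b ⊓ (a ⊔ c)) = o :=
    le_antisymm (by rw [← hab]; exact inf_le_inf_left _ inf_le_left) (le_inf hoa ob')
  have hac' : a ⊓ (c ⊓ (a ⊔ b)) = o :=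
    le_antisymm (by rw [← hac]; exact inf_le_inf_left _ inf_le_left) (le_inf hoa oc')
  have hbc' : (b ⊓ (a ⊔ c)) ⊓ (c ⊓ (a ⊔ b)) = o :=
    le_antisymm (by rw [← hbc]; exact inf_le_inf inf_le_left inf_le_left) (le_inf ob' oc')
  have haj : a ≤ (a ⊔ b) ⊓ (a ⊔ c) := le_inf le_sup_left le_sup_left
  have nb : o ≠ b ⊓ (a ⊔ c) := by
    intro h
    rw [← h, sup_eq_left.2 hoa] at hjb
    rw [← h] at hjbc
    rw [← hjb] at hjc hjbc
    have h1 : c ⊓ (a ⊔ b) ≤ a := le_sup_right.trans hjc.le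
    have h2 : c ⊓ (a ⊔ b) = o := by rw [← hac']; exact (inf_eq_right.2 h1).symm
    rw [h2, sup_idem] at hjbc
    exact oa.ne hjbc
  have nc : o ≠ c ⊓ (a ⊔ b) := by
    intro h
    rw [← h, sup_eq_left.2 hoa] at hjc
    rw [← h] at hjbc
    rw [← hjc] at hjb hjbc
    have h1 : b ⊓ (a ⊔ c) ≤ a := le_sup_right.trans hjb.le
    have h2 : b ⊓ (a ⊔ c) = o := by rw [← hab']; exact (inf_eq_right.2 h1).symm
    rw [h2, sup_idem] at hjbc
    exact oa.ne hjbc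
  exact ⟨ho, ha, hi _ hb _ (hs _ ha _ hc),
    hi _ hc _ (hs _ ha _ hb), hi _ (hs _ ha _ hb) _ (hs _ ha _ hc), oa, lt_of_le_of_ne ob' nb,
    lt_of_le_of_ne oc' nc, hab', hbc', hac', hjb, hjbc, hjc⟩

theorem chainAux (hi : ∀ x ∈ S, ∀ y ∈ S, x ⊓ y ∈ S) (hs : ∀ x ∈ S, ∀ y ∈ S, x ⊔ y ∈ S)
    (hA : Atm S o a) (hB : Atm S o b) (h : Dia S o a b c j) (e : L) (he : e ∈ S) (hej : e ≤ j)
    (hae : ¬ a ≤ e) (y : L) (hy : y ∈ S) (hoy : o < y) (hye : y ≤ e) : y = e := by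
  have hoe : o ≤ e := hoy.le.trans hye
  have hoae : o ≤ a ⊓ e := le_inf h.oa.le hoe
  have h1 : a ⊓ e = o := by
    by_contra hne
    have := hA _ (hi _ h.ha _ he) (lt_of_le_of_ne hoae (Ne.symm hne)) inf_le_left
    exact hae (inf_eq_left.1 this)
  have h2 : a ⊓ y = o := by
    apply le_antisymm
    · rw [← h1]
      exact inf_le_inf_left a hye
    · exact le_inf h.oa.le hoy.le
  have haj : a ≤ j := by rw [← h.jab]; exact le_sup_left
  have hmj : y ⊔ a ≤ j := sup_le (hye.trans hej) haj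
  have hm : y ⊔ a ∈ S := hs _ hy _ h.ha
  have homb : o ≤ (y ⊔ a) ⊓ b := le_inf (h.oa.le.trans le_sup_right) h.ob.le
  have h3 : (y ⊔ a) ⊓ b = b := by
    by_contra hne
    have h4 : (y ⊔ a) ⊓ b = o := by
      by_contra hne2
      exact hne (hB _ (hi _ hm _ h.hb) (lt_of_le_of_ne homb (Ne.symm hne2)) inf_le_right)
    have h5 : (a ⊔ b) ⊓ (y ⊔ a) = a ⊔ b ⊓ (y ⊔ a) := sup_inf_assoc_of_le b le_sup_right
    rw [h.jab, inf_eq_right.2 hmj, inf_comm b, h4, sup_eq_left.2 h.oa.le] at h5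
    have h6 : y ≤ a := by rw [← h5]; exact le_sup_left
    rw [inf_eq_right.2 h6] at h2
    exact absurd hoy (by rw [h2]; exact lt_irrefl _)
  have h7 : b ≤ y ⊔ a := inf_eq_right.1 h3
  have h8 : j ≤ y ⊔ a := by rw [← h.jab]; exact sup_le le_sup_right h7
  have h9 : (y ⊔ a) ⊓ e = y ⊔ a ⊓ e := sup_inf_assoc_of_le a hye
  rw [h1, inf_eq_right.2 (hej.trans h8), sup_eq_left.2 hoy.le] at h9
  exact h9.symm

/-- descending chains meeting the top of a diamond of atoms -/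
theorem chain (hi : ∀ x ∈ S, ∀ y ∈ S, x ⊓ y ∈ S) (hs : ∀ x ∈ S, ∀ y ∈ S, x ⊔ y ∈ S)
    (hA : Atm S o a) (hB : Atm S o b) (h : Dia S o a b c j) (D : ℕ → L) (hD : ∀ k, D k ∈ S)
    (hanti : Antitone D) (hoD : ∀ k, o ≤ D k) (hne : ∀ k, D k ⊓ j ≠ o) :
    ∃ e ∈ S, o < e ∧ ∀ k, e ≤ D k := by
  have haj : a ≤ j := by rw [← h.jab]; exact le_sup_left
  by_cases hall : ∀ k, D k ⊓ j = j
  · refine ⟨a, h.ha, h.oa, fun k => haj.trans (inf_eq_right.1 (hall k))⟩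
  push Not at hall
  obtain ⟨K, hK⟩ := hall
  have hoj : o ≤ j := h.oa.le.trans haj
  have hpos : ∀ k, o < D k ⊓ j := fun k => lt_of_le_of_ne (le_inf (hoD k) hoj) (Ne.symm (hne k))
  have heS : D K ⊓ j ∈ S := hi _ (hD K) _ h.hj
  refine ⟨D K ⊓ j, heS, hpos K, fun k => ?_⟩
  rcases le_total k K with hk | hk
  · exact inf_le_left.trans (hanti hk)
  · have hle : D k ⊓ j ≤ D K ⊓ j := inf_le_inf_right j (hanti hk)
    have hor : ¬ a ≤ D K ⊓ j ∨ ¬ b ≤ D K ⊓ j := by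
      by_contra hcon
      push Not at hcon
      apply hK
      refine le_antisymm inf_le_right ?_
      calc j = a ⊔ b := h.jab.symm
        _ ≤ D K ⊓ j := sup_le hcon.1 hcon.2
    have heq : D k ⊓ j = D K ⊓ j := by
      rcases hor with h1 | h1
      · exact chainAux hi hs hA hB h _ heS inf_le_right h1 _ (hi _ (hD k) _ h.hj) (hpos k) hle
      · exact chainAux hi hs hB hA h.swapAB _ heS inf_le_right h1 _ (hi _ (hD k) _ h.hj)
          (hpos k) hle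
    rw [← heq]
    exact inf_le_left

end ADA
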