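import Pool.Agent.ADA.Core
import Pool.Agent.ADA.Acc
import Pool.Agent.AD.Trans2

/-!
# ADA-Main

A variety of rings whose lattice of subvarieties is not distributive contains an almost
distributive variety which is nilpotent.
-/

namespace ADA

open AD
open ADN (NilAt)

theorem exists_alm {I : Submodule ℤ P} (hnd : ¬ DistOn TI I) :
    ∃ E n, I ≤ E ∧ AlmDist E ∧ NilAt E n := by
  by_contra hcon
  apply hnd
  apply dist_of_nil
  rintro D hD hID ⟨n, hn⟩
  by_contra hnd2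
  obtain ⟨E, hDE, hE⟩ := exists_almDist hD hn hnd2
  exact hcon ⟨E, n, hID.trans hDE, hE, fun w hw => hDE (hn w hw)⟩

theorem mod_anti {S T : Set P} (h : S ⊆ T) : AD.Mod T ⊆ AD.Mod S :=
  fun _ hR f hf => hR f (h hf)

theorem mod_Th {A : Set RingObj} (hA : IsVariety A) : AD.Mod (Th A) = A := by
  obtain ⟨S, hS, rfl⟩ := hA
  apply Set.Subset.antisymm
  · exact mod_anti (fun f hf => ⟨hS hf, fun R hR => hR f hf⟩)
  · intro R hR f hf
    exact hf.2 R hR

theorem exists_T {A : Set RingObj} (hA : IsVariety A) :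
    ∃ x : Submodule ℤ P, IsT x ∧ (x : Set P) = Th A ∧ A = AD.Mod (x : Set P) := by
  obtain ⟨x, hx, hx2⟩ := exists_Th A
  exact ⟨x, hx, hx2, by rw [hx2, mod_Th hA]⟩

theorem mod_isVariety {I : Submodule ℤ P} (hI : IsT I) : IsVariety (AD.Mod (I : Set P)) :=
  ⟨I, fun _ hf => hI.le hf, rfl⟩

theorem le_of_mod {A B : Submodule ℤ P} (hA : IsT A) (hB : IsT B)
    (h : AD.Mod (B : Set P) ⊆ AD.Mod (A : Set P)) : A ≤ B := by
  intro f hf
  have : f ∈ Th (AD.Mod (B : Set P)) := ⟨hA.le hf, fun R hR => h hR f hf⟩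
  rwa [Th_Mod hB] at this

/-- the variety of an almost distributive T-ideal -/
theorem almDist_mod {E : Submodule ℤ P} (hE : AlmDist E) : AlmostDistributive (AD.Mod (E : Set P)) := by
  obtain ⟨hT, hnd, hup⟩ := hE
  refine ⟨mod_isVariety hT, fun h => hnd ((distributive_iff hT).1 h), ?_⟩
  intro W hW hlt
  obtain ⟨x, hx, -, rfl⟩ := exists_T hW
  rw [distributive_iff hx]
  have h1 : E ≤ x := le_of_mod hT hx hlt.subset
  refine hup x hx (lt_of_le_of_ne h1 ?_)
  rintro rfl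
  exact hlt.ne rfl

/-- the main theorem -/
theorem final (V : Set RingObj) (hV : IsVariety V) (hnd : ¬ Distributive V) :
    ∃ W : Set RingObj, W ⊆ V ∧ AlmostDistributive W ∧
      ∃ n : ℕ, 1 ≤ n ∧ ∀ R ∈ W, @Sat R.1 R.2 (((List.range n).map (FreeAlgebra.ι ℤ)).prod) := by
  obtain ⟨I, hI, -, rfl⟩ := exists_T hV
  rw [distributive_iff hI] at hnd
  obtain ⟨E, n, hIE, hE, hn⟩ := exists_alm hnd
  refine ⟨AD.Mod (E : Set P), mod_anti hIE, almDist_mod hE, n + 1, by omega, ?_⟩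
  intro R hR
  apply hR
  exact hn (List.range (n + 1)) (by simp)

end ADA
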