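import Pool.Agent.ADA.Lat
import Pool.Agent.AD.Tlat
import Pool.Agent.AD.Expo
import Pool.Agent.ADN.Defs

/-!
# ADA-Pre

Every T-ideal with a failure of distributivity above it is contained in the bottom of a diamond of atoms with
essential top.
-/

namespace ADA

open AD ADN

/-- a diamond of atoms with essential top above `I`, and all nilpotent T-ideals above `I` are distributive -/
structure Pre (I a b c j : Submodule ℤ P) : Prop where
  dia : Dia TI I a b c j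
  atmA : Atm TI I a
  atmB : Atm TI I b
  atmC : Atm TI I c
  ess : ∀ x ∈ TI, I ≤ x → x ⊓ j = I → x = I
  nd : ∀ D, IsT D → I ≤ D → (∃ n, NilAt D n) → DistOn TI D

theorem Pre.isT {I a b c j : Submodule ℤ P} (h : Pre I a b c j) : IsT I := h.dia.ho

theorem isT_sSup {s : Set (Submodule ℤ P)} (hs : ∀ x ∈ s, IsT x) (hch : IsChain (· ≤ ·) s)
    (hne : s.Nonempty) : IsT (sSup s) := by
  have key : ∀ f, f ∈ sSup s ↔ ∃ y ∈ s, f ∈ y := fun f =>
    Submodule.mem_sSup_of_directed hne hch.directedOn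
  refine ⟨?_, ?_, ?_, ?_⟩
  · exact sSup_le fun x hx => (hs x hx).le
  · intro f hf g
    obtain ⟨y, hy, hfy⟩ := (key f).1 hf
    exact (key _).2 ⟨y, hy, (hs y hy).mul_right f hfy g⟩
  · intro f hf g
    obtain ⟨y, hy, hfy⟩ := (key f).1 hf
    exact (key _).2 ⟨y, hy, (hs y hy).mul_left f hfy g⟩
  · intro φ hφ f hf
    obtain ⟨y, hy, hfy⟩ := (key f).1 hf
    exact (key _).2 ⟨y, hy, (hs y hy).subst φ hφ f hfy⟩

theorem isT_sInf {s : Set (Submodule ℤ P)} (hs : ∀ x ∈ s, IsT x) (hne : s.Nonempty) :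
    IsT (sInf s) := by
  refine ⟨?_, ?_, ?_, ?_⟩
  · obtain ⟨x, hx⟩ := hne
    exact (sInf_le hx).trans (hs x hx).le
  · intro f hf g
    rw [Submodule.mem_sInf] at hf ⊢
    exact fun x hx => (hs x hx).mul_right f (hf x hx) g
  · intro f hf g
    rw [Submodule.mem_sInf] at hf ⊢
    exact fun x hx => (hs x hx).mul_left f (hf x hx) g
  · intro φ hφ f hf
    rw [Submodule.mem_sInf] at hf ⊢
    exact fun x hx => (hs x hx).subst φ hφ f (hf x hx)

/-- the first application of Zorn's lemma -/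
theorem exists_dia {I : Submodule ℤ P} (hn : ¬ DistOn TI I) :
    ∃ o a b c j, I ≤ o ∧ Dia TI o a b c j ∧ Atm TI o a := by
  unfold DistOn at hn
  push Not at hn
  obtain ⟨x, hx, y, hy, z, hz, Ix, Iy, Iz, hne⟩ := hn
  have hi := expo_TI_inf
  have hs := expo_TI_sup
  have hle : (x ⊓ y) ⊔ (x ⊓ z) ≤ x ⊓ (y ⊔ z) :=
    sup_le (inf_le_inf_left _ le_sup_left) (inf_le_inf_left _ le_sup_right)
  obtain ⟨f, hf1, hf0⟩ := SetLike.exists_of_lt (lt_of_le_of_ne hle (Ne.symm hne))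
  have hfx : f ∈ x := (Submodule.mem_inf.1 hf1).1
  have hfyz : f ∈ y ⊔ z := (Submodule.mem_inf.1 hf1).2
  set o₀ := (x ⊓ y) ⊔ (x ⊓ z) with ho₀
  have hf00 : f ∉ o₀ := hf0
  have ho₀T : o₀ ∈ TI := hs _ (hi _ hx _ hy) _ (hi _ hx _ hz)
  have ho₀x : o₀ ≤ x := sup_le inf_le_left inf_le_left
  have hIo₀ : I ≤ o₀ := le_sup_of_le_left (le_inf Ix Iy)
  obtain ⟨o, ho₀o, ho⟩ := zorn_le_nonempty₀ {k : Submodule ℤ P | k ∈ TI ∧ o₀ ≤ k ∧ k ≤ x ∧ f ∉ k}
    (by
      intro s hsub hch k hk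
      have hne : s.Nonempty := ⟨k, hk⟩
      refine ⟨sSup s, ⟨isT_sSup (fun u hu => (hsub hu).1) hch hne, ?_, ?_, ?_⟩, fun u hu => le_sSup hu⟩
      · exact (hsub hk).2.1.trans (le_sSup hk)
      · exact sSup_le fun u hu => (hsub hu).2.2.1
      · intro hfs
        obtain ⟨u, hu, hfu⟩ := (Submodule.mem_sSup_of_directed hne hch.directedOn).1 hfs
        exact (hsub hu).2.2.2 hfu)
    o₀ ⟨ho₀T, le_rfl, ho₀x, hf00⟩
  obtain ⟨hoT, -, hox, hfo⟩ := ho.prop
  have hmax : ∀ k ∈ TI, o < k → k ≤ x → f ∈ k := by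
    intro k hk hok hkx
    by_contra hfk
    exact absurd (ho.le_of_ge ⟨hk, ho₀o.trans hok.le, hkx, hfk⟩ hok.le) (not_le_of_gt hok)
  -- the least T-ideal above `o` containing `f`
  set a := sInf {k : Submodule ℤ P | k ∈ TI ∧ o ≤ k ∧ f ∈ k} with ha
  have haT : a ∈ TI := isT_sInf (fun k hk => hk.1) ⟨x, hx, hox, hfx⟩
  have hoa : o ≤ a := le_sInf fun k hk => hk.2.1
  have hfa : f ∈ a := by
    rw [ha, Submodule.mem_sInf]
    exact fun k hk => hk.2.2
  have hax : a ≤ x := sInf_le ⟨hx, hox, hfx⟩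
  have oa : o < a := lt_of_le_of_ne hoa fun h => hfo (by rw [h]; exact hfa)
  have hAtm : Atm TI o a := by
    intro k hk hok hka
    exact le_antisymm hka (sInf_le ⟨hk, hok.le, hmax k hk hok (hka.trans hax)⟩)
  -- the other two
  have hy1 : y ⊔ o ∈ TI := hs _ hy _ hoT
  have hz1 : z ⊔ o ∈ TI := hs _ hz _ hoT
  have hxy : x ⊓ (y ⊔ o) = o := by
    rw [ml hox]
    exact sup_eq_right.2 ((le_sup_left : x ⊓ y ≤ o₀).trans ho₀o)
  have hxz : x ⊓ (z ⊔ o) = o := by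
    rw [ml hox]
    exact sup_eq_right.2 ((le_sup_right : x ⊓ z ≤ o₀).trans ho₀o)
  have hay : a ⊓ (y ⊔ o) = o :=
    le_antisymm ((inf_le_inf_right _ hax).trans hxy.le) (le_inf hoa le_sup_right)
  have haz : a ⊓ (z ⊔ o) = o :=
    le_antisymm ((inf_le_inf_right _ hax).trans hxz.le) (le_inf hoa le_sup_right)
  have hayz : a ≤ (y ⊔ o) ⊔ (z ⊔ o) := by
    refine sInf_le ⟨hs _ hy1 _ hz1, le_sup_of_le_left le_sup_right, ?_⟩
    exact (sup_le_sup le_sup_left le_sup_left : y ⊔ z ≤ (y ⊔ o) ⊔ (z ⊔ o)) hfyz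
  -- push along `w`
  set w := (y ⊔ o) ⊓ (z ⊔ o) with hw
  have hwT : w ∈ TI := hi _ hy1 _ hz1
  have how : o ≤ w := le_inf le_sup_right le_sup_right
  have haw : a ⊓ w = o :=
    le_antisymm ((inf_le_inf_left _ inf_le_left).trans hay.le) (le_inf hoa how)
  have wa : w < a ⊔ w := by
    refine lt_of_le_of_ne le_sup_right fun h => ?_
    have h1 : a ≤ w := by rw [h]; exact le_sup_left
    have h2 : a ≤ o := by rw [← haw]; exact le_inf le_rfl h1
    exact absurd oa (not_lt_of_ge h2)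
  have e1 : (a ⊔ w) ⊓ (y ⊔ o) = w := by
    rw [inf_comm, ml (inf_le_left : w ≤ y ⊔ o), inf_comm, hay]
    exact sup_eq_right.2 how
  have e2 : (a ⊔ w) ⊓ (z ⊔ o) = w := by
    rw [inf_comm, ml (inf_le_right : w ≤ z ⊔ o), inf_comm, haz]
    exact sup_eq_right.2 how
  refine ⟨w, a ⊔ w, _, _, _, hIo₀.trans (ho₀o.trans how),
    dia_of hi hs hwT (hs _ haT _ hwT) hy1 hz1 wa inf_le_left inf_le_right e1 e2 rfl ?_,
    atm_push hi haT hAtm haw⟩
  exact sup_le hayz (inf_le_left.trans le_sup_left)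

theorem exists_pre {I : Submodule ℤ P} (hn : ¬ DistOn TI I)
    (hN : ∀ D, IsT D → I ≤ D → (∃ n, NilAt D n) → DistOn TI D) :
    ∃ o a b c j, I ≤ o ∧ Pre o a b c j := by
  obtain ⟨o, a, b, c, j, hIo, hd, hA⟩ := exists_dia hn
  have hi := expo_TI_inf
  have hs := expo_TI_sup
  have haj : a ≤ j := by rw [← hd.jab]; exact le_sup_left
  have hoj : o ≤ j := hd.oa.le.trans haj
  obtain ⟨k, hok, hk⟩ := zorn_le_nonempty₀ {k : Submodule ℤ P | k ∈ TI ∧ o ≤ k ∧ k ⊓ j = o}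
    (by
      intro s hsub hch k hk
      have hne : s.Nonempty := ⟨k, hk⟩
      refine ⟨sSup s, ⟨isT_sSup (fun u hu => (hsub hu).1) hch hne, ?_, ?_⟩, fun u hu => le_sSup hu⟩
      · exact (hsub hk).2.1.trans (le_sSup hk)
      · apply le_antisymm
        · intro f hf
          obtain ⟨h1, h2⟩ := Submodule.mem_inf.1 hf
          obtain ⟨u, hu, hfu⟩ := (Submodule.mem_sSup_of_directed hne hch.directedOn).1 h1
          rw [← (hsub hu).2.2]
          exact Submodule.mem_inf.2 ⟨hfu, h2⟩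
        · exact le_inf ((hsub hk).2.1.trans (le_sSup hk)) hoj)
    o ⟨hd.ho, le_rfl, inf_eq_left.2 hoj⟩
  obtain ⟨hkT, -, hkj⟩ := hk.prop
  have hcj : c ≤ j := by rw [← hd.jac]; exact le_sup_right
  have hbj : b ≤ j := by rw [← hd.jab]; exact le_sup_right
  have meet : ∀ x, o ≤ x → x ≤ j → x ⊓ k = o := by
    intro x hox hxj
    refine le_antisymm ?_ (le_inf hox hok)
    rw [← hkj]
    exact le_inf inf_le_right (inf_le_left.trans hxj)
  refine ⟨k, a ⊔ k, b ⊔ k, c ⊔ k, j ⊔ k, hIo.trans hok, dia_push hs hd hkT hkj,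
    atm_push hi hd.ha hA (meet a hd.oa.le haj),
    atm_push hi hd.hb (atm_persp hi hs hd hA) (meet b hd.ob.le hbj),
    atm_push hi hd.hc (atm_persp' hi hs hd hA) (meet c hd.oc.le hcj), ?_, ?_⟩
  · intro x hx hkx hxj
    refine le_antisymm (hk.le_of_ge ⟨hx, hok.trans hkx, le_antisymm ?_ (le_inf (hok.trans hkx) hoj)⟩ hkx) hkx
    have h1 : x ⊓ j ≤ k := by
      rw [← hxj]
      exact inf_le_inf_left _ le_sup_left
    calc x ⊓ j ≤ k ⊓ j := le_inf h1 inf_le_right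
      _ = o := hkj
  · intro D hD hkD hn
    exact hN D hD (hIo.trans (hok.trans hkD)) hn

end ADA
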