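import Pool.Agent.ADA.Pre
import Pool.Agent.AD.Tors
import Pool.Agent.AD.OneVar

/-!
# ADA-Tors
-/

namespace ADA

open AD ADN

private theorem mon_mem_mm {A : Type} [CommRing A] (φ : P →ₐ[ℤ] MvPolynomial ℕ A)
    (hφ : ∀ i, φ (X i) = MvPolynomial.X i) (n : ℕ) (w : List ℕ) (hw : n ≤ w.length) :
    φ (mon w) ∈ (mm A) ^ n := by
  have h1 : ∀ w : List ℕ, φ (mon w) ∈ (mm A) ^ w.length := by
    intro w
    induction w with
    | nil =>
      rw [List.length_nil, pow_zero, Ideal.one_eq_top]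
      exact Submodule.mem_top
    | cons i w ih =>
      have h2 : mon (i :: w) = X i * mon w := by
        unfold mon
        rw [List.map_cons, List.prod_cons]
      rw [h2, map_mul, hφ, List.length_cons, pow_succ']
      exact Ideal.mul_mem_mul (Ideal.subset_span ⟨i, rfl⟩) ih
  exact Ideal.pow_le_pow_right hw (h1 w)

private theorem mon_mem_Pp {w : List ℕ} (hw : 1 ≤ w.length) : mon w ∈ Pp := by
  show aug (mon w) = 0
  cases w with
  | nil => simp at hw
  | cons i w =>
    unfold mon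
    rw [List.map_cons, List.prod_cons, map_mul, aug_X, zero_mul]

theorem nilAt_TU : NilAt TU 3 := by
  intro w hw
  refine ⟨mon_mem_Pp (by omega), ?_⟩
  show com (mon w) ∈ KU
  exact Ideal.mem_sup_right (mon_mem_mm com (fun i => FreeAlgebra.lift_ι_apply _ _) 3 w hw)

theorem nilAt_TC (p : ℕ) : NilAt (TC p) (p ^ 2 + p + 2) := by
  intro w hw
  refine ⟨mon_mem_Pp (by omega), ?_⟩
  show comp p (mon w) ∈ (mm (ZMod p)) ^ (p ^ 2 + p + 2)
  exact mon_mem_mm (comp p) (fun i => FreeAlgebra.lift_ι_apply _ _) _ w hw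

/-- AD-7 (b). -/
theorem exists_mul_xyz {I a b c j : Submodule ℤ P} (hI : Pre I a b c j) :
    ∃ m : ℕ, 1 ≤ m ∧ (m : ℤ) • (X 0 * X 1 * X 2) ∈ I := by
  have hIT : IsT I := hI.isT
  obtain ⟨J, hJT, hIJ⟩ := exists_tor hIT
  have hIleJ : I ≤ J := fun f hf => (hIJ f).mpr ⟨1, le_refl _, by simpa using hf⟩
  -- `J` is closed under division
  have htor : ∀ (m : ℕ) (f : P), 1 ≤ m → (m : ℤ) • f ∈ J → f ∈ J := by
    intro m f hm hf
    obtain ⟨m', hm', hf'⟩ := (hIJ _).mp hf
    refine (hIJ f).mpr ⟨m' * m, Nat.one_le_iff_ne_zero.mpr (by positivity), ?_⟩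
    rw [smul_smul] at hf'
    push_cast
    exact hf'
  have htorz : ∀ (c : ℤ) (f : P), c ≠ 0 → c • f ∈ J → f ∈ J := by
    intro c f hc hf
    refine htor c.natAbs f (Nat.one_le_iff_ne_zero.mpr (Int.natAbs_ne_zero.mpr hc)) ?_
    rcases Int.natAbs_eq c with h | h
    · rw [← h]
      exact hf
    · have h2 : ((c.natAbs : ℕ) : ℤ) = -c := by omega
      rw [h2, neg_smul]
      exact J.neg_mem hf
  -- homogeneous components of `phT T f`
  have hcomp : ∀ (T : Finset ℕ) (f : P), f ∈ J → ∀ k, (evT T (com f)).coeff k ≠ 0 →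
      (X 0) ^ k ∈ J := by
    intro T f hf k hk
    set c := (evT T (com f)).coeff with hc
    set N := (evT T (com f)).natDegree + 1 with hN
    have hkN : k < N := Nat.lt_succ_of_le (Polynomial.le_natDegree_of_ne_zero hk)
    have h1 : phT T f ∈ J := hJT.subst _ (phT_isSubst T) f hf
    have h2 : ∀ t : ℕ, ∑ j ∈ Finset.range N, (t ^ j) • (J.mkQ (c j • (X 0) ^ j)) = 0 := by
      intro t
      have h3 : subAll ((t : ℤ) • X 0) (phT T f) ∈ J :=
        hJT.subst _ (subAll_isSubst (by rw [map_smul, aug_X, smul_zero])) _ h1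
      rw [phT_eq, map_sum] at h3
      have h4 : ∑ j ∈ Finset.range N, (t ^ j) • (J.mkQ (c j • (X 0) ^ j)) =
          J.mkQ (∑ j ∈ Finset.range N, subAll ((t : ℤ) • X 0) (c j • (X 0) ^ j)) := by
        rw [map_sum]
        refine Finset.sum_congr rfl fun j _ => ?_
        rw [map_smul (subAll _), map_pow, subAll_X, smul_pow, smul_comm, map_smul J.mkQ ((t : ℤ) ^ j)]
        rw [← Nat.cast_pow, natCast_zsmul]
      rw [h4]
      exact (Submodule.Quotient.mk_eq_zero J).mpr h3
    have h3 := components (Q := P ⧸ J) (by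
      intro m q hm hq
      obtain ⟨g, rfl⟩ := J.mkQ_surjective q
      rw [← natCast_zsmul, ← map_smul] at hq
      have h5 : (m : ℤ) • g ∈ J := (Submodule.Quotient.mk_eq_zero J).mp hq
      exact (Submodule.Quotient.mk_eq_zero J).mpr (htor m g hm h5)) N _ h2 k hkN
    have h4 : c k • (X 0) ^ k ∈ J := (Submodule.Quotient.mk_eq_zero J).mp h3
    exact htorz _ _ hk h4
  -- `X_0 ^ 2 ∈ J`
  have hsq : (X 0) ^ 2 ∈ J := by
    by_contra hno
    have hno1 : (X 0) ^ 1 ∉ J := by
      intro h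
      apply hno
      rw [pow_one] at h
      rw [pow_two]
      exact hJT.mul_right _ h _
    have hc1 : ∀ (T : Finset ℕ) (f : P), f ∈ J → (evT T (com f)).coeff 1 = 0 := by
      intro T f hf
      by_contra h
      exact hno1 (hcomp T f hf 1 h)
    have hc2 : ∀ (T : Finset ℕ) (f : P), f ∈ J → (evT T (com f)).coeff 2 = 0 := by
      intro T f hf
      by_contra h
      exact hno (hcomp T f hf 2 h)
    have hJU : J ≤ TU := by
      intro f hf
      rw [mem_TU_iff]
      refine ⟨hJT.le hf, ?_, ?_⟩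
      · intro i
        rw [← coeff_single_of_evT, hc1 _ _ hf]
        exact dvd_zero _
      · intro i j
        by_cases hij : i = j
        · subst hij
          rw [← Finsupp.single_add, ← coeff_single_of_evT, hc2 _ _ hf]
          exact dvd_zero _
        · have h1 := coeff_pair_of_evT hij (com f)
          rw [← coeff_single_of_evT, ← coeff_single_of_evT, hc2 _ _ hf, hc2 _ _ hf, hc2 _ _ hf,
            zero_add, zero_add] at h1
          rw [← h1]
          exact dvd_zero _
    exact not_dist_TU (hI.nd TU isT_TU (hIleJ.trans hJU) ⟨3, nilAt_TU⟩)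
  -- squares of all polynomials without constant term
  have hu2 : ∀ u : P, aug u = 0 → u * u ∈ J := by
    intro u hu
    have h1 := hJT.subst _ (subAll_isSubst hu) _ hsq
    rw [map_pow, subAll_X, pow_two] at h1
    exact h1
  have huv : ∀ u v : P, aug u = 0 → aug v = 0 → u * v + v * u ∈ J := by
    intro u v hu hv
    have h1 := hu2 (u + v) (by rw [map_add, hu, hv, add_zero])
    have h2 : u * v + v * u = (u + v) * (u + v) - u * u - v * v := by noncomm_ring
    rw [h2]
    exact J.sub_mem (J.sub_mem h1 (hu2 u hu)) (hu2 v hv)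
  have hmul : ∀ u v : P, aug u = 0 → aug (u * v) = 0 := by
    intro u v hu
    rw [map_mul, hu, zero_mul]
  have e1 := huv (X 0) (X 1 * X 2) (aug_X 0) (hmul _ _ (aug_X 1))
  have e2 := huv (X 1) (X 2 * X 0) (aug_X 1) (hmul _ _ (aug_X 2))
  have e3 := huv (X 2) (X 0 * X 1) (aug_X 2) (hmul _ _ (aug_X 0))
  have e4 : (2 : ℤ) • (X 0 * X 1 * X 2) ∈ J := by
    have h1 : (2 : ℤ) • (X 0 * X 1 * X 2) =
        (X 0 * (X 1 * X 2) + X 1 * X 2 * X 0) - (X 1 * (X 2 * X 0) + X 2 * X 0 * X 1) +
          (X 2 * (X 0 * X 1) + X 0 * X 1 * X 2) := by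
      noncomm_ring
    rw [h1]
    exact J.add_mem (J.sub_mem e1 e2) e3
  exact (hIJ _).mp (htorz 2 _ (by norm_num) e4)

end ADA
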