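import Pool.Agent.ADA.CpB

/-!
# ADA-UpA

The variety `U_p` of the commutative rings with `p ^ 2 x = p x y = 0` and `x_1 ⋯ x_{p+1} = 0` is not distributive.
-/

namespace ADA

open MvPolynomial

/-- integer polynomials -/
abbrev Az := MvPolynomial ℕ ℤ

/-- the ideal `p ^ 2 𝔪 + p 𝔪 ^ 2 + 𝔪 ^ (p + 1)` -/
noncomputable def KP (p : ℕ) : Ideal Az :=
  Ideal.span {(p : Az) ^ 2} * AD.mm ℤ ⊔ Ideal.span {(p : Az)} * (AD.mm ℤ) ^ 2 ⊔ (AD.mm ℤ) ^ (p + 1)

variable {p : ℕ}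

theorem mem_KP {k : Az} : k ∈ KP p ↔
    ∃ a ∈ AD.mm ℤ, ∃ b ∈ (AD.mm ℤ) ^ 2, ∃ c ∈ (AD.mm ℤ) ^ (p + 1), (p : Az) ^ 2 * a + p * b + c = k := by
  unfold KP
  simp only [Submodule.mem_sup, Ideal.mem_span_singleton_mul]
  constructor
  · rintro ⟨y, ⟨q, ⟨a, ha, rfl⟩, r, ⟨b, hb, rfl⟩, rfl⟩, c, hc, rfl⟩
    exact ⟨a, ha, b, hb, c, hc, rfl⟩
  · rintro ⟨a, ha, b, hb, c, hc, rfl⟩
    exact ⟨_, ⟨_, ⟨a, ha, rfl⟩, _, ⟨b, hb, rfl⟩, rfl⟩, c, hc, rfl⟩

theorem kp_sq {a : Az} (ha : a ∈ AD.mm ℤ) : (p : Az) ^ 2 * a ∈ KP p :=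
  mem_KP.2 ⟨a, ha, 0, Ideal.zero_mem _, 0, Ideal.zero_mem _, by ring⟩

theorem kp_two {b : Az} (hb : b ∈ (AD.mm ℤ) ^ 2) : (p : Az) * b ∈ KP p :=
  mem_KP.2 ⟨0, Ideal.zero_mem _, b, hb, 0, Ideal.zero_mem _, by ring⟩

theorem kp_top {c : Az} (hc : c ∈ (AD.mm ℤ) ^ (p + 1)) : c ∈ KP p :=
  mem_KP.2 ⟨0, Ideal.zero_mem _, 0, Ideal.zero_mem _, c, hc, by ring⟩

theorem com_sub (g : AD.P) : AD.com g - C (AD.aug g) ∈ AD.mm ℤ := by
  induction g using FreeAlgebra.induction with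
  | grade0 r =>
      have h1 : AD.com (algebraMap ℤ AD.P r) = C r := by
        rw [AlgHom.commutes]; rfl
      have h2 : AD.aug (algebraMap ℤ AD.P r) = r := by
        rw [AlgHom.commutes]; rfl
      rw [h1, h2, sub_self]
      exact Ideal.zero_mem _
  | grade1 i =>
      have h1 : AD.com (FreeAlgebra.ι ℤ i) = MvPolynomial.X i := by
        unfold AD.com; rw [FreeAlgebra.lift_ι_apply]
      have h2 : AD.aug (FreeAlgebra.ι ℤ i) = 0 := by
        unfold AD.aug; rw [FreeAlgebra.lift_ι_apply]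
      rw [h1, h2, C_0, sub_zero]
      exact X_mem i
  | mul a b ha hb =>
      have : AD.com (a * b) - C (AD.aug (a * b)) = (AD.com a - C (AD.aug a)) * AD.com b +
          C (AD.aug a) * (AD.com b - C (AD.aug b)) := by
        rw [map_mul, map_mul, C_mul]; ring
      rw [this]
      exact Ideal.add_mem _ (Ideal.mul_mem_right _ _ ha) (Ideal.mul_mem_left _ _ hb)
  | add a b ha hb =>
      have : AD.com (a + b) - C (AD.aug (a + b)) = (AD.com a - C (AD.aug a)) + (AD.com b - C (AD.aug b)) := by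
        rw [map_add, map_add, C_add]; ring
      rw [this]
      exact Ideal.add_mem _ ha hb

theorem pp_iff {f : AD.P} : f ∈ AD.Pp ↔ AD.aug f = 0 := Iff.rfl

/-- the defining property, for a commutative polynomial -/
def NE (p : ℕ) (α β : ℤ) (g : Az) : Prop :=
  ∃ u ∈ AD.mm ℤ, g - ((p : Az) * (α : Az) * u + (β : Az) * u ^ p) ∈ KP p

theorem le_two (hp : p.Prime) : 2 ≤ p := hp.two_le

theorem pow_mem_two (hp : p.Prime) {u : Az} (hu : u ∈ AD.mm ℤ) : u ^ p ∈ (AD.mm ℤ) ^ 2 :=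
  Ideal.pow_le_pow_right hp.two_le (Ideal.pow_mem_pow hu p)

theorem ne_add (hp : p.Prime) {α β : ℤ} {g h : Az} (hg : NE p α β g) (hh : NE p α β h) :
    NE p α β (g + h) := by
  obtain ⟨u, hu, h1⟩ := hg
  obtain ⟨v, hv, h2⟩ := hh
  refine ⟨u + v, Ideal.add_mem _ hu hv, ?_⟩
  obtain ⟨r, hr⟩ := exists_add_pow_prime_eq hp u v
  have h3 : u * v * r ∈ (AD.mm ℤ) ^ 2 := by
    rw [pow_two]; exact Ideal.mul_mem_right _ _ (Ideal.mul_mem_mul hu hv)
  have h4 := Ideal.mul_mem_left _ (β : Az) (kp_two (p := p) h3)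
  have e : g + h - ((p : Az) * (α : Az) * (u + v) + (β : Az) * (u + v) ^ p) =
      (g - ((p : Az) * (α : Az) * u + (β : Az) * u ^ p)) +
      (h - ((p : Az) * (α : Az) * v + (β : Az) * v ^ p)) -
      (β : Az) * ((p : Az) * (u * v * r)) := by
    rw [hr]; ring
  rw [e]
  exact Ideal.sub_mem _ (Ideal.add_mem _ h1 h2) h4

theorem ne_smul (hp : p.Prime) {α β : ℤ} {g : Az} (hg : NE p α β g) (c : ℤ) :
    NE p α β ((c : Az) * g) := by
  obtain ⟨u, hu, h1⟩ := hg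
  refine ⟨(c : Az) * u, Ideal.mul_mem_left _ _ hu, ?_⟩
  obtain ⟨t, ht⟩ : ∃ t : ℤ, c ^ p = c + p * t := by
    have : Fact p.Prime := ⟨hp⟩
    have h : ((c ^ p - c : ℤ) : ZMod p) = 0 := by
      push_cast
      rw [ZMod.pow_card, sub_self]
    rw [ZMod.intCast_zmod_eq_zero_iff_dvd] at h
    obtain ⟨t, ht⟩ := h
    exact ⟨t, by linarith⟩
  have ht' : (c : Az) ^ p = (c : Az) + (p : Az) * (t : Az) := by
    exact_mod_cast congrArg (Int.cast : ℤ → Az) ht
  have h4 := Ideal.mul_mem_left _ ((β : Az) * t) (kp_two (p := p) (pow_mem_two hp hu))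
  have h5 := Ideal.mul_mem_left _ (c : Az) h1
  have e : (c : Az) * g - ((p : Az) * (α : Az) * (c * u) + (β : Az) * (c * u) ^ p) =
      c * (g - ((p : Az) * (α : Az) * u + (β : Az) * u ^ p)) - (β : Az) * t * ((p : Az) * u ^ p) := by
    rw [mul_pow, ht']
    ring
  rw [e]
  exact Ideal.sub_mem _ h5 h4

theorem ne_KP {α β : ℤ} {g k : Az} (hg : NE p α β g) (hk : k ∈ KP p) : NE p α β (g + k) := by
  obtain ⟨u, hu, h1⟩ := hg
  refine ⟨u, hu, ?_⟩
  rw [show g + k - ((p : Az) * (α : Az) * u + (β : Az) * u ^ p) =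
    (g - ((p : Az) * (α : Az) * u + (β : Az) * u ^ p)) + k by ring]
  exact Ideal.add_mem _ h1 hk

theorem ne_mul {α β : ℤ} {g v : Az} (hg : NE p α β g) (hv : v ∈ AD.mm ℤ) : g * v ∈ KP p := by
  obtain ⟨u, hu, h1⟩ := hg
  have h3 : u * v ∈ (AD.mm ℤ) ^ 2 := by
    rw [pow_two]; exact Ideal.mul_mem_mul hu hv
  have h4 : u ^ p * v ∈ (AD.mm ℤ) ^ (p + 1) := by
    rw [pow_succ]; exact Ideal.mul_mem_mul (Ideal.pow_mem_pow hu p) hv
  have e : g * v = (g - ((p : Az) * (α : Az) * u + (β : Az) * u ^ p)) * v +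
      (α : Az) * ((p : Az) * (u * v)) + (β : Az) * (u ^ p * v) := by ring
  rw [e]
  exact Ideal.add_mem _ (Ideal.add_mem _ (Ideal.mul_mem_right _ _ h1)
    (Ideal.mul_mem_left _ _ (kp_two h3))) (Ideal.mul_mem_left _ _ (kp_top h4))

/-- the T-ideals of the diamond -/
noncomputable def NA (hp : p.Prime) (α β : ℤ) : Submodule ℤ AD.P where
  carrier := {f | f ∈ AD.Pp ∧ NE p α β (AD.com f)}
  zero_mem' := ⟨Submodule.zero_mem _, 0, Ideal.zero_mem _, by
    simp only [map_zero, mul_zero, zero_pow hp.ne_zero, add_zero, sub_self]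
    exact Ideal.zero_mem _⟩
  add_mem' := by
    rintro f g ⟨h1, h2⟩ ⟨h3, h4⟩
    refine ⟨Submodule.add_mem _ h1 h3, ?_⟩
    rw [map_add]
    exact ne_add hp h2 h4
  smul_mem' := by
    rintro c f ⟨h1, h2⟩
    refine ⟨Submodule.smul_mem _ _ h1, ?_⟩
    have : AD.com (c • f) = (c : Az) * AD.com f := by
      rw [map_zsmul, zsmul_eq_mul]
    rw [this]
    exact ne_smul hp h2 c

theorem com_subst (φ : AD.P →ₐ[ℤ] AD.P) (f : AD.P) :
    AD.com (φ f) = (aeval (fun i => AD.com (φ (AD.X i))) : Az →ₐ[ℤ] Az) (AD.com f) := by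
  have h : AD.com.comp φ = (aeval (fun i => AD.com (φ (AD.X i))) : Az →ₐ[ℤ] Az).comp AD.com := by
    apply FreeAlgebra.hom_ext
    funext i
    simp [AD.com]
  exact congrArg (fun F => F f) h

theorem subst_KP {v : ℕ → Az} (hv : ∀ i, v i ∈ AD.mm ℤ) : (∀ a ∈ AD.mm ℤ, (aeval v : Az →ₐ[ℤ] Az) a ∈ AD.mm ℤ) ∧
    ∀ k ∈ KP p, (aeval v : Az →ₐ[ℤ] Az) k ∈ KP p := by
  have hm : AD.mm ℤ ≤ (AD.mm ℤ).comap (aeval v : Az →ₐ[ℤ] Az) := by
    conv_lhs => unfold AD.mm
    rw [Ideal.span_le]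
    rintro _ ⟨i, rfl⟩
    show (aeval v : Az →ₐ[ℤ] Az) (MvPolynomial.X i) ∈ AD.mm ℤ
    rw [aeval_X]
    exact hv i
  have hmp : ∀ n : ℕ, ∀ a ∈ (AD.mm ℤ) ^ n, (aeval v : Az →ₐ[ℤ] Az) a ∈ (AD.mm ℤ) ^ n := by
    intro n a ha'
    have h3 : (AD.mm ℤ) ^ n ≤ ((AD.mm ℤ) ^ n).comap (aeval v : Az →ₐ[ℤ] Az) :=
      (Ideal.pow_right_mono hm n).trans (Ideal.le_comap_pow _ n)
    exact h3 ha'
  refine ⟨fun a ha => hm ha, ?_⟩
  intro k hk
  obtain ⟨a, ha', b, hb, c, hc', rfl⟩ := mem_KP.1 hk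
  refine mem_KP.2 ⟨_, hm ha', _, hmp 2 b hb, _, hmp (p + 1) c hc', ?_⟩
  rw [map_add, map_add, map_mul, map_mul, map_pow, map_natCast]

theorem na_isT (hp : p.Prime) (α β : ℤ) : AD.IsT (NA hp α β) where
  le := fun f hf => hf.1
  mul_right := by
    rintro f ⟨h1, h2⟩ g
    refine ⟨?_, ?_⟩
    · rw [pp_iff, map_mul, pp_iff.1 h1, zero_mul]
    · have e : AD.com (f * g) = (AD.aug g : Az) * AD.com f + AD.com f * (AD.com g - C (AD.aug g)) := by
        have : (C (AD.aug g) : Az) = ((AD.aug g : ℤ) : Az) := by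
          simp
        rw [map_mul, this]; ring
      rw [e]
      exact ne_KP (ne_smul hp h2 _) (ne_mul h2 (com_sub g))
  mul_left := by
    rintro f ⟨h1, h2⟩ g
    refine ⟨?_, ?_⟩
    · rw [pp_iff, map_mul, pp_iff.1 h1, mul_zero]
    · have e : AD.com (g * f) = (AD.aug g : Az) * AD.com f + AD.com f * (AD.com g - C (AD.aug g)) := by
        have : (C (AD.aug g) : Az) = ((AD.aug g : ℤ) : Az) := by
          simp
        rw [map_mul, this]; ring
      rw [e]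
      exact ne_KP (ne_smul hp h2 _) (ne_mul h2 (com_sub g))
  subst := by
    rintro φ hφ f ⟨h1, u, hu, h2⟩
    have hv : ∀ i, AD.com (φ (AD.X i)) ∈ AD.mm ℤ := by
      intro i
      have := com_sub (φ (AD.X i))
      rwa [hφ i, C_0, sub_zero] at this
    obtain ⟨hm, hK⟩ := subst_KP (p := p) hv
    refine ⟨AD.isT_Pp.subst φ hφ f h1, _, hm u hu, ?_⟩
    rw [com_subst]
    have h4 := hK _ h2
    rw [map_sub, map_add, map_mul, map_mul, map_mul, map_natCast, map_pow, map_intCast,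
      map_intCast] at h4
    exact h4

/-- the T-ideal of `U_p` -/
noncomputable def UP (p : ℕ) : Submodule ℤ AD.P :=
  AD.Pp ⊓ ((KP p).restrictScalars ℤ).comap AD.com.toLinearMap

theorem mem_UP {f : AD.P} : f ∈ UP p ↔ f ∈ AD.Pp ∧ AD.com f ∈ KP p := Iff.rfl

theorem isT_UP : AD.IsT (UP p) := by
  refine ⟨inf_le_left, ?_, ?_, ?_⟩
  · rintro f hf g
    obtain ⟨h1, h2⟩ := mem_UP.1 hf
    refine mem_UP.2 ⟨AD.isT_Pp.mul_right f h1 g, ?_⟩
    rw [map_mul]
    exact Ideal.mul_mem_right _ _ h2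
  · rintro f hf g
    obtain ⟨h1, h2⟩ := mem_UP.1 hf
    refine mem_UP.2 ⟨AD.isT_Pp.mul_left f h1 g, ?_⟩
    rw [map_mul]
    exact Ideal.mul_mem_left _ _ h2
  · rintro φ hφ f hf
    obtain ⟨h1, h2⟩ := mem_UP.1 hf
    refine mem_UP.2 ⟨AD.isT_Pp.subst φ hφ f h1, ?_⟩
    have hv : ∀ i, AD.com (φ (AD.X i)) ∈ AD.mm ℤ := by
      intro i
      have := com_sub (φ (AD.X i))
      rwa [hφ i, C_0, sub_zero] at this
    rw [com_subst]
    exact (subst_KP (p := p) hv).2 _ h2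

theorem up_le (hp : p.Prime) (α β : ℤ) : UP p ≤ NA hp α β := by
  intro f hf
  obtain ⟨h1, h2⟩ := mem_UP.1 hf
  refine ⟨h1, 0, Ideal.zero_mem _, ?_⟩
  rw [mul_zero, zero_pow hp.ne_zero, mul_zero, add_zero, sub_zero]
  exact h2

theorem coeff_p_mul (m : ℕ →₀ ℕ) (g : Az) : coeff m ((p : Az) * g) = (p : ℤ) * coeff m g := by
  have : (p : Az) = C (p : ℤ) := by simp
  rw [this, coeff_C_mul]

theorem coeff_psq_mul (m : ℕ →₀ ℕ) (g : Az) : coeff m ((p : Az) ^ 2 * g) = (p : ℤ) ^ 2 * coeff m g := by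
  have : (p : Az) ^ 2 = C ((p : ℤ) ^ 2) := by simp
  rw [this, coeff_C_mul]

theorem kp_coeff (hp : p.Prime) {k : Az} (hk : k ∈ KP p) :
    (∀ i, (p : ℤ) ^ 2 ∣ coeff (Finsupp.single i 1) k) ∧ ∀ i, (p : ℤ) ∣ coeff (Finsupp.single i p) k := by
  obtain ⟨a, ha, b, hb, c, hc, rfl⟩ := mem_KP.1 hk
  have hb' := (mem_mm_pow 2 b).1 hb
  have hc' := (mem_mm_pow (p + 1) c).1 hc
  have hp2 := hp.two_le
  constructor
  · intro i
    rw [coeff_add, coeff_add, coeff_psq_mul, coeff_p_mul, hb' _ (by rw [Finsupp.degree_single]; norm_num),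
      hc' _ (by rw [Finsupp.degree_single]; omega)]
    simp
  · intro i
    rw [coeff_add, coeff_add, coeff_psq_mul, coeff_p_mul, hc' _ (by rw [Finsupp.degree_single]; omega), add_zero]
    refine dvd_add (Dvd.dvd.mul_right ?_ _) (dvd_mul_right _ _)
    exact Dvd.intro_left _ (by ring : (p : ℤ) * p = (p : ℤ) ^ 2)

theorem coeff_pow_single {v : Az} (hv : v ∈ AD.mm ℤ) (i : ℕ) : ∀ n : ℕ,
    coeff (Finsupp.single i n) (v ^ n) = (coeff (Finsupp.single i 1) v) ^ n := by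
  classical
  intro n
  induction n with
  | zero => simp
  | succ n ih =>
    have h0 : coeff 0 v = 0 := (mem_mm v).1 hv
    rw [pow_succ, coeff_mul, Finsupp.antidiagonal_single]
    rw [Finset.sum_map]
    rw [Finset.sum_eq_single (n, 1)]
    · show coeff (Finsupp.single i n) (v ^ n) * coeff (Finsupp.single i 1) v = _
      rw [ih, pow_succ]
    · rintro ⟨a, b⟩ hab hne
      rw [Finset.HasAntidiagonal.mem_antidiagonal] at hab
      show coeff (Finsupp.single i a) (v ^ n) * coeff (Finsupp.single i b) v = 0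
      dsimp only at hab
      by_cases ha : a < n
      · rw [(mem_mm_pow n (v ^ n)).1 (Ideal.pow_mem_pow hv n) _ (by rw [Finsupp.degree_single]; exact ha),
          zero_mul]
      · by_cases ha2 : a = n
        · exact absurd (Prod.ext ha2 (by show b = 1; omega)) hne
        · have hb : b = 0 := by omega
          rw [hb, Finsupp.single_zero, h0, mul_zero]
    · intro h
      exact absurd (Finset.HasAntidiagonal.mem_antidiagonal.2 (show (n, 1).1 + (n, 1).2 = n + 1 from rfl)) h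

/-- `p u` is in `K` if `p` divides the linear coefficients of `u` -/
theorem mul_mem_KP {u : Az} (hu : u ∈ AD.mm ℤ) (h : ∀ i, (p : ℤ) ∣ coeff (Finsupp.single i 1) u) :
    (p : Az) * u ∈ KP p := by
  classical
  rw [as_sum u, Finset.mul_sum]
  refine Ideal.sum_mem _ fun m hm => ?_
  have hne : coeff m u ≠ 0 := mem_support_iff.1 hm
  by_cases h2 : 2 ≤ m.degree
  · exact kp_two (monomial_mem h2 _)
  · have h0 : m.degree ≠ 0 := by
      intro h0
      have hm0 := (Finsupp.degree_eq_zero_iff m).1 h0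
      apply hne
      rw [hm0]
      exact (mem_mm u).1 hu
    have h1 : m.degree = 1 := by omega
    obtain ⟨i, hi⟩ : ∃ i, m = Finsupp.single i 1 := by
      have hm0 : m ≠ 0 := by
        rintro rfl
        simp at h1
      obtain ⟨i, hi⟩ := Finsupp.support_nonempty_iff.2 hm0
      have hi' : 1 ≤ m i := Nat.one_le_iff_ne_zero.2 (Finsupp.mem_support_iff.1 hi)
      exact ⟨i, eq_single (by omega) hi'⟩
    obtain ⟨t, ht⟩ := h i
    have : (p : Az) * monomial m (coeff m u) = (p : Az) ^ 2 * monomial m t := by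
      have hp : (p : Az) = C (p : ℤ) := by simp
      rw [hp, ← C_pow, C_mul_monomial, C_mul_monomial, hi, ht]
      congr 1
      ring
    rw [this]
    refine kp_sq ?_
    have := monomial_mem (R := ℤ) (e := 1) (by omega : 1 ≤ m.degree) t
    rwa [pow_one] at this

theorem na_inf (hp : p.Prime) (β : ℤ) {f : AD.P} (hx : f ∈ NA hp 1 0) (hy : f ∈ NA hp β 1) :
    f ∈ UP p := by
  obtain ⟨hP, u, hu, h1⟩ := hx
  obtain ⟨-, v, hv, h2⟩ := hy
  have hpi : Prime (p : ℤ) := Nat.prime_iff_prime_int.1 hp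
  have hp0 : (p : ℤ) ≠ 0 := hpi.ne_zero
  have h3 : (p : Az) * u - ((p : Az) * (β : Az) * v + v ^ p) ∈ KP p := by
    have e : (p : Az) * u - ((p : Az) * (β : Az) * v + v ^ p) =
        (AD.com f - ((p : Az) * (β : Az) * v + ((1 : ℤ) : Az) * v ^ p)) -
        (AD.com f - ((p : Az) * ((1 : ℤ) : Az) * u + ((0 : ℤ) : Az) * u ^ p)) := by
      push_cast
      ring
    rw [e]
    exact Ideal.sub_mem _ h2 h1
  obtain ⟨a1, a2⟩ := kp_coeff hp h3
  have hβ : ∀ m, coeff m ((p : Az) * (β : Az) * v) = (p : ℤ) * (β * coeff m v) := by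
    intro m
    have : (β : Az) = C β := by simp
    rw [mul_assoc, coeff_p_mul, this, coeff_C_mul]
  have hv1 : ∀ i, (p : ℤ) ∣ coeff (Finsupp.single i 1) v := by
    intro i
    have h4 := a2 i
    rw [coeff_sub, coeff_add, coeff_p_mul, hβ, coeff_pow_single hv] at h4
    have h5 : (p : ℤ) ∣ (coeff (Finsupp.single i 1) v) ^ p := by
      have h6 : (coeff (Finsupp.single i 1) v) ^ p = (p : ℤ) * (coeff (Finsupp.single i p) u -
          β * coeff (Finsupp.single i p) v) - ((p : ℤ) * coeff (Finsupp.single i p) u -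
          ((p : ℤ) * (β * coeff (Finsupp.single i p) v) + (coeff (Finsupp.single i 1) v) ^ p)) := by ring
      rw [h6]
      exact dvd_sub (dvd_mul_right _ _) h4
    exact hpi.dvd_of_dvd_pow h5
  have hu1 : ∀ i, (p : ℤ) ∣ coeff (Finsupp.single i 1) u := by
    intro i
    have h4 := a1 i
    rw [coeff_sub, coeff_add, coeff_p_mul, hβ,
      (mem_mm_pow p (v ^ p)).1 (Ideal.pow_mem_pow hv p) _ (by
        rw [Finsupp.degree_single]; exact hp.one_lt), add_zero, ← mul_sub, pow_two] at h4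
    have h5 := Int.dvd_of_mul_dvd_mul_left hp0 h4
    have h6 : coeff (Finsupp.single i 1) u = (coeff (Finsupp.single i 1) u -
        β * coeff (Finsupp.single i 1) v) + β * coeff (Finsupp.single i 1) v := by ring
    rw [h6]
    exact dvd_add h5 (Dvd.dvd.mul_left (hv1 i) _)
  refine mem_UP.2 ⟨hP, ?_⟩
  have h7 : AD.com f = (AD.com f - ((p : Az) * ((1 : ℤ) : Az) * u + ((0 : ℤ) : Az) * u ^ p)) + (p : Az) * u := by
    push_cast
    ring
  rw [h7]
  exact Ideal.add_mem _ h1 (mul_mem_KP hu hu1)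

theorem com_X (i : ℕ) : AD.com (AD.X i) = MvPolynomial.X i := by simp [AD.com]

/-- `U_p` is not distributive -/
theorem not_dist_UP (hp : p.Prime) : ¬ AD.DistOn AD.TI (UP p) := by
  intro h
  have h1 := h (NA hp 1 0) (na_isT hp 1 0) (NA hp 0 1) (na_isT hp 0 1) (NA hp 1 1) (na_isT hp 1 1)
    (up_le hp _ _) (up_le hp _ _) (up_le hp _ _)
  have hA : ∀ i, AD.aug (AD.X i) = 0 := by
    intro i; unfold AD.aug AD.X; rw [FreeAlgebra.lift_ι_apply]
  have hXm : (MvPolynomial.X 0 : Az) ∈ AD.mm ℤ := X_mem 0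
  have hpp : AD.com (p : AD.P) = (p : Az) := map_natCast _ _
  have hxp : (AD.X 0) ^ p ∈ AD.Pp := by
    rw [pp_iff, map_pow, hA, zero_pow hp.ne_zero]
  have hpx : (p : AD.P) * AD.X 0 ∈ AD.Pp := by
    rw [pp_iff, map_mul, hA, mul_zero]
  have hmem : (p : AD.P) * AD.X 0 ∈ NA hp 1 0 ⊓ (NA hp 0 1 ⊔ NA hp 1 1) := by
    refine ⟨⟨hpx, MvPolynomial.X 0, hXm, ?_⟩, ?_⟩
    · rw [map_mul, com_X, hpp]
      simp
    · refine Submodule.mem_sup.2 ⟨-((AD.X 0) ^ p), (NA hp 0 1).neg_mem ⟨hxp, MvPolynomial.X 0, hXm, ?_⟩,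
        (p : AD.P) * AD.X 0 + (AD.X 0) ^ p, ⟨AD.Pp.add_mem hpx hxp, MvPolynomial.X 0, hXm, ?_⟩, by abel⟩
      · rw [map_pow, com_X]
        simp
      · rw [map_add, map_mul, map_pow, com_X, hpp]
        simp
  rw [h1] at hmem
  have hle : (NA hp 1 0 ⊓ NA hp 0 1) ⊔ (NA hp 1 0 ⊓ NA hp 1 1) ≤ UP p := by
    refine sup_le ?_ ?_
    · rintro f ⟨k1, k2⟩
      exact na_inf hp 0 k1 k2
    · rintro f ⟨k1, k2⟩
      exact na_inf hp 1 k1 k2
  obtain ⟨-, hK⟩ := mem_UP.1 (hle hmem)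
  rw [map_mul, com_X, hpp] at hK
  have h2 := (kp_coeff hp hK).1 0
  rw [coeff_p_mul, coeff_X, if_pos rfl, pow_two] at h2
  have h3 := Int.dvd_of_mul_dvd_mul_left (Nat.prime_iff_prime_int.1 hp).ne_zero h2
  have h4 := (Nat.prime_iff_prime_int.1 hp).not_dvd_one
  exact h4 h3

theorem map_com (f : AD.P) : MvPolynomial.map (Int.castRingHom (ZMod p)) (AD.com f) = AD.comp p f := by
  have h : (MvPolynomial.map (Int.castRingHom (ZMod p)) : Az →+* Ap p).toIntAlgHom.comp AD.com = AD.comp p := by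
    apply FreeAlgebra.hom_ext
    funext i
    show MvPolynomial.map (Int.castRingHom (ZMod p)) (AD.com (AD.X i)) = AD.comp p (AD.X i)
    rw [com_X, comp_X, map_X]
  exact congrArg (fun F => F f) h

theorem com_surj (g : Az) : ∃ f, AD.com f = g := by
  induction g using MvPolynomial.induction_on with
  | C a =>
    refine ⟨algebraMap ℤ AD.P a, ?_⟩
    rw [AlgHom.commutes]
    rfl
  | add f g hf hg =>
    obtain ⟨a, rfl⟩ := hf
    obtain ⟨b, rfl⟩ := hg
    exact ⟨a + b, map_add _ _ _⟩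
  | mul_X f n hf =>
    obtain ⟨a, rfl⟩ := hf
    exact ⟨a * AD.X n, by rw [map_mul, com_X]⟩

theorem coeff_com (f : AD.P) : coeff 0 (AD.com f) = AD.aug f := by
  have := (mem_mm _).1 (com_sub f)
  rw [coeff_sub, coeff_zero_C] at this
  linarith

/-- modulo `p` the variety `U_p` becomes distributive -/
theorem CP_le : CP p ≤ UP p ⊔ AD.mulI (p : ℤ) AD.Pp := by
  classical
  intro f hf
  obtain ⟨h1, h2⟩ := mem_CP.1 hf
  have h3 : ∀ m : ℕ →₀ ℕ, m.degree < p + 1 → (p : ℤ) ∣ coeff m (AD.com f) := by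
    intro m hm
    have := (mem_mm_pow (p + 1) _).1 h2 m hm
    rw [← map_com, coeff_map] at this
    exact (ZMod.intCast_zmod_eq_zero_iff_dvd _ _).1 this
  -- the terms of low degree, divided by `p`
  obtain ⟨a, ha⟩ : ∃ a : Az, a = ∑ m ∈ (AD.com f).support.filter (fun m => m.degree < p + 1),
      monomial m (coeff m (AD.com f) / p) := ⟨_, rfl⟩
  have ha0 : coeff 0 a = 0 := by
    rw [ha, coeff_sum]
    refine Finset.sum_eq_zero fun m hm => ?_
    rw [coeff_monomial]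
    split_ifs with hm0
    · rw [hm0, coeff_com, pp_iff.1 h1]
      simp
    · rfl
  obtain ⟨g, hg⟩ := com_surj a
  have hgP : g ∈ AD.Pp := by
    rw [pp_iff, ← coeff_com, hg, ha0]
  have hpg : AD.com ((p : ℤ) • g) = (p : Az) * a := by
    rw [map_zsmul, zsmul_eq_mul, hg]
    simp
  have hr : AD.com (f - (p : ℤ) • g) ∈ (AD.mm ℤ) ^ (p + 1) := by
    rw [map_sub, hpg]
    have e : AD.com f - (p : Az) * a = ∑ m ∈ (AD.com f).support.filter (fun m => ¬ m.degree < p + 1),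
        monomial m (coeff m (AD.com f)) := by
      conv_lhs => rw [as_sum (AD.com f)]
      rw [← Finset.sum_filter_add_sum_filter_not _ (fun m => m.degree < p + 1)]
      have e2 : (p : Az) * a = ∑ m ∈ (AD.com f).support.filter (fun m => m.degree < p + 1),
          monomial m (coeff m (AD.com f)) := by
        rw [ha, Finset.mul_sum]
        refine Finset.sum_congr rfl fun m hm => ?_
        have hp' : (p : Az) = C (p : ℤ) := by simp
        rw [hp', C_mul_monomial, Int.mul_ediv_cancel' (h3 m (Finset.mem_filter.1 hm).2)]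
      rw [e2]
      ring
    rw [e]
    refine Ideal.sum_mem _ fun m hm => ?_
    exact monomial_mem (not_lt.1 (Finset.mem_filter.1 hm).2) _
  have : f = (f - (p : ℤ) • g) + (p : ℤ) • g := by abel
  rw [this]
  refine Submodule.add_mem_sup (mem_UP.2 ⟨AD.Pp.sub_mem h1 (AD.Pp.smul_mem _ hgP), kp_top hr⟩) ?_
  exact ⟨g, hgP, rfl⟩

end ADA
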